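import Mathlib

open Filter Cardinal

namespace Q207.Chain

universe u

section closing

variable {Ω : Type u} [LinearOrder Ω] [WellFoundedLT Ω]

/-- closing off under a function from pairs of finite sets to finite sets -/
theorem closing (hc : ∀ a : Ω, (Set.Iio a).Countable)
    (hu : ∀ s : Set Ω, s.Countable → ∃ b, ∀ a ∈ s, a < b)
    (g : Finset Ω → Finset Ω → Finset Ω) (β : Ω) :
    ∃ α, β ≤ α ∧ ∀ P N : Finset Ω, (∀ x ∈ P, x < α) → (∀ x ∈ N, x < α) →
      ∀ x ∈ g P N, x < α := by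
  -- one step
  have hstep : ∀ b : Ω, ∃ b', b < b' ∧ ∀ P N : Finset Ω, (∀ x ∈ P, x < b) → (∀ x ∈ N, x < b) →
      ∀ x ∈ g P N, x < b' := by
    intro b
    have hcnt : {P : Finset Ω | ∀ x ∈ P, x < b}.Countable := by
      have : Countable (Set.Iio b) := (hc b).to_subtype
      refine (Set.countable_range (fun P : Finset (Set.Iio b) =>
        P.map (Function.Embedding.subtype _))).mono ?_
      intro P hP
      classical
      exact ⟨P.subtype (· ∈ Set.Iio b), Finset.subtype_map_of_mem hP⟩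
    have h2 : (⋃ P ∈ {P : Finset Ω | ∀ x ∈ P, x < b}, ⋃ N ∈ {P : Finset Ω | ∀ x ∈ P, x < b},
        (g P N : Set Ω)).Countable := by
      refine Set.Countable.biUnion hcnt ?_
      intro P _
      refine Set.Countable.biUnion hcnt ?_
      intro N _
      exact (Finset.finite_toSet _).countable
    obtain ⟨b', hb'⟩ := hu (insert b _) (h2.insert b)
    refine ⟨b', hb' b (Set.mem_insert _ _), ?_⟩
    intro P N hP hN x hx
    apply hb'
    right
    simp only [Set.mem_iUnion]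
    exact ⟨P, hP, N, hN, hx⟩
  choose f hf1 hf2 using hstep
  let s : ℕ → Ω := fun n => f^[n] β
  have hs : ∀ n, s (n + 1) = f (s n) := fun n => Function.iterate_succ_apply' f n β
  have hsm : StrictMono s := by
    apply strictMono_nat_of_lt_succ
    intro n
    rw [hs]
    exact hf1 _
  obtain ⟨b0, hb0⟩ := hu (Set.range s) (Set.countable_range s)
  have hne : {a : Ω | ∀ n, s n ≤ a}.Nonempty := ⟨b0, fun n => (hb0 _ ⟨n, rfl⟩).le⟩
  let α := WellFounded.min (wellFounded_lt (α := Ω)) _ hne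
  have hα : ∀ n, s n ≤ α := WellFounded.min_mem (wellFounded_lt (α := Ω)) _ hne
  have hα2 : ∀ x, x < α → ∃ n, x < s n := by
    intro x hx
    by_contra hcon
    push Not at hcon
    exact WellFounded.not_lt_min (wellFounded_lt (α := Ω)) {a : Ω | ∀ n, s n ≤ a} hcon hx
  have hα3 : ∀ P : Finset Ω, (∀ x ∈ P, x < α) → ∃ n, ∀ x ∈ P, x < s n := by
    intro P
    induction P using Finset.induction_on with
    | empty => intro _; exact ⟨0, by simp⟩
    | insert a P ha ih =>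
      intro h
      obtain ⟨n, hn⟩ := ih (fun x hx => h x (Finset.mem_insert_of_mem hx))
      obtain ⟨m, hm⟩ := hα2 a (h a (Finset.mem_insert_self _ _))
      refine ⟨max n m, ?_⟩
      intro x hx
      rcases Finset.mem_insert.1 hx with h1 | h1
      · subst h1
        exact lt_of_lt_of_le hm (hsm.monotone (le_max_right _ _))
      · exact lt_of_lt_of_le (hn x h1) (hsm.monotone (le_max_left _ _))
  refine ⟨α, hα 0, ?_⟩
  intro P N hP hN x hx
  obtain ⟨n, hn⟩ := hα3 P hP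
  obtain ⟨m, hm⟩ := hα3 N hN
  have h1 := hf2 (s (max n m)) P N
    (fun x hx => lt_of_lt_of_le (hn x hx) (hsm.monotone (le_max_left _ _)))
    (fun x hx => lt_of_lt_of_le (hm x hx) (hsm.monotone (le_max_right _ _))) x hx
  rw [← hs] at h1
  exact lt_of_lt_of_le h1 (hα _)

end closing

/-! ### an independent family -/

/-- Hausdorff's independent family on `ℕ × Finset (Finset ℕ)` -/
def hausd (X : Set ℕ) : Set (ℕ × Finset (Finset ℕ)) :=
  {p | ∃ F ∈ p.2, ∀ k, k ∈ F ↔ (k < p.1 ∧ k ∈ X)}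

theorem hausd_indep (P N : Finset (Set ℕ)) (h : Disjoint P N) :
    {x | (∀ a ∈ P, x ∈ hausd a) ∧ (∀ a ∈ N, x ∉ hausd a)}.Infinite := by
  classical
  -- a level from which on all the sets in `P ∪ N` are separated
  have hsep : ∀ X Y : Set ℕ, ∃ n : ℕ, X ≠ Y → ∃ k < n, ¬ (k ∈ X ↔ k ∈ Y) := by
    intro X Y
    by_cases hXY : X = Y
    · exact ⟨0, fun h => absurd hXY h⟩
    · have : ∃ k, ¬ (k ∈ X ↔ k ∈ Y) := by
        by_contra hcon
        push Not at hcon
        exact hXY (Set.ext hcon)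
      obtain ⟨k, hk⟩ := this
      exact ⟨k + 1, fun _ => ⟨k, Nat.lt_succ_self k, hk⟩⟩
  choose s hs using hsep
  let n0 : ℕ := (P ×ˢ N).sup fun q => s q.1 q.2
  let tr : ℕ → Set ℕ → Finset ℕ := fun n X => (Finset.range n).filter (fun k => k ∈ X)
  have htr : ∀ n X k, k ∈ tr n X ↔ (k < n ∧ k ∈ X) := by
    intro n X k
    simp only [tr, Finset.mem_filter, Finset.mem_range]
  refine Set.infinite_of_injective_forall_mem
    (f := fun m : ℕ => ((n0 + m, P.image (tr (n0 + m))) : ℕ × Finset (Finset ℕ))) ?_ ?_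
  · intro i j hij
    have := congrArg Prod.fst hij
    simp only at this
    omega
  · intro m
    constructor
    · intro a ha
      exact ⟨tr (n0 + m) a, Finset.mem_image_of_mem _ ha, fun k => htr _ _ k⟩
    · rintro a ha ⟨F, hF, hFk⟩
      obtain ⟨b, hb, rfl⟩ := Finset.mem_image.1 hF
      have hne : b ≠ a := by
        rintro rfl
        exact (Finset.disjoint_left.1 h hb) ha
      obtain ⟨k, hk, hk'⟩ := hs b a hne
      apply hk'
      have h1 : s b a ≤ n0 :=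
        Finset.le_sup (f := fun q : Set ℕ × Set ℕ => s q.1 q.2) (b := (b, a))
          (Finset.mem_product.2 ⟨hb, ha⟩)
      have h2 := hFk k
      rw [htr] at h2
      simp only at h2
      constructor
      · intro h3
        exact (h2.1 ⟨by omega, h3⟩).2
      · intro h3
        exact (h2.2 ⟨by omega, h3⟩).2

/-- A doubly indexed independent family on `ℕ`. -/
theorem exists_indep {Ω : Type u} (ψ : Ω → Set ℕ) (hψ : Function.Injective ψ) :
    ∃ (B : Ω → Set ℕ) (C : Set ℕ → Set ℕ), ∀ (P N : Finset Ω) (Q M : Finset (Set ℕ)),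
      Disjoint P N → Disjoint Q M →
      {x | (∀ a ∈ P, x ∈ B a) ∧ (∀ a ∈ N, x ∉ B a) ∧ (∀ c ∈ Q, x ∈ C c) ∧
        (∀ c ∈ M, x ∉ C c)}.Infinite := by
  classical
  obtain ⟨e⟩ : Nonempty (ℕ ≃ (ℕ × Finset (Finset ℕ)) × (ℕ × Finset (Finset ℕ))) :=
    nonempty_equiv_of_countable
  refine ⟨fun a => {x | (e x).1 ∈ hausd (ψ a)}, fun c => {x | (e x).2 ∈ hausd c}, ?_⟩
  intro P N Q M hPN hQM
  have h1 := hausd_indep (P.image ψ) (N.image ψ) (by
    rw [Finset.disjoint_left]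
    intro X hX hX'
    obtain ⟨a, ha, rfl⟩ := Finset.mem_image.1 hX
    obtain ⟨b, hb, hab⟩ := Finset.mem_image.1 hX'
    rw [hψ hab] at hb
    exact Finset.disjoint_left.1 hPN ha hb)
  have h2 := hausd_indep Q M hQM
  obtain ⟨w, hw⟩ := h2.nonempty
  have h3 : (e.symm '' ((fun v => (v, w)) '' {x | (∀ a ∈ P.image ψ, x ∈ hausd a) ∧
      (∀ a ∈ N.image ψ, x ∉ hausd a)})).Infinite := by
    refine Set.Infinite.image (e.symm.injective.injOn) ?_
    refine Set.Infinite.image ?_ h1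
    intro a _ b _ hab
    exact congrArg Prod.fst hab
  refine h3.mono ?_
  rintro _ ⟨_, ⟨v, hv, rfl⟩, rfl⟩
  have he : e (e.symm (v, w)) = (v, w) := e.apply_symm_apply _
  refine ⟨?_, ?_, ?_, ?_⟩
  · intro a ha
    have := hv.1 _ (Finset.mem_image_of_mem ψ ha)
    show (e (e.symm (v, w))).1 ∈ hausd (ψ a)
    rw [he]
    exact this
  · intro a ha
    have := hv.2 _ (Finset.mem_image_of_mem ψ ha)
    show ¬ (e (e.symm (v, w))).1 ∈ hausd (ψ a)
    rw [he]
    exact this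
  · intro c hc
    show (e (e.symm (v, w))).2 ∈ hausd c
    rw [he]
    exact hw.1 _ hc
  · intro c hc
    show ¬ (e (e.symm (v, w))).2 ∈ hausd c
    rw [he]
    exact hw.2 _ hc

/-! ### the filters -/

/-- the Boolean combination `⋂ a ∈ P, B a ∩ ⋂ a ∈ N, (B a)ᶜ` -/
def El {Ω : Type u} (B : Ω → Set ℕ) (P N : Finset Ω) : Set ℕ :=
  {x | (∀ a ∈ P, x ∈ B a) ∧ ∀ a ∈ N, x ∉ B a}

theorem El_anti {Ω : Type u} {B : Ω → Set ℕ} {P N P' N' : Finset Ω} (hP : P ⊆ P') (hN : N ⊆ N') :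
    El B P' N' ⊆ El B P N :=
  fun _ hx => ⟨fun a ha => hx.1 a (hP ha), fun a ha => hx.2 a (hN ha)⟩

open Classical in
/-- The filter generated by the cofinite sets, the sets `C ξ` and the complements of the sets
contained in infinitely many `C ξ`. -/
def F0 (C : Set ℕ → Set ℕ) : Filter ℕ where
  sets := {s | ∃ (Q : Finset (Set ℕ)) (T : Finset (Set ℕ)) (K : Finset ℕ),
    (∀ X ∈ T, {ξ | X ⊆ C ξ}.Infinite) ∧
    ∀ x, (∀ c ∈ Q, x ∈ C c) → (∀ X ∈ T, x ∉ X) → x ∉ K → x ∈ s}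
  univ_sets := ⟨∅, ∅, ∅, by simp, by simp⟩
  sets_of_superset := by
    rintro s t ⟨Q, T, K, h1, h2⟩ hst
    exact ⟨Q, T, K, h1, fun x hx hx' hx'' => hst (h2 x hx hx' hx'')⟩
  inter_sets := by
    rintro s t ⟨Q, T, K, h1, h2⟩ ⟨Q', T', K', h1', h2'⟩
    refine ⟨Q ∪ Q', T ∪ T', K ∪ K', ?_, ?_⟩
    · intro X hX
      rcases Finset.mem_union.1 hX with h | h
      · exact h1 X h
      · exact h1' X h
    · intro x hx hx' hx''
      rw [Finset.notMem_union] at hx''
      exact ⟨h2 x (fun c hc => hx c (Finset.mem_union_left _ hc))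
          (fun c hc => hx' c (Finset.mem_union_left _ hc)) hx''.1,
        h2' x (fun c hc => hx c (Finset.mem_union_right _ hc))
          (fun c hc => hx' c (Finset.mem_union_right _ hc)) hx''.2⟩

theorem mem_F0 {C : Set ℕ → Set ℕ} {s : Set ℕ} : s ∈ F0 C ↔
    ∃ (Q : Finset (Set ℕ)) (T : Finset (Set ℕ)) (K : Finset ℕ),
    (∀ X ∈ T, {ξ | X ⊆ C ξ}.Infinite) ∧
    ∀ x, (∀ c ∈ Q, x ∈ C c) → (∀ X ∈ T, x ∉ X) → x ∉ K → x ∈ s := Iff.rfl

theorem F0_cofinite (C : Set ℕ → Set ℕ) : F0 C ≤ cofinite := by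
  intro s hs
  rw [mem_cofinite] at hs
  refine mem_F0.2 ⟨∅, ∅, hs.toFinset, by simp, ?_⟩
  intro x _ _ hx
  by_contra hxs
  apply hx
  rw [Set.Finite.mem_toFinset]
  exact hxs

theorem C_mem_F0 (C : Set ℕ → Set ℕ) (c : Set ℕ) : C c ∈ F0 C :=
  mem_F0.2 ⟨{c}, ∅, ∅, by simp, fun _ hx _ _ => hx c (Finset.mem_singleton_self c)⟩

theorem compl_mem_F0 (C : Set ℕ → Set ℕ) {X : Set ℕ} (h : {ξ | X ⊆ C ξ}.Infinite) :
    Xᶜ ∈ F0 C :=
  mem_F0.2 ⟨∅, {X}, ∅, fun Y hY => by rw [Finset.mem_singleton.1 hY]; exact h,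
    fun _ _ hx _ => hx X (Finset.mem_singleton_self X)⟩

/-- the independence hypothesis -/
def Ind {Ω : Type u} (B : Ω → Set ℕ) (C : Set ℕ → Set ℕ) : Prop :=
  ∀ (P N : Finset Ω) (Q M : Finset (Set ℕ)),
      Disjoint P N → Disjoint Q M →
      {x | (∀ a ∈ P, x ∈ B a) ∧ (∀ a ∈ N, x ∉ B a) ∧ (∀ c ∈ Q, x ∈ C c) ∧
        (∀ c ∈ M, x ∉ C c)}.Infinite

theorem F0_pos {Ω : Type u} {B : Ω → Set ℕ} {C : Set ℕ → Set ℕ} (hI : Ind B C)
    (P N : Finset Ω) (h : Disjoint P N) : (El B P N)ᶜ ∉ F0 C := by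
  classical
  rintro ⟨Q, T, K, h1, h2⟩
  have h3 : ∀ X ∈ T, ∃ ξ, X ⊆ C ξ ∧ ξ ∉ Q := by
    intro X hX
    obtain ⟨ξ, hξ, hξ'⟩ := (h1 X hX).exists_notMem_finset Q
    exact ⟨ξ, hξ, hξ'⟩
  choose! ξ hξ1 hξ2 using h3
  have hdis : Disjoint Q (T.image ξ) := by
    rw [Finset.disjoint_right]
    intro c hc
    obtain ⟨X, hX, rfl⟩ := Finset.mem_image.1 hc
    exact hξ2 X hX
  obtain ⟨x, hx, hxK⟩ := (hI P N Q (T.image ξ) h hdis).exists_notMem_finset K
  obtain ⟨hx1, hx2, hx3, hx4⟩ := hx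
  refine h2 x hx3 ?_ hxK ⟨hx1, hx2⟩
  intro X hX hxX
  exact hx4 (ξ X) (Finset.mem_image_of_mem ξ hX) (hξ1 X hX hxX)

theorem zorn_ge {α : Type*} [PartialOrder α] (S : Set α)
    (ih : ∀ c ⊆ S, IsChain (· ≤ ·) c → ∀ y ∈ c, ∃ lb ∈ S, ∀ z ∈ c, lb ≤ z) (x : α) (hx : x ∈ S) :
    ∃ m, m ≤ x ∧ m ∈ S ∧ ∀ y ∈ S, y ≤ m → m ≤ y := by
  obtain ⟨m, h1, h2⟩ := @zorn_le_nonempty₀ αᵒᵈ _ S
    (fun c cS hc y yc => ih c cS hc.symm y yc) x hx
  exact ⟨m, h1, h2.1, fun y hy h => h2.2 hy h⟩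

theorem exists_max {Ω : Type u} {B : Ω → Set ℕ} {F₀ : Filter ℕ}
    (h0 : ∀ P N : Finset Ω, Disjoint P N → (El B P N)ᶜ ∉ F₀) :
    ∃ F : Filter ℕ, F ≤ F₀ ∧ (∀ P N : Finset Ω, Disjoint P N → (El B P N)ᶜ ∉ F) ∧
      ∀ X : Set ℕ, Xᶜ ∉ F → ∃ P N : Finset Ω, Disjoint P N ∧ (El B P N)ᶜ ∪ X ∈ F := by
  obtain ⟨F, hF1, hF3, hF2⟩ := zorn_ge
    {F : Filter ℕ | ∀ P N : Finset Ω, Disjoint P N → (El B P N)ᶜ ∉ F}
    (by
      intro c hcS hc y hy
      refine ⟨sInf c, ?_, fun z hz => sInf_le hz⟩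
      intro P N hPN hmem
      have hdir : DirectedOn (id ⁻¹'o (· ≥ ·)) c := by
        intro a ha b hb
        rcases eq_or_ne a b with h | h
        · subst h
          exact ⟨a, ha, show a ≤ a from le_rfl, show a ≤ a from le_rfl⟩
        · rcases hc ha hb h with h1 | h1
          · exact ⟨a, ha, show a ≤ a from le_rfl, show a ≤ b from h1⟩
          · exact ⟨b, hb, show b ≤ a from h1, show b ≤ b from le_rfl⟩
      rw [sInf_eq_iInf] at hmem
      obtain ⟨G, hG, hG'⟩ := (mem_biInf_of_directed (f := id) hdir ⟨y, hy⟩).1 hmem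
      exact hcS hG P N hPN hG') F₀ h0
  refine ⟨F, hF1, hF3, ?_⟩
  intro X hX
  by_contra hcon
  push Not at hcon
  have h1 : (F ⊓ 𝓟 (Xᶜ) : Filter ℕ) ∈
      {F : Filter ℕ | ∀ P N : Finset Ω, Disjoint P N → (El B P N)ᶜ ∉ F} := by
    intro P N hPN hmem
    rw [mem_inf_principal] at hmem
    refine hcon P N hPN (mem_of_superset hmem ?_)
    intro x hx
    by_cases hxX : x ∈ X
    · right; exact hxX
    · left; exact hx hxX
  have h2 := hF2 _ h1 inf_le_left
  exact hX (h2 (mem_inf_of_right (mem_principal_self _)))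

section alg

variable {Ω : Type u} {B : Ω → Set ℕ} {F : Filter ℕ}

/-- the condition `(P, N)` decides `X` modulo `F` -/
def Dec (F : Filter ℕ) (B : Ω → Set ℕ) (P N : Finset Ω) (X : Set ℕ) : Prop :=
  (El B P N)ᶜ ∪ X ∈ F ∨ (El B P N)ᶜ ∪ Xᶜ ∈ F

theorem Dec.mono {P N P' N' : Finset Ω} {X : Set ℕ} (hP : P ⊆ P') (hN : N ⊆ N')
    (h : Dec F B P N X) : Dec F B P' N' X := by
  rcases h with h | h
  · left
    exact mem_of_superset h (Set.union_subset_union_left _ (Set.compl_subset_compl.2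
      (El_anti hP hN)))
  · right
    exact mem_of_superset h (Set.union_subset_union_left _ (Set.compl_subset_compl.2
      (El_anti hP hN)))

/-- the filter `F` is maximal with the `B a` independent modulo `F` -/
structure IsMaxF (F : Filter ℕ) (B : Ω → Set ℕ) : Prop where
  pos : ∀ P N : Finset Ω, Disjoint P N → (El B P N)ᶜ ∉ F
  max : ∀ X : Set ℕ, Xᶜ ∉ F → ∃ P N : Finset Ω, Disjoint P N ∧ (El B P N)ᶜ ∪ X ∈ F

open Classical in
theorem IsMaxF.dense (hF : IsMaxF F B) (X : Set ℕ) (P N : Finset Ω) (h : Disjoint P N) :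
    ∃ P' N' : Finset Ω, P ⊆ P' ∧ N ⊆ N' ∧ Disjoint P' N' ∧ Dec F B P' N' X := by
  by_cases h1 : (El B P N ∩ X)ᶜ ∈ F
  · refine ⟨P, N, subset_rfl, subset_rfl, h, Or.inr ?_⟩
    rwa [Set.compl_inter] at h1
  · obtain ⟨P1, N1, hd, h2⟩ := hF.max _ h1
    have hdis : Disjoint (P ∪ P1) (N ∪ N1) := by
      have key : ∀ a, ¬ ((a ∈ P ∧ a ∈ N1) ∨ (a ∈ P1 ∧ a ∈ N)) := by
        intro a ha
        apply hF.pos P1 N1 hd
        refine mem_of_superset h2 ?_
        rintro x (hx | hx)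
        · exact hx
        · intro hx'
          rcases ha with ha | ha
          · exact hx'.2 a ha.2 (hx.1.1 a ha.1)
          · exact hx.1.2 a ha.2 (hx'.1 a ha.1)
      rw [Finset.disjoint_left] at h hd ⊢
      intro a ha hb
      rcases Finset.mem_union.1 ha with h3 | h3 <;> rcases Finset.mem_union.1 hb with h4 | h4
      · exact h h3 h4
      · exact key a (Or.inl ⟨h3, h4⟩)
      · exact key a (Or.inr ⟨h3, h4⟩)
      · exact hd h3 h4
    refine ⟨P ∪ P1, N ∪ N1, Finset.subset_union_left, Finset.subset_union_left, hdis,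
      Or.inl ?_⟩
    refine mem_of_superset h2 ?_
    rintro x (hx | hx)
    · left
      intro hx'
      exact hx (El_anti Finset.subset_union_right Finset.subset_union_right hx')
    · right; exact hx.2

variable [LinearOrder Ω]

/-- the algebra of sets with support below `α` -/
def Alg (F : Filter ℕ) (B : Ω → Set ℕ) (α : Ω) : Set (Set ℕ) :=
  {X | ∀ P N : Finset Ω, Disjoint P N → (∀ x ∈ P, x < α) → (∀ x ∈ N, x < α) →
    ∃ P' N' : Finset Ω, P ⊆ P' ∧ N ⊆ N' ∧ Disjoint P' N' ∧ (∀ x ∈ P', x < α) ∧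
      (∀ x ∈ N', x < α) ∧ Dec F B P' N' X}

theorem IsMaxF.alg_exists [WellFoundedLT Ω] (hF : IsMaxF F B) (hc : ∀ a : Ω, (Set.Iio a).Countable)
    (hu : ∀ s : Set Ω, s.Countable → ∃ b, ∀ a ∈ s, a < b) (X : Set ℕ) :
    ∃ α, X ∈ Alg F B α := by
  classical
  have h := hF.dense X
  choose p n h1 h2 h3 h4 using h
  obtain ⟨b, -⟩ := hu ∅ Set.countable_empty
  obtain ⟨α, -, hα⟩ := closing hc hu
    (fun P N => if h : Disjoint P N then p P N h ∪ n P N h else ∅) b
  refine ⟨α, ?_⟩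
  intro P N hPN hP hN
  have h5 := hα P N hP hN
  simp only [dif_pos hPN] at h5
  exact ⟨p P N hPN, n P N hPN, h1 P N hPN, h2 P N hPN, h3 P N hPN,
    fun x hx => h5 x (Finset.mem_union_left _ hx), fun x hx => h5 x (Finset.mem_union_right _ hx),
    h4 P N hPN⟩

/-- gluing an extension of the restriction to `α` -/
theorem glue_disjoint {P N P' N' : Finset Ω} {α : Ω} (h : Disjoint P N)
    (hP : P.filter (· < α) ⊆ P') (hN : N.filter (· < α) ⊆ N') (hd : Disjoint P' N')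
    (hP' : ∀ x ∈ P', x < α) (hN' : ∀ x ∈ N', x < α) : Disjoint (P ∪ P') (N ∪ N') := by
  rw [Finset.disjoint_left] at h hd ⊢
  intro a ha hb
  rcases Finset.mem_union.1 ha with h3 | h3 <;> rcases Finset.mem_union.1 hb with h4 | h4
  · exact h h3 h4
  · exact hd (hP (Finset.mem_filter.2 ⟨h3, hN' a h4⟩)) h4
  · exact hd h3 (hN (Finset.mem_filter.2 ⟨h4, hP' a h3⟩))
  · exact hd h3 h4

theorem alg_mono {α β : Ω} (h : α ≤ β) : Alg F B α ⊆ Alg F B β := by
  intro X hX P N hPN hP hN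
  obtain ⟨P', N', h1, h2, h3, h4, h5, h6⟩ := hX (P.filter (· < α)) (N.filter (· < α))
    (Finset.disjoint_filter_filter hPN) (fun x hx => (Finset.mem_filter.1 hx).2)
    (fun x hx => (Finset.mem_filter.1 hx).2)
  refine ⟨P ∪ P', N ∪ N', Finset.subset_union_left, Finset.subset_union_left,
    glue_disjoint hPN h1 h2 h3 h4 h5, ?_, ?_,
    h6.mono Finset.subset_union_right Finset.subset_union_right⟩
  · intro x hx
    rcases Finset.mem_union.1 hx with h7 | h7
    · exact hP x h7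
    · exact lt_of_lt_of_le (h4 x h7) h
  · intro x hx
    rcases Finset.mem_union.1 hx with h7 | h7
    · exact hN x h7
    · exact lt_of_lt_of_le (h5 x h7) h

theorem alg_inter {α : Ω} {X Y : Set ℕ} (hX : X ∈ Alg F B α) (hY : Y ∈ Alg F B α) :
    X ∩ Y ∈ Alg F B α := by
  intro P N hPN hP hN
  obtain ⟨P1, N1, h1, h2, h3, h4, h5, h6⟩ := hX P N hPN hP hN
  obtain ⟨P2, N2, h1', h2', h3', h4', h5', h6'⟩ := hY P1 N1 h3 h4 h5
  refine ⟨P2, N2, h1.trans h1', h2.trans h2', h3', h4', h5', ?_⟩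
  have h7 := h6.mono h1' h2'
  rcases h7 with h7 | h7
  · rcases h6' with h8 | h8
    · left
      refine mem_of_superset (inter_mem h7 h8) ?_
      rintro x ⟨hx | hx, hx' | hx'⟩
      · exact Or.inl hx
      · exact Or.inl hx
      · exact Or.inl hx'
      · exact Or.inr ⟨hx, hx'⟩
    · right
      refine mem_of_superset h8 ?_
      rintro x (hx | hx)
      · exact Or.inl hx
      · exact Or.inr (fun h9 => hx h9.2)
  · right
    refine mem_of_superset h7 ?_
    rintro x (hx | hx)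
    · exact Or.inl hx
    · exact Or.inr (fun h9 => hx h9.1)

theorem alg_univ {α : Ω} : Set.univ ∈ Alg F B α := by
  intro P N hPN hP hN
  exact ⟨P, N, subset_rfl, subset_rfl, hPN, hP, hN, Or.inl (by rw [Set.union_univ]; exact univ_mem)⟩

theorem alg_B {α γ : Ω} (h : γ < α) : B γ ∈ Alg F B α := by
  intro P N hPN hP hN
  by_cases hγ : γ ∈ N
  · refine ⟨P, N, subset_rfl, subset_rfl, hPN, hP, hN, Or.inr ?_⟩
    refine mem_of_superset univ_mem ?_
    intro x _
    by_cases hx : x ∈ B γ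
    · left; intro hx'; exact hx'.2 γ hγ hx
    · right; exact hx
  · refine ⟨insert γ P, N, Finset.subset_insert _ _, subset_rfl, ?_, ?_, hN, Or.inl ?_⟩
    · rw [Finset.disjoint_insert_left]; exact ⟨hγ, hPN⟩
    · intro x hx
      rcases Finset.mem_insert.1 hx with h1 | h1
      · rw [h1]; exact h
      · exact hP x h1
    · refine mem_of_superset univ_mem ?_
      intro x _
      by_cases hx : x ∈ B γ
      · right; exact hx
      · left; intro hx'; exact hx (hx'.1 γ (Finset.mem_insert_self _ _))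

theorem IsMaxF.alg_pos (hF : IsMaxF F B) {α : Ω} {X : Set ℕ} (hX : X ∈ Alg F B α)
    (hpos : Xᶜ ∉ F) : ∃ P N : Finset Ω, Disjoint P N ∧ (∀ x ∈ P, x < α) ∧ (∀ x ∈ N, x < α) ∧
      (El B P N)ᶜ ∪ X ∈ F := by
  obtain ⟨P, N, hPN, h0⟩ := hF.max X hpos
  obtain ⟨P', N', h1, h2, h3, h4, h5, h6⟩ := hX (P.filter (· < α)) (N.filter (· < α))
    (Finset.disjoint_filter_filter hPN) (fun x hx => (Finset.mem_filter.1 hx).2)
    (fun x hx => (Finset.mem_filter.1 hx).2)
  refine ⟨P', N', h3, h4, h5, ?_⟩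
  rcases h6 with h6 | h6
  · exact h6
  · exfalso
    apply hF.pos (P ∪ P') (N ∪ N') (glue_disjoint hPN h1 h2 h3 h4 h5)
    refine mem_of_superset (inter_mem h0 h6) ?_
    rintro x ⟨hx, hx'⟩ hxE
    have hx1 := El_anti Finset.subset_union_left Finset.subset_union_left hxE
    have hx2 := El_anti Finset.subset_union_right Finset.subset_union_right hxE
    rcases hx with hx | hx
    · exact hx hx1
    · rcases hx' with hx' | hx'
      · exact hx' hx2
      · exact hx' hx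

theorem exists_ultra {F : Filter ℕ} {S : Set (Set ℕ)} (hne : S.Nonempty)
    (hdir : ∀ s ∈ S, ∀ t ∈ S, ∃ r ∈ S, r ⊆ s ∩ t) (hpos : ∀ s ∈ S, sᶜ ∉ F) :
    ∃ U : Ultrafilter ℕ, (U : Filter ℕ) ≤ F ∧ ∀ s ∈ S, s ∈ U := by
  let G : Filter ℕ :=
    { sets := {s | ∃ a ∈ F, ∃ t ∈ S, a ∩ t ⊆ s}
      univ_sets := by
        obtain ⟨t, ht⟩ := hne
        exact ⟨Set.univ, univ_mem, t, ht, Set.subset_univ _⟩
      sets_of_superset := by
        rintro s s' ⟨a, ha, t, ht, h⟩ hs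
        exact ⟨a, ha, t, ht, h.trans hs⟩
      inter_sets := by
        rintro s s' ⟨a, ha, t, ht, h⟩ ⟨a', ha', t', ht', h'⟩
        obtain ⟨r, hr, hr'⟩ := hdir t ht t' ht'
        refine ⟨a ∩ a', inter_mem ha ha', r, hr, ?_⟩
        rintro x ⟨hx, hx'⟩
        exact ⟨h ⟨hx.1, (hr' hx').1⟩, h' ⟨hx.2, (hr' hx').2⟩⟩ }
  have hG : G.NeBot := by
    rw [neBot_iff]
    intro hbot
    have h1 : (∅ : Set ℕ) ∈ G := by rw [hbot]; exact mem_bot
    obtain ⟨a, ha, t, ht, h⟩ := h1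
    apply hpos t ht
    refine mem_of_superset ha ?_
    intro x hx hxt
    exact h ⟨hx, hxt⟩
  refine ⟨Ultrafilter.of G, ?_, ?_⟩
  · intro s hs
    obtain ⟨t, ht⟩ := hne
    exact Ultrafilter.of_le G ⟨s, hs, t, ht, Set.inter_subset_left⟩
  · intro s hs
    exact Ultrafilter.of_le G ⟨Set.univ, univ_mem, s, hs, Set.inter_subset_right⟩

end alg

/-- The main existence theorem. -/
theorem main_exists {Ω : Type u} [LinearOrder Ω] [WellFoundedLT Ω]
    (hc : ∀ a : Ω, (Set.Iio a).Countable)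
    (hu : ∀ s : Set Ω, s.Countable → ∃ b, ∀ a ∈ s, a < b)
    (ψ : Ω → Set ℕ) (hψ : Function.Injective ψ) :
    ∃ (U : Ultrafilter ℕ) (p : Ω → Ultrafilter ℕ) (A : Ω → Set ℕ),
      (∀ X ∈ U, ∃ a, ∀ b, a ≤ b → X ∈ p b) ∧ (∀ a b, A a ∈ p b ↔ b ≤ a) ∧
      (∀ b, (p b : Filter ℕ) ≤ cofinite) ∧
      ∀ G : Set (Set ℕ), (∀ s ∈ G, s ∈ U) → (∀ X ∈ U, ∃ s ∈ G, s ⊆ X) → 𝔠 ≤ #G := by
  classical
  obtain ⟨B, C, hI⟩ := exists_indep ψ hψ
  obtain ⟨F, hF0, hF1, hF2⟩ := exists_max (F0_pos (B := B) (C := C) hI)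
  have hF : IsMaxF F B := ⟨hF1, hF2⟩
  obtain ⟨U, hUF, hUB⟩ := exists_ultra (F := F) (S := {s | ∃ P : Finset Ω, s = El B P ∅})
    ⟨_, ∅, rfl⟩ (by
      rintro _ ⟨P, rfl⟩ _ ⟨P', rfl⟩
      exact ⟨_, ⟨P ∪ P', rfl⟩, fun x hx =>
        ⟨El_anti Finset.subset_union_left subset_rfl hx,
          El_anti Finset.subset_union_right subset_rfl hx⟩⟩) (by
      rintro _ ⟨P, rfl⟩
      exact hF.pos P ∅ (Finset.disjoint_empty_right P))
  have hUB' : ∀ γ, B γ ∈ U := by
    intro γ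
    refine mem_of_superset (hUB _ ⟨{γ}, rfl⟩) ?_
    intro x hx
    exact hx.1 γ (Finset.mem_singleton_self γ)
  have hUF' : ∀ X ∈ U, Xᶜ ∉ F := by
    intro X hX hX'
    exact Ultrafilter.compl_notMem_iff.2 hX (hUF hX')
  have hp : ∀ α : Ω, ∃ V : Ultrafilter ℕ, (V : Filter ℕ) ≤ F ∧
      ∀ s ∈ {s | ∃ X ∈ U, X ∈ Alg F B α ∧ ∃ N : Finset Ω, (∀ x ∈ N, α ≤ x) ∧
        s = X ∩ El B ∅ N}, s ∈ V := by
    intro α
    apply exists_ultra
    · exact ⟨_, Set.univ, univ_mem, alg_univ, ∅, by simp, rfl⟩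
    · rintro _ ⟨X, hX, hXA, N, hN, rfl⟩ _ ⟨X', hX', hXA', N', hN', rfl⟩
      refine ⟨_, ⟨X ∩ X', inter_mem hX hX', alg_inter hXA hXA', N ∪ N', ?_, rfl⟩, ?_⟩
      · intro x hx
        rcases Finset.mem_union.1 hx with h | h
        · exact hN x h
        · exact hN' x h
      · rintro x ⟨⟨hx, hx'⟩, hx2⟩
        exact ⟨⟨hx, El_anti subset_rfl Finset.subset_union_left hx2⟩,
          ⟨hx', El_anti subset_rfl Finset.subset_union_right hx2⟩⟩
    · rintro _ ⟨X, hX, hXA, N, hN, rfl⟩ hmem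
      obtain ⟨P', N', hd, hP', hN', h1⟩ := hF.alg_pos hXA (hUF' X hX)
      apply hF.pos P' (N' ∪ N)
      · rw [Finset.disjoint_union_right]
        refine ⟨hd, ?_⟩
        rw [Finset.disjoint_left]
        intro a ha ha'
        exact absurd (hP' a ha) (not_lt.2 (hN a ha'))
      · refine mem_of_superset (inter_mem hmem h1) ?_
        rintro x ⟨hx, hx'⟩ hxE
        rcases hx' with hx' | hx'
        · exact hx' (El_anti subset_rfl Finset.subset_union_left hxE)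
        · exact hx ⟨hx', El_anti (Finset.empty_subset _) Finset.subset_union_right hxE⟩
  choose p hp1 hp2 using hp
  refine ⟨U, p, fun a => (B a)ᶜ, ?_, ?_, ?_, ?_⟩
  · intro X hX
    obtain ⟨α, hα⟩ := hF.alg_exists hc hu X
    refine ⟨α, fun b hb => ?_⟩
    exact mem_of_superset (hp2 b _ ⟨X, hX, alg_mono hb hα, ∅, by simp, rfl⟩)
      Set.inter_subset_left
  · intro a b
    constructor
    · intro h
      by_contra hcon
      push Not at hcon
      have h1 : B a ∈ p b := mem_of_superset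
        (hp2 b _ ⟨B a, hUB' a, alg_B hcon, ∅, by simp, rfl⟩) Set.inter_subset_left
      exact Ultrafilter.compl_notMem_iff.2 h1 h
    · intro h
      refine mem_of_superset
        (hp2 b _ ⟨Set.univ, univ_mem, alg_univ, {a}, ?_, rfl⟩) ?_
      · intro x hx
        rw [Finset.mem_singleton.1 hx]; exact h
      · rintro x ⟨-, hx⟩
        exact hx.2 a (Finset.mem_singleton_self a)
  · intro b
    exact (hp1 b).trans (hF0.trans (F0_cofinite C))
  · intro G hG1 hG2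
    by_contra hcon
    push Not at hcon
    have hUC : ∀ c, C c ∈ U := fun c => hUF (hF0 (C_mem_F0 C c))
    choose s hs1 hs2 using fun c => hG2 (C c) (hUC c)
    let f : Set ℕ → G := fun c => ⟨s c, hs1 c⟩
    have hfib : ∃ a : G, Infinite (f ⁻¹' {a}) := by
      rcases finite_or_infinite G with h | h
      · exact Finite.exists_infinite_fiber f
      · have h9 : #G < #(Set ℕ) := by
          rw [Cardinal.mk_set, Cardinal.mk_nat, Cardinal.two_power_aleph0]
          exact hcon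
        exact Cardinal.exists_infinite_fiber f h9
    obtain ⟨⟨X, hX⟩, hinf⟩ := hfib
    have h1 : {ξ | X ⊆ C ξ}.Infinite := by
      have h2 : (f ⁻¹' {⟨X, hX⟩}).Infinite := Set.infinite_coe_iff.1 hinf
      refine h2.mono ?_
      intro c hc
      have h3 : s c = X := congrArg Subtype.val hc
      show X ⊆ C c
      rw [← h3]
      exact hs2 c
    have h2 : Xᶜ ∈ U := hUF (hF0 (compl_mem_F0 C h1))
    exact Ultrafilter.compl_notMem_iff.2 (hG1 X hX) h2

/-! ### the index set `ω₁` -/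

open Ordinal in
/-- the type `ω₁` -/
abbrev W1 : Type := (ω₁ : Ordinal.{0}).ToType

open Ordinal in
theorem mk_W1 : #W1 = ℵ₁ := by
  rw [Cardinal.mk_toType, Ordinal.card_omega]

open Ordinal in
theorem W1_Iio (a : W1) : (Set.Iio a).Countable := by
  have h2 : #(Set.Iio a) < #W1 := by
    apply Cardinal.mk_Iio_lt
    rw [mk_W1, Cardinal.ord_aleph, Ordinal.type_toType]
  rw [mk_W1, ← Cardinal.succ_aleph0, Order.lt_succ_iff] at h2
  exact Cardinal.le_aleph0_iff_set_countable.1 h2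

open Ordinal in
theorem W1_bdd (s : Set W1) (hs : s.Countable) : ∃ b, ∀ a ∈ s, a < b := by
  have : Countable s := hs.to_subtype
  let f : s → Ordinal.{0} := fun a => ((ToType.toOrd (a : W1) : Set.Iio (ω₁ : Ordinal.{0})) : Ordinal.{0})
  have hf : ∀ a, f a < ω₁ := fun a => (ToType.toOrd (a : W1)).2
  have hsup : ⨆ a, f a < ω₁ := Ordinal.iSup_lt_omega_one hf
  have hlim : Order.IsSuccLimit (ω₁ : Ordinal.{0}) := isSuccLimit_omega 1
  have hsucc : Order.succ (⨆ a, f a) < ω₁ := hlim.succ_lt hsup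
  refine ⟨ToType.mk ⟨Order.succ (⨆ a, f a), hsucc⟩, ?_⟩
  intro a ha
  have h1 : f ⟨a, ha⟩ < Order.succ (⨆ a, f a) :=
    Order.lt_succ_iff.2 (Ordinal.le_iSup f ⟨a, ha⟩)
  have h2 : ToType.toOrd a < (⟨Order.succ (⨆ a, f a), hsucc⟩ : Set.Iio (ω₁ : Ordinal.{0})) := h1
  have h3 : ToType.mk (ToType.toOrd a) < ToType.mk ⟨Order.succ (⨆ a, f a), hsucc⟩ :=
    ToType.mk.lt_iff_lt.2 h2
  have h4 : ToType.mk (ToType.toOrd a) = a := ToType.mk.apply_symm_apply a
  rw [h4] at h3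
  exact h3

theorem W1_inj : ∃ ψ : W1 → Set ℕ, Function.Injective ψ := by
  have h1 : #W1 ≤ #(Set ℕ) := by
    rw [mk_W1, Cardinal.mk_set, Cardinal.mk_nat, Cardinal.two_power_aleph0]
    exact Cardinal.aleph_one_le_continuum
  obtain ⟨f⟩ := h1
  exact ⟨f, f.injective⟩

end Q207.Chain
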