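import Mathlib
import Pool.Agent.Helper669.KCohen

set_option autoImplicit false

/-!
# Adding many Cohen reals in the Baire space: generalities
-/

namespace Q207.Coh

open Cardinal Pool.Agent.Helper669.Forcing Pool.Agent.Helper669.K
open Pool.Agent.Helper669.KDelta (weak_delta)

/-- compatibility -/
def Compat {P : Type} [Preorder P] (p q : P) : Prop := ∃ s, s ≤ p ∧ s ≤ q

/-- the countable chain condition -/
def CCC (P : Type) [Preorder P] : Prop :=
  ∀ (ι : Type) (f : ι → P), ℵ₀ < #ι → ∃ i j, i ≠ j ∧ ∃ r, r ≤ f i ∧ r ≤ f j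

section

variable {P : Type} [Preorder P]

/-- inside every set there is a countable set of pairwise incompatible conditions compatible
with everything in the downward closure of the set -/
theorem exists_antichain (hcc : CCC P) (D : Set P) :
    ∃ A ⊆ D, A.Countable ∧ (∀ p, (∃ q ≤ p, q ∈ D) → ∃ a ∈ A, Compat a p) ∧
      ∀ a ∈ A, ∀ b ∈ A, Compat a b → a = b := by
  obtain ⟨A, hA⟩ := zorn_subset {A : Set P | A ⊆ D ∧ ∀ a ∈ A, ∀ b ∈ A, Compat a b → a = b}
    (by
      intro c hc hchain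
      refine ⟨⋃₀ c, ⟨Set.sUnion_subset fun s hs => (hc hs).1, ?_⟩,
        fun s hs => Set.subset_sUnion_of_mem hs⟩
      rintro a ⟨s, hs, ha⟩ b ⟨t, ht, hb⟩ hab
      rcases hchain.total hs ht with h | h
      · exact (hc ht).2 a (h ha) b hb hab
      · exact (hc hs).2 a ha b (h hb) hab)
  refine ⟨A, hA.prop.1, ?_, ?_, hA.prop.2⟩
  · rw [← Cardinal.le_aleph0_iff_set_countable]
    by_contra hcount
    rw [not_le] at hcount
    obtain ⟨y, y', hne, h⟩ := hcc A (fun a : A => a.1) hcount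
    exact hne (Subtype.ext (hA.prop.2 y.1 y.2 y'.1 y'.2 h))
  · intro p hp
    by_contra hcon
    push Not at hcon
    obtain ⟨q, hqp, hqD⟩ := hp
    have hq : q ∉ A := by
      intro hq
      exact hcon q hq ⟨q, le_rfl, hqp⟩
    have hcon' : ∀ a ∈ A, ¬ Compat a q := by
      rintro a ha ⟨s, h1, h2⟩
      exact hcon a ha ⟨s, h1, h2.trans hqp⟩
    have hmem : insert q A ∈ {A : Set P | A ⊆ D ∧ ∀ a ∈ A, ∀ b ∈ A, Compat a b → a = b} := by
      refine ⟨Set.insert_subset hqD hA.prop.1, ?_⟩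
      rintro a (rfl | ha) b (rfl | hb) hab
      · rfl
      · obtain ⟨s, h1, h2⟩ := hab
        exact absurd ⟨s, h2, h1⟩ (hcon' b hb)
      · exact absurd hab (hcon' a ha)
      · exact hA.prop.2 a ha b hb hab
    exact hq (hA.le_of_ge hmem (Set.subset_insert q A) (Set.mem_insert q A))

/-- a countable name -/
def nm (c : ℕ → ℕ → Option (P × ℕ)) (n m : ℕ) : Set P :=
  {q | ∃ j, c n j = some (q, m)}

theorem exists_nm [Nonempty P] (hcc : CCC P) (x : ℕ → ℕ → Set P) :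
    ∃ c, (∀ p, p ∈ IsFun (nm c)) ∧ ∀ p ∈ IsFun x, p ∈ SameReal x (nm c) := by
  classical
  have hD : ∀ n, ∃ A ⊆ {q : P | (∃ m, q ∈ meets (x n m) ∧ q ∈ IsFun x) ∨
      q ∈ fnot (IsFun x)}, A.Countable ∧ (∀ p, ∃ a ∈ A, Compat a p) ∧
      ∀ a ∈ A, ∀ b ∈ A, Compat a b → a = b := by
    intro n
    obtain ⟨A, h1, h2, h3, h4⟩ := exists_antichain hcc {q : P | (∃ m, q ∈ meets (x n m) ∧ q ∈ IsFun x) ∨
      q ∈ fnot (IsFun x)}
    refine ⟨A, h1, h2, fun q => h3 q ?_, h4⟩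
    by_cases hq : q ∈ fnot (IsFun x)
    · exact ⟨q, le_rfl, Or.inr hq⟩
    · simp only [fnot, Set.mem_ofPred_eq, not_forall, not_not] at hq
      obtain ⟨q', hq', hfun⟩ := hq
      obtain ⟨q'', hq'', m, hm⟩ := IsFun.total hfun n
      exact ⟨q'', hq''.trans hq', Or.inl ⟨m, hm, down_IsFun x _ hfun _ hq''⟩⟩
  choose A hAD hAc hApre hAanti using hD
  have hval : ∀ n, ∀ a : P, ∃ m, a ∈ A n → (a ∈ meets (x n m) ∨ a ∈ fnot (IsFun x)) := by
    intro n a
    by_cases ha : a ∈ A n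
    · rcases hAD n ha with ⟨m, h1, _⟩ | h
      · exact ⟨m, fun _ => Or.inl h1⟩
      · exact ⟨0, fun _ => Or.inr h⟩
    · exact ⟨0, fun h => absurd h ha⟩
  choose v hv using hval
  have hcode : ∀ n, ∃ g : ℕ → Option (P × ℕ), ∀ q m, (∃ j, g j = some (q, m)) ↔
      (q ∈ A n ∧ v n q = m) := by
    intro n
    obtain ⟨a₀, ha₀, _⟩ := hApre n (Classical.arbitrary _)
    have : Nonempty (A n) := ⟨⟨a₀, ha₀⟩⟩
    have hc : Countable (A n) := hAc n
    obtain ⟨g, hg⟩ := exists_surjective_nat (A n)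
    refine ⟨fun j => some ((g j).1, v n (g j).1), fun q m => ?_⟩
    constructor
    · rintro ⟨j, hj⟩
      simp only [Option.some.injEq, Prod.mk.injEq] at hj
      obtain ⟨rfl, rfl⟩ := hj
      exact ⟨(g j).2, rfl⟩
    · rintro ⟨hq, rfl⟩
      obtain ⟨j, hj⟩ := hg ⟨q, hq⟩
      exact ⟨j, by simp [hj]⟩
  choose c hc using hcode
  have hmem : ∀ n m q, q ∈ nm c n m ↔ (q ∈ A n ∧ v n q = m) := fun n m q => hc n q m
  refine ⟨c, fun p => ⟨fun n => mem_fex.2 fun q _ => ?_, fun n m m' => mem_fimp.2 fun q _ h => ?_⟩,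
    fun p hp n a b => mem_fimp.2 fun q hq h => ?_⟩
  · obtain ⟨a, ha, s, hs1, hs2⟩ := hApre n q
    exact ⟨s, hs2, v n a, meets_of_le ((hmem n _ a).2 ⟨ha, rfl⟩) hs1⟩
  · obtain ⟨r, hr, a, ha, hra⟩ := h.1 q le_rfl
    obtain ⟨r', hr', a', ha', hra'⟩ := h.2 r hr
    obtain ⟨ha1, rfl⟩ := (hmem n _ a).1 ha
    obtain ⟨ha2, rfl⟩ := (hmem n _ a').1 ha'
    have : a = a' := hAanti n a ha1 a' ha2 ⟨r', hr'.trans hra, hra'⟩
    exact ⟨q, le_rfl, by rw [this]; rfl⟩
  · obtain ⟨r, hr, s, hs, hrs⟩ := h.2 q le_rfl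
    obtain ⟨hs1, rfl⟩ := (hmem n _ s).1 hs
    have hfun : r ∈ IsFun x := down_IsFun x p hp r (hr.trans hq)
    rcases hv n s hs1 with h1 | h1
    · exact ⟨r, hr, IsFun.unique hfun (down_meets _ _ h.1 r hr) (down_meets _ _ h1 r hrs)⟩
    · exact absurd hfun (h1 r hrs)

theorem continuumLe [Nonempty P] (hcc : CCC P) {κ : Cardinal.{0}} (hC : #P ≤ κ) (hκ : ℵ₀ < κ)
    (hpow : κ ^ (ℵ₀ : Cardinal.{0}) = κ) (p : P) : p ∈ ContinuumLe P κ.out := by
  classical
  let N := {c : ℕ → ℕ → Option (P × ℕ) // ∀ p, p ∈ IsFun (nm c)}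
  have hN : #N ≤ κ := by
    refine (mk_subtype_le _).trans ?_
    have h2 : ∀ X : Type, #X ≤ κ → #(ℕ → X) ≤ κ := by
      intro X hX
      have : #(ℕ → X) = #X ^ (ℵ₀ : Cardinal.{0}) := by
        simp [mk_pi]
      rw [this]
      exact (power_le_power_right hX).trans hpow.le
    refine h2 _ (h2 _ ?_)
    rw [mk_option, mk_prod]
    simp only [lift_uzero, mk_nat]
    exact (add_le_add ((mul_le_mul' hC hκ.le).trans (mul_eq_self hκ.le).le)
      (one_le_aleph0.trans hκ.le)).trans (add_eq_self hκ.le).le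
  have hne : Nonempty N := by
    obtain ⟨c, hc, _⟩ := exists_nm hcc fun _ _ => (∅ : Set P)
    exact ⟨⟨c, hc⟩⟩
  obtain ⟨g⟩ : Nonempty (N ↪ κ.out) := Cardinal.le_def _ _ |>.1 (by rw [mk_out]; exact hN)
  have hsurj : Function.Surjective (Function.invFun g) := Function.invFun_surjective g.injective
  refine mem_fex_of_mem (fun i => nm (Function.invFun g i).1) ?_ ?_
  · exact down_fand (down_fall fun _ => down_IsFun _) (down_fall fun _ => down_fimp _ _)
  · refine ⟨fun i => (Function.invFun g i).2 p, fun x => mem_fimp.2 fun q _ hq => ?_⟩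
    obtain ⟨c, hc1, hc2⟩ := exists_nm hcc x
    obtain ⟨i, hi⟩ := hsurj ⟨c, hc1⟩
    refine ⟨q, le_rfl, mem_fex_of_mem i (down_SameReal _ _) ?_⟩
    have h2 : q ∈ SameReal x (nm (Function.invFun g i).1) := by
      rw [show (Function.invFun g i).1 = c from congrArg Subtype.val hi]
      exact hc2 q hq
    exact h2

/-- the code of the closed set with only one element, the real `x` -/
def single (x : ℕ → ℕ → Set P) : ℕ → List ℕ → Set P := fun _ s => InitSeg s x

theorem meets_initSeg {s : List ℕ} {x : ℕ → ℕ → Set P} {p : P} :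
    p ∈ meets (InitSeg s x) ↔ p ∈ InitSeg s x := by
  constructor
  · intro h i hi q hq
    obtain ⟨r, hr, t, ht, hrt⟩ := h q hq
    obtain ⟨r', hr', u, hu, hru⟩ := ht i hi r hrt
    exact ⟨r', hr'.trans hr, u, hu, hru⟩
  · exact meets_of_mem

/-- if `x` is a function then the code of its singleton is the code of a meagre set -/
theorem isMeagerCode_single {x : ℕ → ℕ → Set P} {p : P} (h : p ∈ IsFun x) :
    p ∈ IsMeagerCode (single x) := by
  intro k s
  refine mem_fex.2 fun q hq => ?_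
  obtain ⟨r, hr, m, hm⟩ := IsFun.total (down_IsFun x _ h _ hq) s.length
  refine ⟨r, hr, s ++ [m + 1], ⟨s.prefix_append _, ?_⟩⟩
  intro r' hr' hmem
  have h1 := meets_initSeg.1 hmem
  have h2 := h1 s.length (by simp)
  have h3 : (s ++ [m + 1]).getD s.length 0 = m + 1 := by simp
  rw [h3] at h2
  have h4 := IsFun.unique (down_IsFun x _ h _ (hr'.trans (hr.trans hq))) h2 (down_meets _ _ hm _ hr')
  omega

theorem inMeager_single {x y : ℕ → ℕ → Set P} {p : P} (hy : p ∈ IsFun y) (h : p ∈ SameReal x y) :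
    p ∈ InMeager x (single y) := by
  refine mem_fex_of_mem 0 (down_fall fun _ => down_fimp _ _) fun s => mem_fimp.2 fun q hq hs => ?_
  refine ⟨q, le_rfl, meets_of_mem ?_⟩
  intro i hi r hr
  have h1 : r ∈ meets (x i (s.getD i 0)) := down_meets _ _ (hs i hi) _ hr
  obtain ⟨r', hr', m, hm⟩ := IsFun.total (down_IsFun y _ hy _ (hr.trans hq)) i
  have h2 := SameReal.eq (down_SameReal x y _ h _ (hr'.trans (hr.trans hq)))
    (down_meets _ _ h1 _ hr') hm
  obtain ⟨r'', hr'', u, hu, hru⟩ := hm r' le_rfl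
  exact ⟨r'', hr''.trans hr', u, by rw [h2]; exact hu, hru⟩

/-- a surjection onto the reals gives a cover by meagre sets -/
theorem covLe_of_continuumLe {Y : Type} {p : P} (h : p ∈ ContinuumLe P Y) : p ∈ CovLe P Y := by
  refine mem_fex.2 fun q hq => ?_
  obtain ⟨r, hr, E, hE, hE'⟩ := mem_fex.1 h q hq
  refine ⟨r, hr, fun y => single (E y), fun y => isMeagerCode_single (hE y), fun x => ?_⟩
  refine mem_fimp.2 fun r1 hr1 hx => ?_
  obtain ⟨r2, hr2, h2⟩ := mem_fimp.1 (hE' x) r1 hr1 hx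
  refine ⟨r2, hr2, mem_fex.2 fun r3 hr3 => ?_⟩
  obtain ⟨r4, hr4, y, hy⟩ := mem_fex.1 h2 r3 hr3
  have hle : r4 ≤ r := hr4.trans (hr3.trans (hr2.trans hr1))
  exact ⟨r4, hr4, y, inMeager_single (down_IsFun _ _ (hE y) _ hle) hy⟩

/-- a small set of indices which is forced to contain a set does not let it have full size -/
theorem not_fullSize (hcc : CCC P) {X : Type} (hX : ℵ₀ < #X) (A : Set X) (hA : #A < #X)
    (φ : X → Set P) (q : P) (h : ∀ i, i ∉ A → ∀ r ≤ q, r ∉ φ i) : q ∈ fnot (FullSize φ) := by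
  intro q1 hq1 hmem
  obtain ⟨q2, hq2, R, hfun, hinj, hval⟩ := mem_fex.1 hmem q1 le_rfl
  let V : X → Set X := fun y => {x | ∃ r ≤ q2, r ∈ meets (R x y)}
  have hV : ∀ y, #(V y) ≤ ℵ₀ := by
    intro y
    by_contra hc
    rw [not_le] at hc
    have hch : ∀ x : V y, ∃ r ≤ q2, r ∈ meets (R x.1 y) := fun x => x.2
    choose f hf1 hf2 using hch
    obtain ⟨i, j, hij, r, hri, hrj⟩ := hcc (V y) f hc
    apply hij
    apply Subtype.ext
    have hr : r ∈ IsInj R := down_IsInj R _ hinj r (hri.trans (hf1 i))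
    exact IsInj.eq hr (down_meets _ _ (hf2 i) r hri) (down_meets _ _ (hf2 j) r hrj)
  have hU : (⋃ y : A, V y.1) = Set.univ := by
    rw [Set.eq_univ_iff_forall]
    intro x
    obtain ⟨r, hr, y, hy⟩ := IsFun.total hfun x
    obtain ⟨r', hr', hr2⟩ := mem_fimp.1 (hval x y) r hr hy
    have hyA : y ∈ A := by
      by_contra hyA
      exact h y hyA r' (hr'.trans (hr.trans (hq2.trans hq1))) hr2
    exact Set.mem_iUnion.2 ⟨⟨y, hyA⟩, r, hr, hy⟩
  have h1 : #X ≤ #A * ℵ₀ := by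
    calc #X = #(Set.univ : Set X) := Cardinal.mk_univ.symm
      _ = #(⋃ y : A, V y.1) := by rw [hU]
      _ ≤ Cardinal.sum fun y : A => #(V y.1) := Cardinal.mk_iUnion_le_sum_mk
      _ ≤ Cardinal.sum fun _ : A => ℵ₀ := Cardinal.sum_le_sum _ _ fun y => hV y.1
      _ = #A * ℵ₀ := by rw [Cardinal.sum_const']
  exact absurd h1 (not_le.2 (Cardinal.mul_lt_of_lt hX.le hA hX))

end

end Q207.Coh
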