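import Mathlib
import Pool.Agent.Q207.Coh

set_option autoImplicit false

/-!
# Adding many Cohen reals in the Baire space: the forcing notion
-/

namespace Q207.Coh

open Cardinal Pool.Agent.Helper669.Forcing Pool.Agent.Helper669.K
open Pool.Agent.Helper669.KDelta (weak_delta)

/-- A condition of the forcing notion adding a Cohen real for every element of `L`: a finite
partial function from `L × ℕ` to `ℕ`, given by its graph. -/
structure CN (L : Type) where
  /-- the graph -/
  g : Set (L × (ℕ × ℕ))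
  fin : g.Finite
  fn : ∀ a n b b', (a, (n, b)) ∈ g → (a, (n, b')) ∈ g → b = b'

instance (L : Type) : Preorder (CN L) where
  le p q := q.g ⊆ p.g
  le_refl _ := subset_rfl
  le_trans _ _ _ h h' := h'.trans h

variable {L : Type}

theorem CN.le_iff {p q : CN L} : p ≤ q ↔ q.g ⊆ p.g := Iff.rfl

theorem CN.ext_g {p q : CN L} (h : p.g = q.g) : p = q := by
  cases p
  cases q
  cases h
  rfl

instance : Nonempty (CN L) := ⟨⟨∅, Set.finite_empty, fun _ _ _ _ h => absurd h (Set.notMem_empty _)⟩⟩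

theorem CN.ccc : CCC (CN L) := by
  intro ι f hι
  obtain ⟨i, j, hij, h⟩ := exists_agree (L := L) (Z := ℕ × ℕ) isRegular_aleph0
    (fun μ hμ => power_lt_aleph0 (by exact_mod_cast natCast_lt_aleph0 (n := 2)) hμ)
    mk_le_aleph0 hι (fun E K' Z' hE hZ' => weak_delta le_rfl hE Z' hZ')
    (fun i => (f i).g) (fun i => Prod.fst '' (f i).g)
    (fun i => lt_aleph0_iff_set_finite.mpr (f i).fin)
    (fun i => lt_aleph0_iff_set_finite.mpr ((f i).fin.image _))
  refine ⟨i, j, hij, ⟨(f i).g ∪ (f j).g, (f i).fin.union (f j).fin, ?_⟩, ?_, ?_⟩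
  · intro a n b b' hb hb'
    rcases hb with hb | hb <;> rcases hb' with hb' | hb'
    · exact (f i).fn a n b b' hb hb'
    · have h1 := (h a ⟨_, hb, rfl⟩ ⟨_, hb', rfl⟩ (n, b)).mp hb
      exact (f j).fn a n b b' h1 hb'
    · have h1 := (h a ⟨_, hb', rfl⟩ ⟨_, hb, rfl⟩ (n, b)).mpr hb
      exact (f i).fn a n b b' h1 hb'
    · exact (f j).fn a n b b' hb hb'
  · rw [CN.le_iff]
    exact Set.subset_union_left
  · rw [CN.le_iff]
    exact Set.subset_union_right

theorem CN.mk_le (hL : ℵ₀ ≤ #L) : #(CN L) ≤ #L := by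
  have h1 : #(CN L) ≤ #(Finset (L × (ℕ × ℕ))) := by
    refine Cardinal.mk_le_of_injective (f := fun p => p.fin.toFinset) ?_
    intro p q hpq
    exact CN.ext_g (Set.Finite.toFinset_inj.1 hpq)
  refine h1.trans ((mk_finset_le_max _).trans (max_le ?_ hL))
  have h3 : #(ℕ × ℕ) ≤ ℵ₀ := Cardinal.mk_le_aleph0
  rw [Cardinal.mk_prod, Cardinal.lift_id, Cardinal.lift_id]
  exact (mul_le_mul' le_rfl (h3.trans hL)).trans (mul_eq_self hL).le

/-- decide a value -/
theorem CN.dec (q : CN L) (a : L) (n : ℕ) : ∃ r ≤ q, ∃ m, (a, (n, m)) ∈ r.g ∧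
    r.g ⊆ insert (a, (n, m)) q.g := by
  by_cases h : ∃ m, (a, (n, m)) ∈ q.g
  · obtain ⟨m, hm⟩ := h
    exact ⟨q, le_rfl, m, hm, Set.subset_insert _ _⟩
  · push Not at h
    refine ⟨⟨insert (a, (n, 0)) q.g, q.fin.insert _, ?_⟩, Set.subset_insert _ _, 0,
      Set.mem_insert _ _, subset_rfl⟩
    rintro a' n' b b' (hb | hb) (hb' | hb')
    · simp only [Prod.mk.injEq] at hb hb'
      rw [hb.2.2, hb'.2.2]
    · simp only [Prod.mk.injEq] at hb
      obtain ⟨rfl, rfl, rfl⟩ := hb
      exact absurd hb' (h _)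
    · simp only [Prod.mk.injEq] at hb'
      obtain ⟨rfl, rfl, rfl⟩ := hb'
      exact absurd hb (h _)
    · exact q.fn _ _ _ _ hb hb'

/-- add a new value -/
theorem CN.add (q : CN L) (a : L) (n m : ℕ) (h : ∀ m', (a, (n, m')) ∉ q.g) :
    ∃ r ≤ q, r.g = insert (a, (n, m)) q.g := by
  refine ⟨⟨insert (a, (n, m)) q.g, q.fin.insert _, ?_⟩, Set.subset_insert _ _, rfl⟩
  rintro a' n' b b' (hb | hb) (hb' | hb')
  · simp only [Prod.mk.injEq] at hb hb'
    rw [hb.2.2, hb'.2.2]
  · simp only [Prod.mk.injEq] at hb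
    obtain ⟨rfl, rfl, rfl⟩ := hb
    exact absurd hb' (h _)
  · simp only [Prod.mk.injEq] at hb'
    obtain ⟨rfl, rfl, rfl⟩ := hb'
    exact absurd hb (h _)
  · exact q.fn _ _ _ _ hb hb'

/-- the entries are bounded -/
theorem CN.bound (q : CN L) : ∃ N, ∀ a n m, (a, (n, m)) ∈ q.g → n < N := by
  obtain ⟨N, hN⟩ := (q.fin.image fun x : L × (ℕ × ℕ) => x.2.1).bddAbove
  exact ⟨N + 1, fun a n m h => Nat.lt_succ_of_le (hN ⟨_, h, rfl⟩)⟩

/-- `q` forces that the generic real at `a` has value `m` at `n` iff this is in `q` -/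
theorem CN.meets_iff {q : CN L} {a : L} {n m : ℕ} :
    q ∈ meets {p : CN L | (a, (n, m)) ∈ p.g} ↔ (a, (n, m)) ∈ q.g := by
  constructor
  · intro h
    by_contra hcon
    have key : ∃ r ≤ q, ∃ m', m' ≠ m ∧ (a, (n, m')) ∈ r.g := by
      by_cases h1 : ∃ m', (a, (n, m')) ∈ q.g
      · obtain ⟨m', hm'⟩ := h1
        exact ⟨q, le_rfl, m', fun he => hcon (he ▸ hm'), hm'⟩
      · push Not at h1
        obtain ⟨r, hr, he⟩ := CN.add q a n (m + 1) h1
        exact ⟨r, hr, m + 1, by omega, by rw [he]; exact Set.mem_insert _ _⟩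
    obtain ⟨r, hr, m', hne, hm'⟩ := key
    obtain ⟨r', hr', s, hs, hrs⟩ := h r hr
    exact hne (r'.fn a n m' m (hr' hm') (hrs hs))
  · intro h
    exact meets_of_mem h

/-! ### The interleaved reals -/

/-- the row of the interleaved real which is used at position `i` -/
def row (a c : L) (i : ℕ) : L := if i % 2 = 0 then a else c

theorem row_inj {a c : L} (h : a ≠ c) {i j : ℕ} (h1 : row a c i = row a c j) (h2 : i / 2 = j / 2) :
    i = j := by
  unfold row at h1
  split_ifs at h1 with h3 h4 h4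
  · omega
  · exact absurd h1 h
  · exact absurd h1.symm h
  · omega

/-- the interleaved real: the generic real at `a` on even positions and the generic real at `c` on
odd positions -/
def El (a c : L) (i m : ℕ) : Set (CN L) := {p | (row a c i, (i / 2, m)) ∈ p.g}

theorem isFun_El (a c : L) (p : CN L) : p ∈ IsFun (El a c) := by
  refine ⟨fun i => mem_fex.2 fun q _ => ?_, fun i m m' => mem_fimp.2 fun q _ h => ?_⟩
  · obtain ⟨r, hr, m, hm, _⟩ := CN.dec q (row a c i) (i / 2)
    exact ⟨r, hr, m, meets_of_mem hm⟩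
  · exact ⟨q, le_rfl, q.fn _ _ _ _ (CN.meets_iff.1 h.1) (CN.meets_iff.1 h.2)⟩

theorem mem_initSeg {s : List ℕ} {a c : L} {p : CN L} :
    p ∈ InitSeg s (El a c) ↔ ∀ i < s.length, (row a c i, (i / 2, s.getD i 0)) ∈ p.g := by
  constructor
  · intro h i hi
    exact CN.meets_iff.1 (h i hi)
  · intro h i hi
    exact meets_of_mem (h i hi)

/-- fill the rows -/
theorem fill (a c : L) (r : CN L) : ∃ r' ≤ r, ∃ s : List ℕ,
    (∀ i < s.length, (row a c i, (i / 2, s.getD i 0)) ∈ r'.g) ∧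
    ∀ i, s.length ≤ i → ∀ m, (row a c i, (i / 2, m)) ∉ r'.g := by
  obtain ⟨N, hN⟩ := CN.bound r
  have key : ∀ k ≤ 2 * N, ∃ r' ≤ r, ∃ s : List ℕ, s.length = k ∧
      (∀ i < s.length, (row a c i, (i / 2, s.getD i 0)) ∈ r'.g) ∧
      ∀ a n m, (a, (n, m)) ∈ r'.g → n < N := by
    intro k
    induction k with
    | zero =>
      intro _
      exact ⟨r, le_rfl, [], rfl, by simp, hN⟩
    | succ k ih =>
      intro hk
      obtain ⟨r', hr', s, hlen, h1, h2⟩ := ih (by omega)
      obtain ⟨r'', hr'', m, hm, hsub⟩ := CN.dec r' (row a c k) (k / 2)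
      refine ⟨r'', hr''.trans hr', s ++ [m], by simp [hlen], ?_, ?_⟩
      · intro i hi
        simp only [List.length_append, List.length_cons, List.length_nil] at hi
        rcases Nat.lt_or_ge i s.length with h3 | h3
        · rw [List.getD_append _ _ _ _ h3]
          exact hr'' (h1 i h3)
        · have h4 : i = s.length := by omega
          subst h4
          have h5 : (s ++ [m]).getD s.length 0 = m := by simp
          rw [h5, hlen]
          exact hm
      · intro a' n m' h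
        rcases hsub h with h3 | h3
        · simp only [Prod.mk.injEq] at h3
          omega
        · exact h2 _ _ _ h3
  obtain ⟨r', hr', s, hlen, h1, h2⟩ := key (2 * N) le_rfl
  refine ⟨r', hr', s, h1, fun i hi m hm => ?_⟩
  have := h2 _ _ _ hm
  omega

/-- the set `S` supports the name `T` of a meagre set -/
def Supports (S : Set L) (T : ℕ → List ℕ → Set (CN L)) : Prop :=
  ∀ k t, ∀ u ∈ fnot (meets (T k t)), ∃ a ∈ fnot (meets (T k t)), Compat a u ∧ ∀ x ∈ a.g, x.1 ∈ S

theorem exists_supports (T : ℕ → List ℕ → Set (CN L)) : ∃ S : Set L, S.Countable ∧ Supports S T := by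
  have h : ∀ p : ℕ × List ℕ, ∃ A ⊆ fnot (meets (T p.1 p.2)), A.Countable ∧
      ∀ u, (∃ q ≤ u, q ∈ fnot (meets (T p.1 p.2))) → ∃ a ∈ A, Compat a u := fun p => by
    obtain ⟨A, h1, h2, h3, _⟩ := exists_antichain CN.ccc (fnot (meets (T p.1 p.2)))
    exact ⟨A, h1, h2, h3⟩
  choose A hA1 hA2 hA3 using h
  refine ⟨⋃ p, ⋃ a ∈ A p, Prod.fst '' a.g, ?_, ?_⟩
  · exact Set.countable_iUnion fun p => (hA2 p).biUnion fun a _ => (a.fin.image _).countable
  · intro k t u hu
    obtain ⟨a, ha, hc⟩ := hA3 (k, t) u ⟨u, le_rfl, hu⟩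
    refine ⟨a, hA1 (k, t) ha, hc, fun x hx => ?_⟩
    exact Set.mem_iUnion.2 ⟨(k, t), Set.mem_biUnion ha ⟨x, hx, rfl⟩⟩

/-- an interleaved real with rows outside the support avoids a meagre set -/
theorem avoid {S : Set L} {T : ℕ → List ℕ → Set (CN L)} (hS : Supports S T) {a c : L} (hac : a ≠ c)
    (ha : a ∉ S) (hc : c ∉ S) {q : CN L} (hq : q ∈ IsMeagerCode T) : q ∉ InMeager (El a c) T := by
  intro hmem
  obtain ⟨r1, hr1, k, h1⟩ := mem_fex.1 hmem q le_rfl
  obtain ⟨r2, hr2, s, hs1, hs2⟩ := fill a c r1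
  obtain ⟨r3, hr3, t, hst, ht⟩ := mem_fex.1 (hq k s) r2 (hr2.trans hr1)
  obtain ⟨b, hb, ⟨v, hvb, hv3⟩, hbS⟩ := hS k t r3 ht
  have hst' : s <+: t := hst
  have hrow : ∀ i, row a c i ∉ S := by
    intro i
    unfold row
    split_ifs
    · exact ha
    · exact hc
  let G : Set (L × (ℕ × ℕ)) := (fun i => (row a c i, (i / 2, t.getD i 0))) '' Set.Iio t.length
  have hG : ∀ x n m, (x, (n, m)) ∈ G → (x, (n, m)) ∈ r2.g ∨
      ∀ m', (x, (n, m')) ∉ r2.g ∪ b.g := by
    rintro x n m ⟨i, hi, he⟩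
    simp only [Prod.mk.injEq] at he
    obtain ⟨rfl, rfl, rfl⟩ := he
    rcases Nat.lt_or_ge i s.length with h | h
    · left
      have h2 := hs1 i h
      have h3 : t.getD i 0 = s.getD i 0 := by
        obtain ⟨w, rfl⟩ := hst'
        rw [List.getD_append _ _ _ _ h]
      rw [h3]
      exact h2
    · right
      rintro m' (hm' | hm')
      · exact hs2 i h m' hm'
      · exact hrow i (hbS _ hm')
  have hv2 : v ≤ r2 := le_trans hv3 hr3
  have hunion : r2.g ∪ b.g ⊆ v.g := Set.union_subset hv2 hvb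
  let w : CN L := ⟨(r2.g ∪ b.g) ∪ G, (r2.fin.union b.fin).union ((Set.finite_Iio _).image _), by
    intro x n m m' hm hm'
    rcases hm with hm | hm <;> rcases hm' with hm' | hm'
    · exact v.fn _ _ _ _ (hunion hm) (hunion hm')
    · rcases hG _ _ _ hm' with h | h
      · exact v.fn _ _ _ _ (hunion hm) (hunion (Or.inl h))
      · exact absurd hm (h m)
    · rcases hG _ _ _ hm with h | h
      · exact v.fn _ _ _ _ (hunion (Or.inl h)) (hunion hm')
      · exact absurd hm' (h m')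
    · obtain ⟨i, hi, he⟩ := hm
      obtain ⟨j, hj, he'⟩ := hm'
      simp only [Prod.mk.injEq] at he he'
      have hij : i = j := row_inj hac (he.1.trans he'.1.symm) (he.2.1.trans he'.2.1.symm)
      rw [← he.2.2, ← he'.2.2, hij]⟩
  have hw2 : w ≤ r2 := Set.subset_union_left.trans Set.subset_union_left
  have hwb : w ≤ b := Set.subset_union_right.trans Set.subset_union_left
  have hwt : w ∈ InitSeg t (El a c) := mem_initSeg.2 fun i hi => Or.inr ⟨i, hi, rfl⟩
  obtain ⟨w', hw', h3⟩ := mem_fimp.1 (h1 t) w (hw2.trans hr2) hwt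
  exact hb w' (hw'.trans hwb) h3

/-- two interleaved reals with different odd rows are different -/
theorem distinct {a c a' c' : L} (h : c ≠ c') (q : CN L) : q ∈ fnot (SameReal (El a c) (El a' c')) := by
  intro r _ hr
  obtain ⟨N, hN⟩ := CN.bound r
  obtain ⟨r1, hr1, he1⟩ := CN.add r c N 0 fun m' hm' => absurd (hN _ _ _ hm') (lt_irrefl _)
  obtain ⟨r2, hr2, he2⟩ := CN.add r1 c' N 1 fun m' hm' => by
    rw [he1] at hm'
    rcases hm' with hm' | hm'
    · simp only [Prod.mk.injEq] at hm'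
      exact h hm'.1.symm
    · exact absurd (hN _ _ _ hm') (lt_irrefl _)
  have hrow : ∀ x y : L, row x y (2 * N + 1) = y := fun x y => by
    unfold row
    rw [if_neg (by omega)]
  have hdiv : (2 * N + 1) / 2 = N := by omega
  have h1 : r2 ∈ meets (El a c (2 * N + 1) 0) := meets_of_mem (by
    show (row a c (2 * N + 1), ((2 * N + 1) / 2, 0)) ∈ r2.g
    rw [hrow, hdiv]
    exact hr2 (by rw [he1]; exact Set.mem_insert _ _))
  have h2 : r2 ∈ meets (El a' c' (2 * N + 1) 1) := meets_of_mem (by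
    show (row a' c' (2 * N + 1), ((2 * N + 1) / 2, 1)) ∈ r2.g
    rw [hrow, hdiv, he2]
    exact Set.mem_insert _ _)
  have := SameReal.eq (down_SameReal _ _ _ hr _ (hr2.trans hr1)) h1 h2
  omega

/-- the code of the closed set of the reals whose even part is the generic real at `a` -/
def Plane (a : L) (_k : ℕ) (s : List ℕ) : Set (CN L) :=
  {p | ∀ i < s.length, i % 2 = 0 → (a, (i / 2, s.getD i 0)) ∈ p.g}

theorem down_Plane (a : L) (k : ℕ) (s : List ℕ) : Down (Plane a k s) :=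
  fun _ hp _ hq i hi h => hq (hp i hi h)

theorem isMeagerCode_Plane (a : L) (p : CN L) : p ∈ IsMeagerCode (Plane a) := by
  intro k s
  refine mem_fex.2 fun q _ => ?_
  have key : ∃ t0 : List ℕ, s <+: t0 ∧ t0.length % 2 = 0 := by
    rcases Nat.mod_two_eq_zero_or_one s.length with h | h
    · exact ⟨s, List.prefix_refl _, h⟩
    · exact ⟨s ++ [0], s.prefix_append _, by simp; omega⟩
  obtain ⟨t0, ht0, heven⟩ := key
  obtain ⟨r, hr, m, hm, _⟩ := CN.dec q a (t0.length / 2)
  refine ⟨r, hr, t0 ++ [m + 1], ⟨ht0.trans (t0.prefix_append _), ?_⟩⟩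
  intro r' hr' hmem
  obtain ⟨r'', hr'', h1⟩ := exists_of_meets (down_Plane a k _) hmem
  have h2 := h1 t0.length (by simp) heven
  have h3 : (t0 ++ [m + 1]).getD t0.length 0 = m + 1 := by simp
  rw [h3] at h2
  have := r''.fn _ _ _ _ h2 (hr'' (hr' hm))
  omega

theorem inMeager_Plane (a c : L) (p : CN L) : p ∈ InMeager (El a c) (Plane a) := by
  refine mem_fex_of_mem 0 (down_fall fun _ => down_fimp _ _) fun s => mem_fimp.2 fun q _ hs => ?_
  refine ⟨q, le_rfl, meets_of_mem fun i hi heven => ?_⟩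
  have h1 := mem_initSeg.1 hs i hi
  have h2 : row a c i = a := by unfold row; rw [if_pos heven]
  rwa [h2] at h1

end Q207.Coh
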