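import Mathlib
import Pool.Agent.Q207.Coh2
import Pool.Agent.Helper669.Card

set_option autoImplicit false

/-!
# Adding many Cohen reals in the Baire space: a Luzin set covered by few closed nowhere dense sets
-/

namespace Q207.Coh

open Cardinal Pool.Agent.Helper669.Forcing Pool.Agent.Helper669.K Pool.Agent.Helper669.Card

/-- In the extension there is a set of `κ` many elements of the Baire space which meets every
meagre set in a set of size less than `κ`, and which is covered by `lam` many meagre sets. -/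
def HasCoveredLuzinSet (P : Type) [Preorder P] (lam κ : Cardinal.{0}) : Set P :=
  fex fun E : κ.out → ℕ → ℕ → Set P =>
    fand (fall fun i => IsFun (E i))
      (fand (fall fun i => fall fun j => fall fun _ : i ≠ j => fnot (SameReal (E i) (E j)))
        (fand (fall fun T : ℕ → List ℕ → Set P =>
          fimp (IsMeagerCode T) (fnot (FullSize fun i => InMeager (E i) T)))
          (fex fun N : lam.out → ℕ → List ℕ → Set P =>
            fand (fall fun y => IsMeagerCode (N y))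
              (fall fun i => fex fun y => InMeager (E i) (N y)))))

theorem not_covLe {L J : Type} {κ : Cardinal.{0}} (hJ : #J = κ) (hκ : ℵ₀ < κ)
    {μ : Cardinal.{0}} (hμ : μ < κ) (ι : J → L) (hι : Function.Injective ι) (q : CN L) :
    q ∈ fnot (CovLe (CN L) μ.out) := by
  intro q1 hq1 hmem
  obtain ⟨r, hr, T, hT, hT'⟩ := mem_fex.1 hmem q1 le_rfl
  choose S hS hS' using fun y => exists_supports (T y)
  let U : Set L := ⋃ y, S y
  have hU : #U < κ := by
    calc #U ≤ Cardinal.sum fun y => #(S y) := Cardinal.mk_iUnion_le_sum_mk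
      _ ≤ Cardinal.sum fun _ : μ.out => ℵ₀ := Cardinal.sum_le_sum _ _ fun y => (hS y).le_aleph0
      _ = μ * ℵ₀ := by rw [Cardinal.sum_const', mk_out]
      _ < κ := Cardinal.mul_lt_of_lt hκ.le hμ hκ
  have hpre : #(ι ⁻¹' U) < #J := by
    rw [hJ]
    exact (mk_preimage_of_injective _ _ hι).trans_lt hU
  have hinf : Infinite J := by
    rw [Cardinal.infinite_iff, hJ]; exact hκ.le
  have hcompl : #(((ι ⁻¹' U)ᶜ : Set J)) = #J := mk_compl_of_infinite _ hpre
  obtain ⟨j, hj, j', hj', hne⟩ : ∃ j ∈ (ι ⁻¹' U)ᶜ, ∃ j' ∈ (ι ⁻¹' U)ᶜ, j ≠ j' := by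
    have h1 : 1 < #(((ι ⁻¹' U)ᶜ : Set J)) := by
      rw [hcompl, hJ]; exact one_lt_aleph0.trans hκ
    obtain ⟨⟨x, hx⟩, ⟨y, hy⟩, hne⟩ := (Cardinal.one_lt_iff_nontrivial.1 h1).exists_pair_ne
    exact ⟨x, hx, y, hy, fun h => hne (Subtype.ext h)⟩
  obtain ⟨r1, hr1, h1⟩ := mem_fimp.1 (hT' (El (ι j) (ι j'))) r le_rfl (isFun_El _ _ _)
  obtain ⟨r2, hr2, y, hy⟩ := mem_fex.1 h1 r1 le_rfl
  refine avoid (hS' y) (fun h => hne (hι h)) ?_ ?_ (down_IsMeagerCode _ _ (hT y) _ (hr2.trans hr1)) hy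
  · exact fun h => hj (Set.mem_iUnion.2 ⟨y, h⟩)
  · exact fun h => hj' (Set.mem_iUnion.2 ⟨y, h⟩)

/-- the main theorem -/
theorem main {κ : Cardinal.{0}} (hcof : κ.ord.cof = ℵ₁) (hlim : κ.IsStrongLimit) :
    ∃ (P : Type) (_ : Preorder P), Nonempty P ∧ ∀ p : P, p ∈ CardinalsPreserved.{0, 0} P ∧
      p ∈ ContinuumIs P κ ∧ p ∈ CovIs P κ ∧ p ∈ HasCoveredLuzinSet P ℵ₁ κ := by
  classical
  obtain ⟨J, _, _, hJ, hIio, hb, g, hg⟩ := exists_order hcof
  have hκ := aleph0_lt_of_cof hcof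
  have hκ1 : (ℵ₁ : Cardinal.{0}) ≤ κ := by
    rw [← hcof]; exact Ordinal.cof_ord_le κ
  have hpow : κ ^ (ℵ₀ : Cardinal.{0}) = κ := pow_aleph0_eq hlim hcof
  let L : Type := (ℵ₁ : Cardinal.{0}).out ⊕ J
  have hL : #L = κ := by
    rw [show #L = #((ℵ₁ : Cardinal.{0}).out) + #J by simp [L], mk_out, hJ]
    exact (add_eq_right hκ.le hκ1)
  have hcc : CCC (CN L) := CN.ccc
  have hC : #(CN L) ≤ κ := hL ▸ CN.mk_le (by rw [hL]; exact hκ.le)
  have hcont : ∀ p : CN L, p ∈ ContinuumLe (CN L) κ.out := fun p => continuumLe hcc hC hκ hpow p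
  have hncov : ∀ μ < κ, ∀ p : CN L, p ∈ fnot (CovLe (CN L) μ.out) := fun μ hμ p =>
    not_covLe hJ hκ hμ (Sum.inr : J → L) Sum.inr_injective p
  choose b hb' using hg
  obtain ⟨e⟩ : Nonempty (κ.out ≃ J) := Cardinal.eq.1 (by rw [mk_out, hJ])
  refine ⟨CN L, inferInstance, inferInstance, fun p => ⟨cardinalsPreserved_of_ccc hcc p,
    ⟨hcont p, fun μ hμ q hq h => hncov μ hμ q q le_rfl (covLe_of_continuumLe h)⟩,
    ⟨covLe_of_continuumLe (hcont p), fun μ hμ => hncov μ hμ p⟩, ?_⟩⟩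
  let E : κ.out → ℕ → ℕ → Set (CN L) := fun i => El (Sum.inl (b (e i))) (Sum.inr (e i))
  refine mem_fex_of_mem E ?_ ⟨fun i => isFun_El _ _ _, fun i j hij => ?_, fun T => ?_, ?_⟩
  · refine down_fand (down_fall fun _ => down_IsFun _) (down_fand (down_fall fun _ => down_fall
      fun _ => down_fall fun _ => down_fnot _) (down_fand (down_fall fun _ => down_fimp _ _)
      (down_fex _)))
  · exact distinct (fun h => hij (e.injective (Sum.inr_injective h))) p
  · refine mem_fimp.2 fun q _ hq => ⟨q, le_rfl, ?_⟩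
    obtain ⟨S, hS, hS'⟩ := exists_supports T
    obtain ⟨c, hc⟩ := hb (g '' (Sum.inl ⁻¹' S)) ((hS.preimage Sum.inl_injective).image g)
    let A : Set κ.out := e ⁻¹' (Set.Iio c ∪ (Sum.inr : J → L) ⁻¹' S)
    have hX : #κ.out = κ := mk_out κ
    refine not_fullSize hcc (by rw [hX]; exact hκ) A ?_ _ q fun i hi r hr hmem => ?_
    · rw [hX]
      refine (mk_preimage_of_injective _ _ e.injective).trans_lt ((mk_union_le _ _).trans_lt ?_)
      refine add_lt_of_lt hκ.le (hIio c) ?_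
      exact ((hS.preimage Sum.inr_injective).le_aleph0).trans_lt hκ
    · have hi' : ¬ (e i < c ∨ (Sum.inr (e i) : L) ∈ S) := hi
      push Not at hi'
      refine avoid hS' (by simp) ?_ hi'.2 (down_IsMeagerCode _ _ hq _ hr) hmem
      intro hmem'
      have h1 := hc (g (b (e i))) ⟨_, hmem', rfl⟩
      exact absurd ((hb' (e i)).trans_lt h1) (not_lt.2 hi'.1)
  · refine mem_fex_of_mem (fun y => Plane (Sum.inl y)) ?_ ⟨fun y => isMeagerCode_Plane _ _, fun i => ?_⟩
    · exact down_fand (down_fall fun _ => down_IsMeagerCode _) (down_fall fun _ => down_fex _)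
    · exact mem_fex_of_mem (b (e i)) (down_InMeager _ _) (inMeager_Plane _ _ _)

end Q207.Coh
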