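import Mathlib

open Filter Topology Finset

namespace Q207.EUMod

/-- `|A ∩ n|`, where `n = {0, …, n - 1}`. -/
noncomputable def cnt (A : Set ℕ) (n : ℕ) : ℕ := (A ∩ Set.Iio n).ncard

/-- the conditions on the weight function `h` of an Erdős–Ulam ideal -/
def IsEUWeight (h : ℕ → ℝ) : Prop :=
  (∀ i, 0 ≤ h i) ∧ Tendsto (fun n => ∑ i ∈ range n, h i) atTop atTop ∧
    Tendsto (fun n => h n / ∑ i ∈ range (n + 1), h i) atTop (𝓝 0)

/-- the Erdős–Ulam ideal of `h` -/
def EU (h : ℕ → ℝ) : Set (Set ℕ) :=
  {A | Tendsto (fun n => (∑ i ∈ range n, A.indicator h i) / ∑ i ∈ range n, h i) atTop (𝓝 0)}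

/-- The class `H`: nondecreasing `g : ω → ω` with `g n → ∞` and `n / g n` not tending to `0`. -/
def InH (g : ℕ → ℕ) : Prop :=
  Monotone g ∧ Tendsto g atTop atTop ∧
    ¬ Tendsto (fun n : ℕ => (n : ℝ) / (g n : ℝ)) atTop (𝓝 0)

/-- the simple density ideal of `g` -/
def Zd (g : ℕ → ℕ) : Set (Set ℕ) :=
  {A | Tendsto (fun n : ℕ => (cnt A n : ℝ) / (g n : ℝ)) atTop (𝓝 0)}

/-- Modulus functions on `[0, ∞)`: zero exactly at zero, subadditive, nondecreasing,
continuous at `0`. -/
structure IsModulus (f : NNReal → NNReal) : Prop where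
  zero_iff : ∀ x, f x = 0 ↔ x = 0
  subadd : ∀ x y, f (x + y) ≤ f x + f y
  mono : Monotone f
  cont : ContinuousAt f 0

/-- the ideal `Z_g(f)` -/
def Zf (g : ℕ → ℕ) (f : NNReal → NNReal) : Set (Set ℕ) :=
  {A | Tendsto (fun n : ℕ => (f (cnt A n : NNReal) : ℝ) / (f (g n : NNReal) : ℝ)) atTop (𝓝 0)}

theorem cnt_le (A : Set ℕ) (n : ℕ) : cnt A n ≤ n := by
  unfold cnt
  calc (A ∩ Set.Iio n).ncard ≤ (Set.Iio n).ncard :=
        Set.ncard_le_ncard Set.inter_subset_right (Set.finite_Iio n)
    _ = n := by
        rw [Set.ncard_eq_toFinset_card']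
        simp

/-! ### the averaging set -/

/-- Given block lengths `L k → ∞`, there is a set in `EU h` with at least `k` elements below
`∑ i < k, L i`. -/
theorem exists_sparse {h : ℕ → ℝ} (hh : IsEUWeight h) {L : ℕ → ℕ} (hpos : ∀ k, 1 ≤ L k)
    (hL : Tendsto L atTop atTop) :
    ∃ B ∈ EU h, ∀ k n, ∑ i ∈ range k, L i ≤ n → k ≤ cnt B n := by
  obtain ⟨h0, h1, h2⟩ := hh
  let e : ℕ → ℕ := fun k => ∑ i ∈ range k, L i
  have he0 : e 0 = 0 := by simp [e]
  have hes : ∀ k, e (k + 1) = e k + L k := fun k => Finset.sum_range_succ _ _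
  have hemono : StrictMono e := by
    apply strictMono_nat_of_lt_succ
    intro n
    rw [hes]
    have := hpos n
    omega
  -- partial sums
  let H : ℕ → ℝ := fun n => ∑ i ∈ range n, h i
  have hHmono : Monotone H := by
    apply monotone_nat_of_le_succ
    intro n
    show ∑ i ∈ range n, h i ≤ ∑ i ∈ range (n + 1), h i
    rw [Finset.sum_range_succ]
    linarith [h0 n]
  have hblock : ∀ k, ∃ b, e k ≤ b ∧ b < e (k + 1) ∧ h b * L k ≤ H (e (k + 1)) - H (e k) := by
    intro k
    have hne : (Finset.Ico (e k) (e (k + 1))).Nonempty := by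
      rw [Finset.nonempty_Ico]
      exact hemono (Nat.lt_succ_self k)
    obtain ⟨b, hb, hmin⟩ := Finset.exists_min_image _ h hne
    rw [Finset.mem_Ico] at hb
    refine ⟨b, hb.1, hb.2, ?_⟩
    have h3 : H (e (k + 1)) - H (e k) = ∑ i ∈ Finset.Ico (e k) (e (k + 1)), h i := by
      rw [Finset.sum_Ico_eq_sub _ (hemono.monotone (Nat.le_succ k))]
    rw [h3]
    have h4 : (Finset.Ico (e k) (e (k + 1))).card • h b ≤
        ∑ i ∈ Finset.Ico (e k) (e (k + 1)), h i := Finset.card_nsmul_le_sum _ _ _ hmin
    rw [Nat.card_Ico, hes, nsmul_eq_mul] at h4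
    have h5 : e k + L k - e k = L k := by omega
    rw [h5] at h4
    rw [hes]
    linarith
  choose b hb1 hb2 hb3 using hblock
  have hbmono : StrictMono b := by
    apply strictMono_nat_of_lt_succ
    intro n
    exact lt_of_lt_of_le (hb2 n) (hb1 (n + 1))
  -- sums over the range of `b`
  have hsum : ∀ k n, n ≤ b k → ∑ i ∈ range n, (Set.range b).indicator h i ≤
      ∑ i ∈ range k, h (b i) := by
    intro k n hn
    classical
    have h3 : ∑ i ∈ range n, (Set.range b).indicator h i =
        ∑ i ∈ (range n).filter (fun i => i ∈ Set.range b), h i := by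
      rw [Finset.sum_filter]
      apply Finset.sum_congr rfl
      intro i _
      simp only [Set.indicator_apply]
    have h4 : (range n).filter (fun i => i ∈ Set.range b) ⊆ (range k).image b := by
      intro i hi
      rw [Finset.mem_filter, Finset.mem_range] at hi
      obtain ⟨hi1, j, rfl⟩ := hi
      rw [Finset.mem_image]
      refine ⟨j, ?_, rfl⟩
      rw [Finset.mem_range]
      exact hbmono.lt_iff_lt.1 (lt_of_lt_of_le hi1 hn)
    rw [h3]
    calc _ ≤ ∑ i ∈ (range k).image b, h i :=
          Finset.sum_le_sum_of_subset_of_nonneg h4 (fun i _ _ => h0 i)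
      _ = _ := Finset.sum_image (fun i _ j _ hij => hbmono.injective hij)
  refine ⟨Set.range b, ?_, ?_⟩
  · show Tendsto _ _ _
    rw [Metric.tendsto_atTop]
    intro ε hε
    -- choose `k0`
    obtain ⟨k0, hk0⟩ : ∃ k0, ∀ k ≥ k0, (4 / ε) ≤ L k := by
      have := (tendsto_natCast_atTop_atTop (R := ℝ)).comp hL
      exact (tendsto_atTop.1 this (4 / ε)).exists_forall_of_atTop
    obtain ⟨n1, hn1⟩ : ∃ n1, ∀ n ≥ n1, h n / ∑ i ∈ range (n + 1), h i < ε / 4 := by
      have := (tendsto_order.1 h2).2 (ε / 4) (by linarith)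
      exact this.exists_forall_of_atTop
    obtain ⟨n2, hn2⟩ : ∃ n2, ∀ n ≥ n2, H (e k0 + n1) * (4 / ε) + 1 ≤ H n :=
      (tendsto_atTop.1 h1 (H (e k0 + n1) * (4 / ε) + 1)).exists_forall_of_atTop
    refine ⟨n2 + e k0, ?_⟩
    intro n hn
    have hH0 : 0 ≤ H (e k0 + n1) := Finset.sum_nonneg (fun i _ => h0 i)
    have hHn : 0 < H n := by
      have := hn2 n (by omega)
      have h5 : 0 ≤ H (e k0 + n1) * (4 / ε) := by positivity
      linarith
    have hnn : 0 ≤ ∑ i ∈ range n, (Set.range b).indicator h i :=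
      Finset.sum_nonneg (fun i _ => Set.indicator_nonneg (fun i _ => h0 i) i)
    rw [Real.dist_eq, sub_zero, abs_of_nonneg (div_nonneg hnn hHn.le), div_lt_iff₀ hHn]
    -- locate `n`
    obtain ⟨k, hk1, hk2⟩ : ∃ k, e k ≤ n ∧ n < e (k + 1) := by
      have hex : ∃ m, n < e m := ⟨n + 1, lt_of_lt_of_le (Nat.lt_succ_self n) hemono.le_apply⟩
      classical
      have hfs := Nat.find_spec hex
      have hne : Nat.find hex ≠ 0 := by
        intro h3
        rw [h3, he0] at hfs
        omega
      obtain ⟨k, hk⟩ := Nat.exists_eq_succ_of_ne_zero hne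
      refine ⟨k, ?_, ?_⟩
      · have := Nat.find_min hex (m := k) (by omega)
        omega
      · rw [hk] at hfs
        exact hfs
    have hk0k : k0 ≤ k := by
      by_contra hcon
      push Not at hcon
      have := hemono.monotone (show k + 1 ≤ k0 by omega)
      omega
    -- the bound for the full blocks
    have hfull : ∀ k ≥ k0, ∑ i ∈ range k, h (b i) ≤ H (e k0) + (ε / 4) * H (e k) := by
      intro k hk
      induction k, hk using Nat.le_induction with
      | base =>
        have h5 : ∑ i ∈ range k0, h (b i) ≤ H (e k0) := by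
          calc ∑ i ∈ range k0, h (b i) = ∑ i ∈ (range k0).image b, h i :=
                (Finset.sum_image (fun i _ j _ hij => hbmono.injective hij)).symm
            _ ≤ H (e k0) := by
                apply Finset.sum_le_sum_of_subset_of_nonneg
                · intro i hi
                  rw [Finset.mem_image] at hi
                  obtain ⟨j, hj, rfl⟩ := hi
                  rw [Finset.mem_range] at hj ⊢
                  exact lt_of_lt_of_le (hb2 j) (hemono.monotone hj)
                · exact fun i _ _ => h0 i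
        have h6 : 0 ≤ (ε / 4) * H (e k0) :=
          mul_nonneg (by linarith) (Finset.sum_nonneg (fun i _ => h0 i))
        linarith
      | succ k hk ih =>
        rw [Finset.sum_range_succ]
        have h5 := hb3 k
        have h6 := hk0 k hk
        have h7 : h (b k) ≤ (ε / 4) * (H (e (k + 1)) - H (e k)) := by
          have h8 : h (b k) * (4 / ε) ≤ h (b k) * L k := mul_le_mul_of_nonneg_left h6 (h0 _)
          have h9 : h (b k) * (4 / ε) ≤ H (e (k + 1)) - H (e k) := h8.trans h5
          have h10 : h (b k) = (ε / 4) * (h (b k) * (4 / ε)) := by field_simp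
          rw [h10]
          exact mul_le_mul_of_nonneg_left h9 (by linarith)
        linarith
    have hlast : ∑ i ∈ range n, (Set.range b).indicator h i ≤
        H (e k0 + n1) + (ε / 4) * H n + (ε / 4) * H n := by
      have hA : H (e k0) ≤ H (e k0 + n1) := hHmono (by omega)
      have hB' : H (e k) ≤ H n := hHmono hk1
      have hB : (ε / 4) * H (e k) ≤ (ε / 4) * H n := mul_le_mul_of_nonneg_left hB' (by linarith)
      have hC : 0 ≤ (ε / 4) * H n := mul_nonneg (by linarith) hHn.le
      rcases le_or_gt n (b k) with h5 | h5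
      · have h6 := hsum k n h5
        have h7 := hfull k hk0k
        linarith
      · have h6 := hsum (k + 1) n (le_trans hk2.le (hb1 (k + 1)))
        rw [Finset.sum_range_succ] at h6
        have h7 := hfull k hk0k
        rcases le_or_gt n1 (b k) with h8 | h8
        · have h9 := hn1 (b k) h8
          have h10 : 0 ≤ H (b k + 1) := Finset.sum_nonneg (fun i _ => h0 i)
          have h11 : H (b k + 1) ≤ H n := hHmono h5
          have h12 : h (b k) ≤ (ε / 4) * H n := by
            rcases h10.eq_or_lt with h13 | h13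
            · have h14 : h (b k) ≤ H (b k + 1) := by
                apply Finset.single_le_sum (f := h) (fun i _ => h0 i)
                exact Finset.mem_range.2 (Nat.lt_succ_self _)
              rw [← h13] at h14
              linarith
            · have h15 : h (b k) < (ε / 4) * H (b k + 1) := (div_lt_iff₀ h13).1 h9
              have h16 : (ε / 4) * H (b k + 1) ≤ (ε / 4) * H n :=
                mul_le_mul_of_nonneg_left h11 (by linarith)
              linarith
          linarith
        · -- `b k < n1`: everything is inside the initial part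
          have h9 : ∑ i ∈ range n, (Set.range b).indicator h i ≤ H (e k0) + (ε / 4) * H (e k) +
              h (b k) := by linarith
          have h10 : H (e k0) + h (b k) ≤ H (e k0 + n1) := by
            rcases lt_or_ge (b k) (e k0) with h13 | h13
            · exfalso
              have := hemono.monotone hk0k
              have := hb1 k
              omega
            · have h14 : H (e k0) ≤ H (b k) := hHmono h13
              have h15 : H (b k + 1) ≤ H (e k0 + n1) := hHmono (by omega)
              have h16 : H (b k + 1) = H (b k) + h (b k) := Finset.sum_range_succ _ _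
              linarith
          linarith
    have hfin := hn2 n (by omega)
    have h17 : H (e k0 + n1) < (ε / 4) * H n := by
      have h18 : H (e k0 + n1) * (4 / ε) < H n := by linarith
      have h19 : H (e k0 + n1) = (ε / 4) * (H (e k0 + n1) * (4 / ε)) := by field_simp
      rw [h19]
      exact mul_lt_mul_of_pos_left h18 (by linarith)
    have h20 : 0 < ε * H n := mul_pos hε hHn
    linarith
  · intro k n hn
    have h3 : b '' (Set.Iio k) ⊆ Set.range b ∩ Set.Iio n := by
      rintro _ ⟨i, hi, rfl⟩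
      refine ⟨⟨i, rfl⟩, ?_⟩
      show b i < n
      have h4 : b i < e (i + 1) := hb2 i
      have h5 : e (i + 1) ≤ e k := hemono.monotone hi
      have h6 : e k ≤ n := hn
      omega
    unfold cnt
    calc k = (Set.Iio k).ncard := by
          rw [Set.ncard_eq_toFinset_card']
          simp
      _ = (b '' (Set.Iio k)).ncard := (Set.ncard_image_of_injective _ hbmono.injective).symm
      _ ≤ _ := Set.ncard_le_ncard h3 ((Set.finite_Iio n).subset Set.inter_subset_right)

/-! ### modulus functions on the naturals -/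

/-- what we use of a modulus function: its values on the naturals -/
structure Md (F : ℕ → ℝ) : Prop where
  zero : F 0 = 0
  pos : ∀ n, 0 < n → 0 < F n
  mono : Monotone F
  sub : ∀ m n, F (m + n) ≤ F m + F n
  top : Tendsto F atTop atTop

variable {F : ℕ → ℝ}

theorem Md.nonneg (hF : Md F) (n : ℕ) : 0 ≤ F n := by
  rcases Nat.eq_zero_or_pos n with h | h
  · rw [h, hF.zero]
  · exact (hF.pos n h).le

theorem Md.mul_le (hF : Md F) (k m : ℕ) : F (k * m) ≤ k * F m := by
  induction k with
  | zero => simp [hF.zero]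
  | succ k ih =>
    rw [Nat.succ_mul]
    have := hF.sub (k * m) m
    push_cast
    linarith

theorem Md.ratio (hF : Md F) {x n : ℕ} (h1 : 1 ≤ x) (h2 : x ≤ n) :
    (x : ℝ) * F n ≤ 2 * n * F x := by
  have h3 : n ≤ (n / x + 1) * x := by
    have := Nat.div_add_mod n x
    have h4 := Nat.mod_lt n (show 0 < x by omega)
    nlinarith
  have h4 : F n ≤ ((n / x + 1 : ℕ) : ℝ) * F x := (hF.mono h3).trans (hF.mul_le _ _)
  have h5 : (x : ℝ) * ((n / x + 1 : ℕ) : ℝ) ≤ 2 * n := by
    have h6 : x * (n / x + 1) ≤ 2 * n := by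
      have := Nat.mul_div_le n x
      nlinarith
    exact_mod_cast h6
  have hx0 : (0 : ℝ) ≤ x := Nat.cast_nonneg x
  calc (x : ℝ) * F n ≤ x * (((n / x + 1 : ℕ) : ℝ) * F x) := mul_le_mul_of_nonneg_left h4 hx0
    _ = (x * ((n / x + 1 : ℕ) : ℝ)) * F x := by ring
    _ ≤ 2 * n * F x := mul_le_mul_of_nonneg_right h5 (hF.nonneg x)

/-- the auxiliary function `s n = n F(g n) / F n` -/
noncomputable def sf (F : ℕ → ℝ) (g : ℕ → ℕ) (n : ℕ) : ℝ := n * F (g n) / F n

/-- the new function `g'` -/
noncomputable def gp (F : ℕ → ℝ) (g : ℕ → ℕ) (n : ℕ) : ℕ :=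
  (range (n + 1)).sup fun m => ⌈sf F g m⌉₊

theorem gp_mono (F : ℕ → ℝ) (g : ℕ → ℕ) : Monotone (gp F g) := by
  intro m n h
  apply Finset.sup_mono
  intro i hi
  rw [Finset.mem_range] at hi ⊢
  omega

theorem sf_le_gp (F : ℕ → ℝ) (g : ℕ → ℕ) (n : ℕ) : sf F g n ≤ gp F g n := by
  have h1 : ⌈sf F g n⌉₊ ≤ gp F g n := by
    unfold gp
    exact Finset.le_sup (f := fun m => ⌈sf F g m⌉₊) (Finset.mem_range.2 (Nat.lt_succ_self n))
  exact (Nat.le_ceil _).trans (by exact_mod_cast h1)

theorem Md.sf_almost_mono (hF : Md F) {g : ℕ → ℕ} (hg : Monotone g) {m n : ℕ} (h : m ≤ n) :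
    sf F g m ≤ 2 * sf F g n := by
  rcases Nat.eq_zero_or_pos m with h0 | h0
  · subst h0
    have h1 : 0 ≤ sf F g n := by
      unfold sf
      exact div_nonneg (mul_nonneg (Nat.cast_nonneg _) (hF.nonneg _)) (hF.nonneg _)
    have h2 : sf F g 0 = 0 := by simp [sf]
    rw [h2]
    linarith
  · unfold sf
    have hm := hF.pos m h0
    have hn := hF.pos n (by omega)
    have h1 : F (g m) ≤ F (g n) := hF.mono (hg h)
    have h2 := hF.ratio h0 h
    have h3 := hF.nonneg (g n)
    rw [div_le_iff₀ hm]
    have h4 : 2 * (n * F (g n) / F n) * F m = (2 * n * F m) * F (g n) / F n := by ring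
    rw [h4, le_div_iff₀ hn]
    calc (m : ℝ) * F (g m) * F n ≤ m * F (g n) * F n := by
          apply mul_le_mul_of_nonneg_right _ hn.le
          exact mul_le_mul_of_nonneg_left h1 (Nat.cast_nonneg _)
      _ = (m * F n) * F (g n) := by ring
      _ ≤ (2 * n * F m) * F (g n) := mul_le_mul_of_nonneg_right h2 h3

theorem Md.gp_le (hF : Md F) {g : ℕ → ℕ} (hg : Monotone g) (n : ℕ) :
    (gp F g n : ℝ) ≤ 2 * sf F g n + 1 := by
  have hnn : 0 ≤ sf F g n := by
    unfold sf
    exact div_nonneg (mul_nonneg (Nat.cast_nonneg _) (hF.nonneg _)) (hF.nonneg _)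
  have h1 : gp F g n ≤ ⌈2 * sf F g n⌉₊ := by
    unfold gp
    apply Finset.sup_le
    intro m hm
    apply Nat.ceil_mono
    apply hF.sf_almost_mono hg
    rw [Finset.mem_range] at hm
    omega
  have h2 : (⌈2 * sf F g n⌉₊ : ℝ) < 2 * sf F g n + 1 := Nat.ceil_lt_add_one (by linarith)
  have h3 : (gp F g n : ℝ) ≤ (⌈2 * sf F g n⌉₊ : ℝ) := by exact_mod_cast h1
  linarith

theorem Md.gp_inH (hF : Md F) {g : ℕ → ℕ} (hg : InH g) : InH (gp F g) := by
  refine ⟨gp_mono F g, ?_, ?_⟩
  · rw [← tendsto_natCast_atTop_iff (R := ℝ)]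
    have h1 : Tendsto (fun n => F (g n) / F 1) atTop atTop :=
      (hF.top.comp hg.2.1).atTop_div_const (hF.pos 1 one_pos)
    refine tendsto_atTop_mono' _ ?_ h1
    filter_upwards [eventually_gt_atTop 0] with n hn
    refine le_trans ?_ (sf_le_gp F g n)
    unfold sf
    rw [div_le_div_iff₀ (hF.pos 1 one_pos) (hF.pos n hn)]
    have h2 := hF.mul_le n 1
    rw [mul_one] at h2
    calc F (g n) * F n ≤ F (g n) * (n * F 1) := mul_le_mul_of_nonneg_left h2 (hF.nonneg _)
      _ = n * F (g n) * F 1 := by ring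
  · intro hcon
    apply hg.2.2
    rw [Metric.tendsto_atTop]
    intro ε hε
    -- otherwise `g n ≤ n / ε` frequently
    obtain ⟨C, hC⟩ : ∃ C : ℕ, 1 / ε ≤ C := ⟨⌈1 / ε⌉₊, Nat.le_ceil _⟩
    have h1 := (tendsto_order.1 hcon).2 (1 / (2 * C + 1)) (by positivity)
    obtain ⟨N, hN⟩ := h1.exists_forall_of_atTop
    refine ⟨N + 1, ?_⟩
    intro n hn
    rw [Real.dist_eq, sub_zero, abs_of_nonneg (by positivity)]
    by_contra hcon2
    push Not at hcon2
    have hgpos : 0 < (g n : ℝ) := by
      by_contra h0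
      have h00 : (g n : ℝ) = 0 := le_antisymm (not_lt.1 h0) (Nat.cast_nonneg _)
      rw [h00, div_zero] at hcon2
      linarith
    have h2 : (g n : ℝ) ≤ (C * n : ℕ) := by
      rw [le_div_iff₀ hgpos] at hcon2
      push_cast
      calc (g n : ℝ) = (1 / ε) * (ε * g n) := by field_simp
        _ ≤ (1 / ε) * n := mul_le_mul_of_nonneg_left hcon2 (by positivity)
        _ ≤ C * n := mul_le_mul_of_nonneg_right hC (Nat.cast_nonneg _)
    have h2' : g n ≤ C * n := by exact_mod_cast h2
    have h3 : F (g n) ≤ C * F n := (hF.mono h2').trans (hF.mul_le _ _)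
    have hFn := hF.pos n (by omega)
    have h4 : sf F g n ≤ C * n := by
      unfold sf
      rw [div_le_iff₀ hFn]
      calc (n : ℝ) * F (g n) ≤ n * (C * F n) := mul_le_mul_of_nonneg_left h3 (Nat.cast_nonneg _)
        _ = C * n * F n := by ring
    have h5 := hF.gp_le hg.1 n
    have hn1 : (1 : ℝ) ≤ n := by exact_mod_cast (show 1 ≤ n by omega)
    have h6 : (gp F g n : ℝ) ≤ (2 * C + 1) * n := by linarith
    have h7 := hN n (by omega)
    rcases (Nat.cast_nonneg (α := ℝ) (gp F g n)).eq_or_lt with h8 | h8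
    · -- `gp = 0` contradicts `sf > 0`
      have h9 := sf_le_gp F g n
      rw [← h8] at h9
      have h10 : 0 < sf F g n := by
        unfold sf
        have hgn : 0 < g n := by exact_mod_cast hgpos
        have := hF.pos (g n) hgn
        positivity
      linarith
    · rw [div_lt_iff₀ h8] at h7
      have h8' : (1 : ℝ) / (2 * C + 1) * (gp F g n) ≤ 1 / (2 * C + 1) * ((2 * C + 1) * n) :=
        mul_le_mul_of_nonneg_left h6 (by positivity)
      have h9 : (1 : ℝ) / (2 * C + 1) * ((2 * C + 1) * n) = n := by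
        field_simp
      linarith

/-- The key theorem, in terms of the values of the modulus on the naturals. -/
theorem Md.key (hF : Md F) {g : ℕ → ℕ} (hg : InH g) {h : ℕ → ℝ} (hh : IsEUWeight h)
    (hEq : ∀ A, A ∈ EU h ↔ Tendsto (fun n => F (cnt A n) / F (g n)) atTop (𝓝 0)) :
    EU h = Zd (gp F g) := by
  have hgpH := hF.gp_inH hg
  have hgpos : ∀ᶠ n in atTop, 0 < g n := hg.2.1.eventually_gt_atTop 0
  ext A
  constructor
  · intro hA
    have h1 := (hEq A).1 hA
    show Tendsto _ _ _
    have h2 : Tendsto (fun n => 2 * (F (cnt A n) / F (g n))) atTop (𝓝 0) := by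
      simpa using h1.const_mul 2
    refine tendsto_of_tendsto_of_tendsto_of_le_of_le' tendsto_const_nhds h2 ?_ ?_
    · exact Eventually.of_forall (fun n => by positivity)
    · filter_upwards [hgpos, hgpH.2.1.eventually_gt_atTop 0, eventually_gt_atTop 0]
        with n hn hn' hn0
      have hgp : (0 : ℝ) < gp F g n := by exact_mod_cast hn'
      rw [div_le_iff₀ hgp]
      rcases Nat.eq_zero_or_pos (cnt A n) with h0 | h0
      · rw [h0, hF.zero]; simp
      · have h3 := hF.ratio h0 (cnt_le A n)
        have hFn := hF.pos n hn0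
        have hFg := hF.pos (g n) hn
        have h4 : (cnt A n : ℝ) ≤ 2 * n * F (cnt A n) / F n := by
          rw [le_div_iff₀ hFn]; exact h3
        have h5 : 2 * n * F (cnt A n) / F n = 2 * (F (cnt A n) / F (g n)) * sf F g n := by
          unfold sf
          field_simp
        rw [h5] at h4
        have h6 : 0 ≤ 2 * (F (cnt A n) / F (g n)) :=
          mul_nonneg (by norm_num) (div_nonneg (hF.nonneg _) hFg.le)
        exact h4.trans (mul_le_mul_of_nonneg_left (sf_le_gp F g n) h6)
  · intro hA
    by_contra hcon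
    rw [hEq] at hcon
    have hA' : Tendsto (fun n : ℕ => (cnt A n : ℝ) / (gp F g n : ℝ)) atTop (𝓝 0) := hA
    obtain ⟨c, hc, hfreq⟩ : ∃ c > 0, ∀ N : ℕ, ∃ n ≥ N, c ≤ F (cnt A n) / F (g n) := by
      by_contra hno
      push Not at hno
      apply hcon
      rw [Metric.tendsto_atTop]
      intro ε hε
      obtain ⟨N, hN⟩ := hno ε hε
      refine ⟨N, fun n hn => ?_⟩
      rw [Real.dist_eq, sub_zero, abs_of_nonneg (div_nonneg (hF.nonneg _) (hF.nonneg _))]
      exact hN n hn
    obtain ⟨n3, hn3⟩ := hgpos.exists_forall_of_atTop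
    let S : Set ℕ := {n | n3 ≤ n ∧ 0 < n ∧ c * F (g n) ≤ F (cnt A n)}
    have hSinf : ∀ N : ℕ, ∃ n ∈ S, N ≤ n := by
      intro N
      obtain ⟨n, hn, hcn⟩ := hfreq (N + n3 + 1)
      refine ⟨n, ⟨by omega, by omega, ?_⟩, by omega⟩
      rwa [le_div_iff₀ (hF.pos _ (hn3 n (by omega)))] at hcn
    have hSpos : ∀ n ∈ S, 0 < cnt A n := by
      rintro n ⟨h1, h2, h3⟩
      by_contra h0
      have h00 : cnt A n = 0 := by omega
      rw [h00, hF.zero] at h3
      have := hF.pos _ (hn3 n h1)
      have := mul_pos hc this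
      linarith
    -- `cnt A n / n → 0` on `S`
    have hSsmall : ∀ M : ℕ, ∃ n0, ∀ n ∈ S, n0 ≤ n → M * cnt A n ≤ n := by
      intro M
      have h1 := (tendsto_order.1 hA').2 (1 / ((M + 1) * (2 / c + 1))) (by positivity)
      obtain ⟨n0, hn0⟩ := h1.exists_forall_of_atTop
      refine ⟨n0, ?_⟩
      rintro n ⟨h2, h3, h4⟩ h5
      have h6 := hn0 n h5
      have hFn := hF.pos n h3
      have h7 : sf F g n ≤ n / c := by
        unfold sf
        rw [div_le_div_iff₀ hFn hc]
        have h8 : F (cnt A n) ≤ F n := hF.mono (cnt_le A n)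
        calc (n : ℝ) * F (g n) * c = n * (c * F (g n)) := by ring
          _ ≤ n * F n := mul_le_mul_of_nonneg_left (h4.trans h8) (Nat.cast_nonneg _)
      have h8 := hF.gp_le hg.1 n
      have hn1 : (1 : ℝ) ≤ n := by exact_mod_cast h3
      have h9 : (gp F g n : ℝ) ≤ (2 / c + 1) * n := by
        have : 2 * (n / c) + 1 ≤ (2 / c + 1) * n := by
          have h10 : 2 * ((n : ℝ) / c) = (2 / c) * n := by ring
          rw [h10]; linarith
        linarith
      have h10 : (cnt A n : ℝ) ≤ 1 / ((M + 1) * (2 / c + 1)) * gp F g n := by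
        rcases (Nat.cast_nonneg (α := ℝ) (gp F g n)).eq_or_lt with h11 | h11
        · exfalso
          have h12 := sf_le_gp F g n
          rw [← h11] at h12
          have h13 : 0 < sf F g n := by
            unfold sf
            have := hF.pos (g n) (hn3 n h2)
            positivity
          linarith
        · rw [div_lt_iff₀ h11] at h6
          exact h6.le
      have h11 : (cnt A n : ℝ) ≤ 1 / ((M + 1) * (2 / c + 1)) * ((2 / c + 1) * n) :=
        h10.trans (mul_le_mul_of_nonneg_left h9 (by positivity))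
      have h12 : 1 / (((M : ℝ) + 1) * (2 / c + 1)) * ((2 / c + 1) * n) = n / (M + 1) := by
        have : (2 / c + 1) ≠ 0 := by positivity
        field_simp
      rw [h12, le_div_iff₀ (by positivity)] at h11
      have h13 : cnt A n * (M + 1) ≤ n := by exact_mod_cast h11
      nlinarith
    have hSbig : ∀ k : ℕ, ∃ n ∈ S, k < cnt A n := by
      intro k
      have h1 : Tendsto (fun n => c * F (g n)) atTop atTop :=
        (hF.top.comp hg.2.1).const_mul_atTop hc
      obtain ⟨n0, hn0⟩ := (h1.eventually_gt_atTop (F k)).exists_forall_of_atTop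
      obtain ⟨n, hn, hn'⟩ := hSinf n0
      refine ⟨n, hn, ?_⟩
      by_contra h2
      push Not at h2
      have h3 := hF.mono h2
      have h4 := hn0 n hn'
      have h5 := hn.2.2
      linarith
    -- block lengths
    let L : ℕ → ℕ := fun k => sInf {q | ∃ n ∈ S, k < cnt A n ∧ q = n / cnt A n}
    have hLmem : ∀ k, ∃ n ∈ S, k < cnt A n ∧ L k = n / cnt A n := by
      intro k
      have hne : {q | ∃ n ∈ S, k < cnt A n ∧ q = n / cnt A n}.Nonempty := by
        obtain ⟨n, hn, hk⟩ := hSbig k
        exact ⟨_, n, hn, hk, rfl⟩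
      exact Nat.sInf_mem hne
    have hLle : ∀ k, ∀ n ∈ S, k < cnt A n → L k ≤ n / cnt A n := fun k n hn hk =>
      Nat.sInf_le ⟨n, hn, hk, rfl⟩
    have hLpos : ∀ k, 1 ≤ L k := by
      intro k
      obtain ⟨n, hn, hk, he⟩ := hLmem k
      rw [he]
      exact (Nat.one_le_div_iff (hSpos n hn)).2 (cnt_le A n)
    have hLtop : Tendsto L atTop atTop := by
      rw [tendsto_atTop]
      intro M
      obtain ⟨n0, hn0⟩ := hSsmall M
      filter_upwards [eventually_ge_atTop n0] with k hk
      obtain ⟨n, hn, hk', he⟩ := hLmem k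
      rw [he, Nat.le_div_iff_mul_le (hSpos n hn)]
      apply hn0 n hn
      have := cnt_le A n
      omega
    obtain ⟨B, hB, hBk⟩ := exists_sparse hh hLpos hLtop
    have h1 := (tendsto_order.1 ((hEq B).1 hB)).2 c hc
    obtain ⟨n4, hn4⟩ := h1.exists_forall_of_atTop
    obtain ⟨n, hn, hn'⟩ := hSinf n4
    have h2 := hn4 n hn'
    have h3 : cnt A n ≤ cnt B n := by
      apply hBk
      calc ∑ i ∈ range (cnt A n), L i ≤ ∑ _i ∈ range (cnt A n), n / cnt A n :=
            Finset.sum_le_sum (fun i hi => hLle i n hn (Finset.mem_range.1 hi))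
        _ = cnt A n * (n / cnt A n) := by rw [Finset.sum_const, Finset.card_range, smul_eq_mul]
        _ ≤ n := Nat.mul_div_le _ _
    rw [div_lt_iff₀ (hF.pos _ (hn3 n hn.1))] at h2
    have h4 := hF.mono h3
    have h5 := hn.2.2
    linarith

/-- the values of an unbounded modulus function on the naturals -/
theorem md_of_modulus {f : NNReal → NNReal} (hf : IsModulus f) (hub : ¬ BddAbove (Set.range f)) :
    Md (fun n : ℕ => (f (n : NNReal) : ℝ)) where
  zero := by
    have := (hf.zero_iff 0).2 rfl
    simp [this]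
  pos := by
    intro n hn
    have h1 : f (n : NNReal) ≠ 0 := by
      intro h
      have h2 := (hf.zero_iff _).1 h
      have h3 : n = 0 := by exact_mod_cast h2
      omega
    have h2 : 0 < f (n : NNReal) := pos_iff_ne_zero.2 h1
    exact_mod_cast h2
  mono := by
    intro m n h
    have h1 : (m : NNReal) ≤ n := by exact_mod_cast h
    have h2 := hf.mono h1
    exact_mod_cast h2
  sub := by
    intro m n
    have h1 := hf.subadd (m : NNReal) n
    push_cast
    exact_mod_cast h1
  top := by
    rw [tendsto_atTop]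
    intro b
    have h1 : ∃ x, b < (f x : ℝ) := by
      by_contra hcon
      push Not at hcon
      apply hub
      refine ⟨b.toNNReal, ?_⟩
      rintro _ ⟨x, rfl⟩
      exact NNReal.coe_le_coe.1 ((hcon x).trans (Real.le_coe_toNNReal b))
    obtain ⟨x, hx⟩ := h1
    obtain ⟨N, hN⟩ := exists_nat_ge x
    filter_upwards [eventually_ge_atTop N] with n hn
    have h2 : x ≤ (n : NNReal) := hN.trans (by exact_mod_cast hn)
    have h3 := hf.mono h2
    have h4 : (f x : ℝ) ≤ f (n : NNReal) := by exact_mod_cast h3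
    linarith

end Q207.EUMod
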