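import Mathlib

set_option autoImplicit false

/-!
# Entangled sets when the continuum is a limit cardinal: tools
-/

namespace Q207.Ent

open Cardinal Set

/-- strict comparison of two lists, coordinate by coordinate, with directions given by the third
list -/
def SL : List ℝ → List ℝ → List Bool → Prop
  | [], [], [] => True
  | x :: xs, y :: ys, b :: bs => (if b then x < y else y < x) ∧ SL xs ys bs
  | _, _, _ => False

theorem sl_map {ι : Type} (x y : ι → ℝ) (t : ι → Bool) (is : List ι) :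
    SL (is.map x) (is.map y) (is.map t) ↔ ∀ i ∈ is, if t i then x i < y i else y i < x i := by
  induction is with
  | nil => simp [SL]
  | cons i is ih => simp [SL, ih]

/-- a set of lists without two strictly comparable members is covered by countably many
functions of the tails -/
theorem exists_functions (bs : List Bool) : ∀ C : Set (List ℝ), (∀ l ∈ C, l.length = bs.length) →
    (∀ l ∈ C, ∀ l' ∈ C, ¬ SL l l' bs) →
    ∃ Φ : Set (List ℝ → ℝ), Φ.Countable ∧ ∀ l ∈ C, ∃ f ∈ Φ, ∃ u z v, l = u ++ z :: v ∧ z = f v := by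
  induction bs with
  | nil =>
    intro C hlen hanti
    refine ⟨∅, countable_empty, fun l hl => ?_⟩
    have h0 : l = [] := List.eq_nil_of_length_eq_zero (by simpa using hlen l hl)
    subst h0
    exact absurd trivial (hanti [] hl [] hl)
  | cons b bs ih =>
    intro C hlen hanti
    classical
    let D : ℚ → Set (List ℝ) := fun q =>
      {v | (∃ z : ℝ, z < q ∧ z :: v ∈ C) ∧ ∃ z : ℝ, (q : ℝ) < z ∧ z :: v ∈ C}
    have hD : ∀ q, ∃ Φ : Set (List ℝ → ℝ), Φ.Countable ∧
        ∀ l ∈ D q, ∃ f ∈ Φ, ∃ u z v, l = u ++ z :: v ∧ z = f v := by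
      intro q
      apply ih
      · rintro v ⟨⟨z, _, hz⟩, _⟩
        simpa using hlen _ hz
      · rintro v ⟨⟨z1, h1, hz1⟩, ⟨z2, h2, hz2⟩⟩ v' ⟨⟨z1', h1', hz1'⟩, ⟨z2', h2', hz2'⟩⟩ hs
        cases b with
        | true => exact hanti _ hz1 _ hz2' ⟨by simpa using h1.trans h2', hs⟩
        | false => exact hanti _ hz2 _ hz1' ⟨by simpa using h1'.trans h2, hs⟩
    choose Φ hΦc hΦ using hD
    let u : List ℝ → ℝ := fun v => if h : ∃ z, z :: v ∈ C then h.choose else 0
    refine ⟨insert u (⋃ q, Φ q), (countable_iUnion hΦc).insert u, fun l hl => ?_⟩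
    cases l with
    | nil => simpa using hlen _ hl
    | cons z v =>
      by_cases hz : z = u v
      · exact ⟨u, mem_insert _ _, [], z, v, rfl, hz⟩
      · have hex : ∃ z, z :: v ∈ C := ⟨z, hl⟩
        have hu : u v :: v ∈ C := by
          simp only [u, dif_pos hex]
          exact hex.choose_spec
        have hv : ∃ q, v ∈ D q := by
          rcases lt_or_gt_of_ne hz with h | h
          · obtain ⟨q, hq1, hq2⟩ := exists_rat_btwn h
            exact ⟨q, ⟨z, hq1, hl⟩, ⟨u v, hq2, hu⟩⟩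
          · obtain ⟨q, hq1, hq2⟩ := exists_rat_btwn h
            exact ⟨q, ⟨u v, hq1, hu⟩, ⟨z, hq2, hl⟩⟩
        obtain ⟨q, hq⟩ := hv
        obtain ⟨f, hf, u', z', v', hl', hz'⟩ := hΦ q v hq
        exact ⟨f, mem_insert_of_mem _ (mem_iUnion.2 ⟨q, hf⟩), z :: u', z', v', by simp [hl'], hz'⟩

/-- closure of a set of reals under a set of functions of finite lists -/
inductive Cl (Φ : Set (List ℝ → ℝ)) (A : Set ℝ) : ℝ → Prop
  | base (x : ℝ) (h : x ∈ A) : Cl Φ A x
  | app (f : List ℝ → ℝ) (hf : f ∈ Φ) (l : List ℝ) (h : ∀ x ∈ l, Cl Φ A x) : Cl Φ A (f l)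

theorem Cl.trans {Φ : Set (List ℝ → ℝ)} {A B : Set ℝ} (h : ∀ x ∈ A, Cl Φ B x) {x : ℝ}
    (hx : Cl Φ A x) : Cl Φ B x := by
  induction hx with
  | base x hx => exact h x hx
  | app f hf l _ ih => exact Cl.app f hf l ih

theorem Cl.mono {Φ : Set (List ℝ → ℝ)} {A B : Set ℝ} (h : A ⊆ B) {x : ℝ}
    (hx : Cl Φ A x) : Cl Φ B x := hx.trans fun y hy => Cl.base y (h hy)

theorem mk_cl_le (Φ : Set (List ℝ → ℝ)) (A : Set ℝ) (μ : Cardinal.{0}) (hμ : ℵ₀ ≤ μ)
    (hΦ : #Φ ≤ μ) (hA : #A ≤ μ) : #{x | Cl Φ A x} ≤ μ := by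
  let S : ℕ → Set ℝ := fun n => Nat.rec A
    (fun _ T => T ∪ (fun p : (List ℝ → ℝ) × List ℝ => p.1 p.2) '' (Φ ×ˢ {l | ∀ x ∈ l, x ∈ T})) n
  have hS0 : S 0 = A := rfl
  have hS1 : ∀ n, S (n + 1) = S n ∪
      (fun p : (List ℝ → ℝ) × List ℝ => p.1 p.2) '' (Φ ×ˢ {l | ∀ x ∈ l, x ∈ S n}) := fun n => rfl
  have hlist : ∀ T : Set ℝ, #T ≤ μ → #{l : List ℝ | ∀ x ∈ l, x ∈ T} ≤ μ := by
    intro T hT
    have h1 : {l : List ℝ | ∀ x ∈ l, x ∈ T} = range (fun l : List T => l.map Subtype.val) := by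
      ext l
      simp only [mem_ofPred_eq, mem_range]
      constructor
      · intro h
        refine ⟨l.pmap Subtype.mk h, ?_⟩
        simp [List.map_pmap]
      · rintro ⟨l', rfl⟩ x hx
        obtain ⟨y, _, rfl⟩ := List.mem_map.1 hx
        exact y.2
    rw [h1]
    refine mk_range_le.trans ?_
    refine (mk_list_le_max T).trans (max_le hμ hT)
  have hcard : ∀ n, #(↥(S n)) ≤ μ := by
    intro n
    induction n with
    | zero => rw [hS0]; exact hA
    | succ n ih =>
      rw [hS1]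
      refine (mk_union_le _ _).trans ?_
      refine (add_le_add ih (mk_image_le.trans ?_)).trans (add_eq_self hμ).le
      rw [(Equiv.Set.prod _ _).cardinal_eq, mk_prod]
      simp only [lift_id]
      exact (mul_le_mul' hΦ (hlist _ ih)).trans (mul_eq_self hμ).le
  have hmono : Monotone S := monotone_nat_of_le_succ fun n => by
    rw [hS1]; exact subset_union_left
  have hsub : {x | Cl Φ A x} ⊆ ⋃ n, S n := by
    intro x hx
    induction hx with
    | base x hx => exact mem_iUnion.2 ⟨0, hx⟩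
    | app f hf l _ ih =>
      have : ∃ n, ∀ x ∈ l, x ∈ S n := by
        clear hf
        induction l with
        | nil => exact ⟨0, by simp⟩
        | cons a l ihl =>
          obtain ⟨n, hn⟩ := ihl (fun x hx => by
            exact (by assumption : ∀ x ∈ a :: l, Cl Φ A x) x (List.mem_cons_of_mem _ hx))
            (fun x hx => ih x (List.mem_cons_of_mem _ hx))
          obtain ⟨m, hm⟩ := mem_iUnion.1 (ih a (List.mem_cons_self))
          refine ⟨max n m, fun x hx => ?_⟩
          rcases List.mem_cons.1 hx with rfl | hx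
          · exact hmono (le_max_right _ _) hm
          · exact hmono (le_max_left _ _) (hn x hx)
      obtain ⟨n, hn⟩ := this
      refine mem_iUnion.2 ⟨n + 1, ?_⟩
      rw [hS1]
      exact Or.inr ⟨(f, l), ⟨hf, hn⟩, rfl⟩
  refine (mk_le_mk_of_subset hsub).trans ((mk_iUnion_le _).trans ?_)
  refine (mul_le_mul' (mk_nat.le.trans hμ) (ciSup_le' hcard)).trans (mul_eq_self hμ).le

/-- the function used to code sums -/
def sumNeg : List ℝ → ℝ := fun l => -l.sum

/-- mutually independent reals over a small set, when the continuum is a limit cardinal -/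
theorem exists_independent (hlim : ∀ μ < (𝔠 : Cardinal.{0}), Order.succ μ < 𝔠) (n : ℕ) :
    ∀ (μ : Cardinal.{0}) (_ : ℵ₀ ≤ μ) (_ : μ < 𝔠) (Φ : Set (List ℝ → ℝ)) (A : Set ℝ)
      (_ : #Φ ≤ μ) (_ : #A ≤ μ),
      ∃ c : Fin n → ℝ, ∀ l, ¬ Cl Φ (A ∪ {x | ∃ i, i ≠ l ∧ c i = x}) (c l) := by
  induction n with
  | zero => intro μ _ _ Φ A _ _; exact ⟨Fin.elim0, fun l => l.elim0⟩
  | succ n ih =>
    intro μ h0 h1 Φ A hΦ hA
    obtain ⟨A₁, hA₁⟩ : ∃ A₁ : Set ℝ, #A₁ = Order.succ μ := by
      rw [← Cardinal.le_mk_iff_exists_set, Cardinal.mk_real]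
      exact (hlim μ h1).le
    have hA' : #(A ∪ A₁ : Set ℝ) ≤ Order.succ μ := by
      refine (mk_union_le _ _).trans ?_
      rw [hA₁]
      exact (add_le_add (hA.trans (Order.le_succ μ)) le_rfl).trans
        (add_eq_self (h0.trans (Order.le_succ μ))).le
    obtain ⟨c', hc'⟩ := ih (Order.succ μ) (h0.trans (Order.le_succ μ)) (hlim μ h1) Φ (A ∪ A₁)
      (hΦ.trans (Order.le_succ μ)) hA'
    have hB : #(A ∪ range c' : Set ℝ) ≤ μ := by
      refine (mk_union_le _ _).trans ?_
      refine (add_le_add hA ?_).trans (add_eq_self h0).le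
      exact ((finite_range c').lt_aleph0.le).trans h0
    have hcl := mk_cl_le Φ (A ∪ range c') μ h0 hΦ hB
    obtain ⟨x, hx, hxn⟩ : ∃ x ∈ A₁, ¬ Cl Φ (A ∪ range c') x := by
      by_contra hcon
      push Not at hcon
      have : #A₁ ≤ #{x | Cl Φ (A ∪ range c') x} := mk_le_mk_of_subset fun x hx => hcon x hx
      rw [hA₁] at this
      exact absurd (this.trans hcl) (not_le.2 (Order.lt_succ μ))
    refine ⟨Fin.cons x c', fun l => ?_⟩
    refine Fin.cases ?_ (fun l => ?_) l
    · intro h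
      rw [Fin.cons_zero] at h
      refine hxn (h.mono ?_)
      rintro y (hy | ⟨i, hi, rfl⟩)
      · exact Or.inl hy
      · obtain ⟨j, rfl⟩ := Fin.exists_succ_eq.2 hi
        exact Or.inr ⟨j, by rw [Fin.cons_succ]⟩
    · intro h
      rw [Fin.cons_succ] at h
      refine hc' l (h.mono ?_)
      rintro y (hy | ⟨i, hi, rfl⟩)
      · exact Or.inl (Or.inl hy)
      · refine Fin.cases ?_ (fun j => ?_) i hi
        · intro _; rw [Fin.cons_zero]; exact Or.inl (Or.inr hx)
        · intro hj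
          rw [Fin.cons_succ]
          exact Or.inr ⟨j, fun he => hj (by rw [he]), rfl⟩

end Q207.Ent
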