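import Pool.Agent.Q207.Ent

set_option autoImplicit false

/-!
# Entangled sets when the continuum is a limit cardinal: the construction
-/

namespace Q207.Ent

open Cardinal Set

/-- recursion along a well-order with a property -/
theorem exists_rec {W X : Type} [LinearOrder W] [WellFoundedLT W]
    (P : ∀ ξ : W, (∀ η : W, η < ξ → X) → X → Prop) (h : ∀ ξ f, ∃ x, P ξ f x) :
    ∃ c : W → X, ∀ ξ, P ξ (fun η _ => c η) (c ξ) := by
  classical
  let F : ∀ ξ : W, (∀ η : W, η < ξ → X) → X := fun ξ f => (h ξ f).choose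
  refine ⟨(wellFounded_lt (α := W)).fix F, fun ξ => ?_⟩
  rw [WellFounded.fix_eq]
  exact (h ξ _).choose_spec

variable {n : ℕ}

/-- countably many functions attached to a set of tuples -/
theorem exists_psi (C : Set (Fin n → ℝ)) : ∃ Ψ : Set (List ℝ → ℝ), Ψ.Countable ∧
    ∀ (is : List (Fin n)) (t : Fin n → Bool),
      (∀ x ∈ C, ∀ y ∈ C, ¬ SL (is.map x) (is.map y) (is.map t)) →
      ∀ x ∈ C, ∃ f ∈ Ψ, ∃ u i v, is = u ++ i :: v ∧ x i = f (v.map x) := by
  classical
  have h : ∀ p : List (Fin n) × (Fin n → Bool), ∃ Φ : Set (List ℝ → ℝ), Φ.Countable ∧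
      ((∀ x ∈ C, ∀ y ∈ C, ¬ SL (p.1.map x) (p.1.map y) (p.1.map p.2)) →
        ∀ x ∈ C, ∃ f ∈ Φ, ∃ u z v, p.1.map x = u ++ z :: v ∧ z = f v) := by
    rintro ⟨is, t⟩
    by_cases ha : ∀ x ∈ C, ∀ y ∈ C, ¬ SL (is.map x) (is.map y) (is.map t)
    · obtain ⟨Φ, h1, h2⟩ := exists_functions (is.map t) ((fun x => is.map x) '' C)
        (by rintro _ ⟨x, _, rfl⟩; simp)
        (by rintro _ ⟨x, hx, rfl⟩ _ ⟨y, hy, rfl⟩; exact ha x hx y hy)
      exact ⟨Φ, h1, fun _ x hx => h2 _ ⟨x, hx, rfl⟩⟩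
    · exact ⟨∅, countable_empty, fun h => absurd h ha⟩
  choose Φ hΦ1 hΦ2 using h
  refine ⟨⋃ p, Φ p, countable_iUnion hΦ1, fun is t ha x hx => ?_⟩
  obtain ⟨f, hf, u, z, v, h1, h2⟩ := hΦ2 (is, t) ha x hx
  rw [List.map_eq_append_iff] at h1
  obtain ⟨u', w, h3, h4, h5⟩ := h1
  rw [List.map_eq_cons_iff] at h5
  obtain ⟨i, v', h6, h7, h8⟩ := h5
  refine ⟨f, mem_iUnion.2 ⟨_, hf⟩, u', i, v', (show is = u' ++ w from h3).trans (by rw [h6]), ?_⟩
  rw [h7, h8]; exact h2

/-- the elements of a block: the entries of `c` and minus their sum -/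
noncomputable def el (c : Fin n → ℝ) : Fin (n + 1) → ℝ := Fin.snoc (α := fun _ => ℝ) c (-∑ j, c j)

theorem el_castSucc (c : Fin n → ℝ) (i : Fin n) : el c i.castSucc = c i := by
  simp [el]

theorem el_last (c : Fin n → ℝ) : el c (Fin.last n) = -∑ j, c j := by
  simp [el]

/-- the index set: a well-order of the type of the continuum -/
abbrev W : Type := (𝔠 : Cardinal.{0}).ord.ToType

theorem mk_W : #W = 𝔠 := mk_ord_toType _

theorem mk_Iio_W (ξ : W) : #(Iio ξ) < 𝔠 := by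
  have := mk_Iio_lt (α := W) ξ (by simp)
  rwa [mk_W] at this

theorem mk_Iic_W (ξ : W) : #(Iic ξ) < 𝔠 := by
  have h1 : Iic ξ = insert ξ (Iio ξ) := by
    ext x; simp [le_iff_lt_or_eq, or_comm]
  rw [h1]
  refine (mk_insert_le).trans_lt ?_
  exact add_lt_of_lt aleph0_lt_continuum.le (mk_Iio_W ξ) (one_lt_aleph0.trans aleph0_lt_continuum)

/-- the construction -/
theorem exists_sequence (hlim : ∀ μ < (𝔠 : Cardinal.{0}), Order.succ μ < 𝔠) (n : ℕ)
    (Ψ : W → Set (List ℝ → ℝ)) (hΨ : ∀ α, (Ψ α).Countable) :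
    ∃ c : W → Fin n → ℝ, ∀ ξ l,
      ¬ Cl (insert sumNeg (⋃ α ∈ Iic ξ, Ψ α))
        ({x | ∃ η, η < ξ ∧ ∃ i, c η i = x} ∪ {x | ∃ i, i ≠ l ∧ c ξ i = x}) (c ξ l) := by
  refine exists_rec (W := W) (X := Fin n → ℝ) (fun ξ f x => ∀ l,
    ¬ Cl (insert sumNeg (⋃ α ∈ Iic ξ, Ψ α))
        ({x | ∃ η, ∃ h : η < ξ, ∃ i, f η h i = x} ∪ {y | ∃ i, i ≠ l ∧ x i = y}) (x l)) ?_ |>.imp ?_
  · intro ξ f
    have h1 := mk_Iio_W ξ
    have h2 := mk_Iic_W ξ
    refine exists_independent hlim n (max (max #(Iic ξ) #(Iio ξ)) ℵ₀) (le_max_right _ _)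
      (max_lt (max_lt h2 h1) aleph0_lt_continuum) _ _ ?_ ?_
    · refine (mk_insert_le).trans ?_
      refine (add_le_add (mk_biUnion_le _ _) le_rfl).trans ?_
      set μ : Cardinal.{0} := max (max #(Iic ξ) #(Iio ξ)) ℵ₀ with hμ
      have hμ0 : ℵ₀ ≤ μ := le_max_right _ _
      have hsup : (⨆ x : Iic ξ, #(Ψ x.1)) ≤ μ :=
        ciSup_le' fun x => (hΨ x.1).le_aleph0.trans hμ0
      have hIic : #(Iic ξ) ≤ μ := (le_max_left _ _).trans (le_max_left _ _)
      refine (add_le_add (mul_le_mul' hIic hsup) (one_le_aleph0.trans hμ0)).trans ?_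
      rw [mul_eq_self hμ0, add_eq_self hμ0]
    · have h3 : {x | ∃ η, ∃ h : η < ξ, ∃ i, f η h i = x} =
          range (fun p : Iio ξ × Fin n => f p.1.1 p.1.2 p.2) := by
        ext x
        simp only [mem_ofPred_eq, mem_range, Prod.exists, Subtype.exists, mem_Iio]
      rw [h3]
      refine mk_range_le.trans ?_
      rw [mk_prod, lift_id, lift_id]
      set μ : Cardinal.{0} := max (max #(Iic ξ) #(Iio ξ)) ℵ₀ with hμ
      have hμ0 : ℵ₀ ≤ μ := le_max_right _ _
      have hIio : #(Iio ξ) ≤ μ := (le_max_right _ _).trans (le_max_left _ _)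
      refine (mul_le_mul' hIio ((mk_le_aleph0 (α := Fin n)).trans hμ0)).trans ?_
      exact (mul_eq_self hμ0).le
  · intro c hc ξ l h
    refine hc ξ l (h.mono ?_)
    rintro x (⟨η, h1, i, h2⟩ | hx)
    · exact Or.inl ⟨η, h1, i, h2⟩
    · exact Or.inr hx

/-- the strict comparison of tuples -/
def Strict (t : Fin n → Bool) (x y : Fin n → ℝ) : Prop :=
  ∀ i, if t i then x i < y i else y i < x i

section

variable (Ψ : W → Set (List ℝ → ℝ)) (c : W → Fin n → ℝ)

/-- the functions available at stage `ξ` -/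
def Fn (ξ : W) : Set (List ℝ → ℝ) := insert sumNeg (⋃ α ∈ Iic ξ, Ψ α)

/-- the property of the sequence -/
def Indep : Prop := ∀ ξ l, ¬ Cl (Fn Ψ ξ)
  ({x | ∃ η, η < ξ ∧ ∃ i, c η i = x} ∪ {x | ∃ i, i ≠ l ∧ c ξ i = x}) (c ξ l)

/-- the element with a given key -/
noncomputable def elt (p : W × Fin (n + 1)) : ℝ := el (c p.1) p.2

/-- the order of the keys -/
def KLt (p q : W × Fin (n + 1)) : Prop := p.1 < q.1 ∨ (p.1 = q.1 ∧ p.2 < q.2)

variable {Ψ c}

theorem cl_elt_of_lt {ξ η : W} (h : η < ξ) (i : Fin (n + 1)) (B : Set ℝ) :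
    Cl (Fn Ψ ξ) ({x | ∃ η, η < ξ ∧ ∃ i, c η i = x} ∪ B) (elt c (η, i)) := by
  refine Fin.lastCases ?_ (fun i => ?_) i
  · have h1 : elt c (η, Fin.last n) = sumNeg (List.ofFn (c η)) := by
      rw [elt, el_last, sumNeg, List.sum_ofFn]
    rw [h1]
    refine Cl.app _ (mem_insert _ _) _ fun x hx => ?_
    rw [List.mem_ofFn] at hx
    obtain ⟨i, rfl⟩ := hx
    exact Cl.base _ (Or.inl ⟨η, h, i, rfl⟩)
  · rw [elt, el_castSucc]
    exact Cl.base _ (Or.inl ⟨η, h, i, rfl⟩)

/-- the main property: an element is not in the closure of few elements with smaller keys -/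
theorem not_cl (hc : Indep Ψ c) (p : W × Fin (n + 1)) (K : List (W × Fin (n + 1)))
    (hK : ∀ q ∈ K, KLt q p) (hlen : K.length < n) :
    ¬ Cl (Fn Ψ p.1) {x | ∃ q ∈ K, elt c q = x} (elt c p) := by
  classical
  obtain ⟨ξ, i⟩ := p
  intro h
  -- find an index that is not used
  have key : ∃ l : Fin n, (i = l.castSucc ∨ i = Fin.last n) ∧
      ∀ q ∈ K, q.1 = ξ → q.2 ≠ l.castSucc := by
    rcases Fin.eq_castSucc_or_eq_last i with ⟨j, rfl⟩ | rfl
    swap
    · by_contra hcon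
      push Not at hcon
      have h1 : ∀ l : Fin n, (ξ, l.castSucc) ∈ K := by
        intro l
        obtain ⟨q, hq, h2, h3⟩ := hcon l (Or.inr rfl)
        have : q = (ξ, l.castSucc) := Prod.ext h2 h3
        rwa [← this]
      have h2 : (Finset.univ.image fun l : Fin n => ((ξ, l.castSucc) : W × Fin (n + 1))) ⊆
          K.toFinset := by
        intro q hq
        obtain ⟨l, _, rfl⟩ := Finset.mem_image.1 hq
        exact List.mem_toFinset.2 (h1 l)
      have h3 := Finset.card_le_card h2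
      rw [Finset.card_image_of_injective _ (by
        intro a b hab
        simpa using hab), Finset.card_univ, Fintype.card_fin] at h3
      exact absurd (h3.trans (List.toFinset_card_le K)) (not_le.2 hlen)
    · refine ⟨j, Or.inl rfl, fun q hq h1 h2 => ?_⟩
      rcases hK q hq with h3 | h3
      · exact absurd h1 h3.ne
      · exact absurd h2 h3.2.ne
  obtain ⟨l, hl, hKl⟩ := key
  have h1 : Cl (Fn Ψ ξ) ({x | ∃ η, η < ξ ∧ ∃ i, c η i = x} ∪ {x | ∃ i, i ≠ l ∧ c ξ i = x})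
      (elt c (ξ, i)) := by
    refine h.trans ?_
    rintro x ⟨⟨η, j⟩, hq, rfl⟩
    rcases hK _ hq with h2 | ⟨h2, h3⟩
    · exact cl_elt_of_lt h2 j _
    · obtain rfl : η = ξ := h2
      have h4 := hKl _ hq rfl
      have h5 : j ≠ Fin.last n := fun he => by
        have h6 : j < i := h3
        exact absurd (h6.trans_le (Fin.le_last i)) (by rw [he]; exact lt_irrefl _)
      obtain ⟨j', rfl⟩ := Fin.exists_castSucc_eq.2 h5
      rw [elt, el_castSucc]
      exact Cl.base _ (Or.inr ⟨j', fun he => h4 (by rw [he]), rfl⟩)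
  rcases hl with rfl | rfl
  · rw [elt, el_castSucc] at h1
    exact hc ξ l h1
  · refine hc ξ l ?_
    have h2 : c ξ l = sumNeg (elt c (ξ, Fin.last n) :: ((Finset.univ.erase l).toList.map (c ξ))) := by
      rw [sumNeg, List.sum_cons, Finset.sum_map_toList, elt, el_last,
        ← Finset.add_sum_erase _ _ (Finset.mem_univ l)]
      ring
    rw [h2]
    refine Cl.app _ (mem_insert _ _) _ fun x hx => ?_
    rcases List.mem_cons.1 hx with rfl | hx
    · exact h1
    · obtain ⟨i, hi, rfl⟩ := List.mem_map.1 hx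
      rw [Finset.mem_toList, Finset.mem_erase] at hi
      exact Cl.base _ (Or.inr ⟨i, hi.1, rfl⟩)

theorem elt_ne (hn : 1 < n) (hc : Indep Ψ c) {p q : W × Fin (n + 1)} (h : KLt q p) :
    elt c p ≠ elt c q := by
  intro he
  refine not_cl hc p [q] (by simpa using h) (by simpa using hn) ?_
  rw [he]
  exact Cl.base _ ⟨q, by simp, rfl⟩

theorem klt_total {p q : W × Fin (n + 1)} (h : p ≠ q) : KLt p q ∨ KLt q p := by
  rcases lt_trichotomy p.1 q.1 with h1 | h1 | h1
  · exact Or.inl (Or.inl h1)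
  · rcases lt_trichotomy p.2 q.2 with h2 | h2 | h2
    · exact Or.inl (Or.inr ⟨h1, h2⟩)
    · exact absurd (Prod.ext h1 h2) h
    · exact Or.inr (Or.inr ⟨h1.symm, h2⟩)
  · exact Or.inr (Or.inl h1)

theorem elt_injective (hn : 1 < n) (hc : Indep Ψ c) : Function.Injective (elt c) := by
  intro p q h
  by_contra hne
  rcases klt_total hne with h1 | h1
  · exact elt_ne hn hc h1 h.symm
  · exact elt_ne hn hc h1 h

/-- a tuple of elements with late keys is in no set without strictly comparable members -/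
theorem not_mem_of_late (hc : Indep Ψ c) (α : W) (C : Set (Fin n → ℝ)) (t : Fin n → Bool)
    (hC : ∀ x ∈ C, ∀ y ∈ C, ¬ Strict t x y)
    (hΨ : ∀ (is : List (Fin n)) (t : Fin n → Bool),
      (∀ x ∈ C, ∀ y ∈ C, ¬ SL (is.map x) (is.map y) (is.map t)) →
      ∀ x ∈ C, ∃ f ∈ Ψ α, ∃ u i v, is = u ++ i :: v ∧ x i = f (v.map x))
    (k : Fin n → W × Fin (n + 1)) (hk : Function.Injective k) (hα : ∀ i, α ≤ (k i).1) :
    (fun i => elt c (k i)) ∉ C := by
  classical
  intro hmem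
  let r : Fin n → Fin n → Prop := fun i j => KLt (k j) (k i) ∨ i = j
  have htrans : ∀ {p q s : W × Fin (n + 1)}, KLt p q → KLt q s → KLt p s := by
    rintro p q s (h1 | ⟨h1, h2⟩) (h3 | ⟨h3, h4⟩)
    · exact Or.inl (h1.trans h3)
    · exact Or.inl (h3 ▸ h1)
    · exact Or.inl (h1 ▸ h3)
    · exact Or.inr ⟨h1.trans h3, h2.trans h4⟩
  have htot : Std.Total r := ⟨fun i j => by
    by_cases h : i = j
    · exact Or.inl (Or.inr h)
    · rcases klt_total (fun he => h (hk he) : k i ≠ k j) with h1 | h1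
      · exact Or.inr (Or.inl h1)
      · exact Or.inl (Or.inl h1)⟩
  have htr : IsTrans (Fin n) r := ⟨fun i j l h1 h2 => by
    rcases h1 with h1 | rfl
    · rcases h2 with h2 | rfl
      · exact Or.inl (htrans h2 h1)
      · exact Or.inl h1
    · exact h2⟩
  let is := List.insertionSort r (List.finRange n)
  have hsort : is.Pairwise r := List.pairwise_insertionSort _ _
  have hperm : is.Perm (List.finRange n) := List.perm_insertionSort _ _
  have hnodup : is.Nodup := hperm.nodup_iff.2 (List.nodup_finRange n)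
  have hlen : is.length = n := by rw [hperm.length_eq, List.length_finRange]
  obtain ⟨f, hf, u, i, v, h1, h2⟩ := hΨ is t (by
    intro x hx y hy hs
    rw [sl_map] at hs
    exact hC x hx y hy fun i => hs i (hperm.mem_iff.2 (List.mem_finRange i))) _ hmem
  rw [h1] at hsort hnodup hlen
  have h3 : ∀ j ∈ v, KLt (k j) (k i) := by
    intro j hj
    have h4 := (List.pairwise_cons.1 (List.pairwise_append.1 hsort).2.1).1 j hj
    rcases h4 with h4 | rfl
    · exact h4
    · exact absurd hj (List.nodup_cons.1 (List.nodup_append.1 hnodup).2.1).1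
  refine not_cl hc (k i) (v.map k) ?_ ?_ ?_
  · intro q hq
    obtain ⟨j, hj, rfl⟩ := List.mem_map.1 hq
    exact h3 j hj
  · rw [List.length_map]
    rw [List.length_append, List.length_cons] at hlen
    omega
  · have h4 : elt c (k i) = f (v.map fun i => elt c (k i)) := h2
    rw [h4]
    refine Cl.app f (mem_insert_of_mem _ (mem_iUnion₂.2 ⟨α, hα i, hf⟩)) _ fun x hx => ?_
    obtain ⟨j, hj, rfl⟩ := List.mem_map.1 hx
    exact Cl.base _ ⟨k j, List.mem_map.2 ⟨j, hj, rfl⟩, rfl⟩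

end

end Q207.Ent
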