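import Pool.Agent.Q207.Ent2

set_option autoImplicit false

/-!
# Entangled sets when the continuum is a limit cardinal: the theorem
-/

namespace Q207.Ent

open Cardinal Set

/-- two tuples share no entry -/
def Disj {n : ℕ} (a b : Fin n → ℝ) : Prop := ∀ i j, a i ≠ b j

/-- the type of the pair `(a, b)` is `t` -/
def HasType {n : ℕ} (t : Fin n → Fin 2) (a b : Fin n → ℝ) : Prop := ∀ i, t i = 0 ↔ a i < b i

/-- `E` is `(κ, n)`-entangled -/
def IsEntangled (κ : Cardinal.{0}) (n : ℕ) (E : Set ℝ) : Prop :=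
  ∀ F : Set (Fin n → ℝ), #F = κ → (∀ a ∈ F, Function.Injective a ∧ ∀ i, a i ∈ E) →
    (∀ a ∈ F, ∀ b ∈ F, a ≠ b → Disj a b) →
    ∀ t : Fin n → Fin 2, ∃ a ∈ F, ∃ b ∈ F, a ≠ b ∧ HasType t a b

theorem main (hlim : ∀ μ < (𝔠 : Cardinal.{0}), Order.succ μ < 𝔠) (n : ℕ) (hn : 1 < n) :
    ∃ E : Set ℝ, IsEntangled 𝔠 n E ∧ ¬ IsEntangled 𝔠 (n + 1) E := by
  classical
  have hn0 : 0 < n := by omega
  obtain ⟨g, hg⟩ : ∃ g : W → (ℕ → Fin n → ℝ), Function.Surjective g := by
    have h1 : #(ℕ → Fin n → ℝ) ≤ #W := by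
      rw [mk_W]
      simp only [mk_pi, prod_const, lift_id, mk_real, mk_fin, mk_nat]
      calc ((𝔠 : Cardinal.{0}) ^ (n : Cardinal.{0})) ^ (ℵ₀ : Cardinal.{0})
          ≤ (𝔠 ^ (ℵ₀ : Cardinal.{0})) ^ (ℵ₀ : Cardinal.{0}) :=
            power_le_power_right (power_le_power_left continuum_ne_zero (natCast_le_aleph0))
        _ = 𝔠 := by rw [continuum_power_aleph0, continuum_power_aleph0]
    obtain ⟨e⟩ := h1
    have : Nonempty (ℕ → Fin n → ℝ) := ⟨fun _ _ => 0⟩
    exact ⟨Function.invFun e, Function.invFun_surjective e.injective⟩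
  let C : W → Set (Fin n → ℝ) := fun α => closure (range (g α))
  choose Ψ hΨc hΨ using fun α => exists_psi (C α)
  obtain ⟨c, hc⟩ := exists_sequence hlim n Ψ hΨc
  have hc' : Indep Ψ c := hc
  have hinj := elt_injective hn hc'
  refine ⟨range (elt c), ?_, ?_⟩
  · intro F hF hFE hdis t
    by_contra hcon
    push Not at hcon
    have hne : Nonempty F := by
      rw [← mk_ne_zero_iff, hF]; exact continuum_ne_zero
    let s : ℕ → Fin n → ℝ := fun m => (TopologicalSpace.denseSeq F m).1
    have hsF : ∀ m, s m ∈ F := fun m => (TopologicalSpace.denseSeq F m).2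
    have hclos : F ⊆ closure (range s) := by
      intro a ha
      have h1 : (⟨a, ha⟩ : F) ∈ closure (range (TopologicalSpace.denseSeq F)) :=
        TopologicalSpace.denseRange_denseSeq F _
      have h2 := image_closure_subset_closure_image (continuous_subtype_val (p := fun x => x ∈ F))
        ⟨_, h1, rfl⟩
      rw [← range_comp] at h2
      exact h2
    obtain ⟨α, hα⟩ := hg s
    have hCα : C α = closure (range s) := by simp only [C, hα]
    let t' : Fin n → Bool := fun i => decide (t i = 0)
    have hanti : ∀ x ∈ C α, ∀ y ∈ C α, ¬ Strict t' x y := by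
      intro x hx y hy hs
      have hopen : IsOpen {p : (Fin n → ℝ) × (Fin n → ℝ) | Strict t' p.1 p.2} := by
        have h1 : {p : (Fin n → ℝ) × (Fin n → ℝ) | Strict t' p.1 p.2} =
            ⋂ i, {p : (Fin n → ℝ) × (Fin n → ℝ) | if t' i then p.1 i < p.2 i else p.2 i < p.1 i} := by
          ext p; simp [Strict]
        rw [h1]
        refine isOpen_iInter_of_finite fun i => ?_
        by_cases h : t' i = true
        · simp only [h, if_true]
          exact isOpen_lt ((continuous_apply i).comp continuous_fst)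
            ((continuous_apply i).comp continuous_snd)
        · simp only [h]
          exact isOpen_lt ((continuous_apply i).comp continuous_snd)
            ((continuous_apply i).comp continuous_fst)
      have hmem : (x, y) ∈ closure (range s ×ˢ range s) := by
        rw [closure_prod_eq]; rw [hCα] at hx hy; exact ⟨hx, hy⟩
      obtain ⟨⟨x', y'⟩, hst, ⟨⟨a, rfl⟩, ⟨b, rfl⟩⟩⟩ := mem_closure_iff.1 hmem _ hopen hs
      have h0 := hst ⟨0, hn0⟩
      refine hcon (s a) (hsF a) (s b) (hsF b) ?_ ?_
      · intro he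
        rw [he] at h0
        split_ifs at h0 <;> exact lt_irrefl _ h0
      · intro i
        have h1 := hst i
        by_cases h : t i = 0
        · have h2 : t' i = true := by simp [t', h]
          simp only [h2, if_true] at h1
          exact ⟨fun _ => h1, fun _ => h⟩
        · have h2 : t' i = false := by simp [t', h]
          simp only [h2] at h1
          refine ⟨fun h3 => absurd h3 h, fun h3 => absurd h3 ?_⟩
          exact not_lt.2 (le_of_lt (by simpa using h1))
    let B : Set ℝ := (elt c) '' (Iio α ×ˢ Set.univ)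
    have hB : #B < 𝔠 := by
      refine mk_image_le.trans_lt ?_
      rw [(Equiv.Set.prod _ _).cardinal_eq, mk_prod, lift_id, lift_id]
      refine mul_lt_of_lt aleph0_lt_continuum.le (mk_Iio_W α) ?_
      exact (mk_le_aleph0 (α := (Set.univ : Set (Fin (n + 1))))).trans_lt aleph0_lt_continuum
    obtain ⟨a, haF, haB⟩ : ∃ a ∈ F, ∀ i, a i ∉ B := by
      by_contra hcon2
      push Not at hcon2
      choose i hi using hcon2
      have : #F ≤ #B := by
        refine mk_le_of_injective (f := fun a : F => (⟨a.1 (i a.1 a.2), hi a.1 a.2⟩ : B)) ?_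
        intro a b hab
        by_contra hne
        have h1 : a.1 (i a.1 a.2) = b.1 (i b.1 b.2) := congrArg Subtype.val hab
        exact hdis a.1 a.2 b.1 b.2 (fun h => hne (Subtype.ext h)) _ _ h1
      rw [hF] at this
      exact absurd this (not_le.2 hB)
    choose k hk using (hFE a haF).2
    refine not_mem_of_late hc' α (C α) t' hanti (hΨ α) k ?_ ?_ ?_
    · intro i j hij
      apply (hFE a haF).1
      rw [← hk i, ← hk j, hij]
    · intro i
      by_contra hlt
      exact haB i ⟨k i, ⟨lt_of_not_ge hlt, Set.mem_univ _⟩, hk i⟩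
    · have h1 : (fun i => elt c (k i)) = a := funext hk
      rw [h1, hCα]
      exact hclos haF
  · intro hent
    let G : W → Fin (n + 1) → ℝ := fun ξ j => elt c (ξ, j)
    have hG : Function.Injective G := by
      intro ξ η h
      have h1 := hinj (congrFun h 0)
      exact (Prod.ext_iff.1 h1).1
    obtain ⟨a, ⟨ξ, rfl⟩, b, ⟨η, rfl⟩, _, hab⟩ := hent (range G) (by rw [mk_range_eq _ hG, mk_W])
      (by
        rintro _ ⟨ξ, rfl⟩
        refine ⟨fun i j h => ?_, fun i => ⟨_, rfl⟩⟩
        exact (Prod.ext_iff.1 (hinj h)).2)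
      (by
        rintro _ ⟨ξ, rfl⟩ _ ⟨η, rfl⟩ hne i j h
        have h1 : ξ = η := (Prod.ext_iff.1 (hinj h)).1
        exact hne (by rw [h1])) (fun _ => 0)
    have hsum : ∀ ξ, ∑ j, G ξ j = 0 := by
      intro ξ
      rw [Fin.sum_univ_castSucc]
      simp only [G, elt, el_castSucc, el_last]
      ring
    have h1 : ∑ j, G ξ j < ∑ j, G η j :=
      Finset.sum_lt_sum_of_nonempty Finset.univ_nonempty fun i _ => (hab i).1 rfl
    rw [hsum, hsum] at h1
    exact lt_irrefl _ h1

end Q207.Ent
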