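import Mathlib

open Filter

namespace Q207.FE

/-- The product `F · G` of two ultrafilters on the positive integers:
`A ∈ F · G` iff `{n : A / n ∈ G} ∈ F`, where `A / n = {m : n * m ∈ A}`. -/
def mprod (F G : Ultrafilter ℕ+) : Ultrafilter ℕ+ :=
  F.bind fun n => G.map fun m => n * m

theorem mem_mprod {F G : Ultrafilter ℕ+} {A : Set ℕ+} :
    A ∈ mprod F G ↔ {n : ℕ+ | {m : ℕ+ | n * m ∈ A} ∈ G} ∈ F := Iff.rfl

/-- `F ∣_M G`: there are ultrafilters `H₁`, `H₂` with `G = H₁ · F · H₂`. -/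
def MDiv (F G : Ultrafilter ℕ+) : Prop :=
  ∃ H₁ H₂ : Ultrafilter ℕ+, G = mprod (mprod H₁ F) H₂

/-- Multiplicative finite embeddability of sets: every finite subset of `A` has a multiple
`k · T` inside `B`. -/
def SetFE (A B : Set ℕ+) : Prop :=
  ∀ T : Finset ℕ+, (T : Set ℕ+) ⊆ A → ∃ k : ℕ+, ∀ t ∈ T, k * t ∈ B

/-- Multiplicative finite embeddability of ultrafilters: every `B ∈ G` finitely embeds some
`A ∈ F`. -/
def FE (F G : Ultrafilter ℕ+) : Prop := ∀ B ∈ G, ∃ A ∈ F, SetFE A B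

/-- The positive integers with exactly `n` prime factors, counted with multiplicity. -/
def Lev (n : ℕ) : Set ℕ+ := {m | ArithmeticFunction.cardFactors (m : ℕ) = n}

theorem mprod_assoc (F G H : Ultrafilter ℕ+) :
    mprod (mprod F G) H = mprod F (mprod G H) := by
  apply Ultrafilter.coe_injective
  ext A
  show A ∈ mprod (mprod F G) H ↔ A ∈ mprod F (mprod G H)
  simp only [mem_mprod, Set.mem_ofPred_eq, mul_assoc]

/-! ### the index of a prime -/

/-- An index function on the naturals taking each value at infinitely many primes. -/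
def nu (p : ℕ) : ℕ := (Nat.unpair (Nat.count Nat.Prime p)).1

/-- the primes of index `n`, as positive integers -/
def D (n : ℕ) : Set ℕ+ := {p | Nat.Prime (p : ℕ) ∧ nu p = n}

theorem D_infinite (n : ℕ) : (D n).Infinite := by
  have hf : Function.Injective
      (fun j : ℕ => (⟨Nat.nth Nat.Prime (Nat.pair n j),
        (Nat.prime_nth_prime _).pos⟩ : ℕ+)) := by
    intro i j h
    have h1 : Nat.nth Nat.Prime (Nat.pair n i) = Nat.nth Nat.Prime (Nat.pair n j) :=
      congrArg (fun x : ℕ+ => (x : ℕ)) h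
    have h2 := Nat.nth_injective Nat.infinite_setOfPred_prime h1
    have h3 := congrArg Nat.unpair h2
    simpa using h3
  refine Set.infinite_of_injective_forall_mem hf ?_
  intro j
  refine ⟨Nat.prime_nth_prime _, ?_⟩
  show nu (Nat.nth Nat.Prime (Nat.pair n j)) = n
  unfold nu
  rw [Nat.count_nth_of_infinite Nat.infinite_setOfPred_prime]
  simp

theorem exists_nonprincipal {α : Type*} {S : Set α} (hS : S.Infinite) :
    ∃ F : Ultrafilter α, S ∈ F ∧ (F : Filter α) ≤ cofinite := by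
  have : (cofinite ⊓ 𝓟 S).NeBot := Filter.cofinite_inf_principal_neBot_iff.2 hS
  refine ⟨Ultrafilter.of (cofinite ⊓ 𝓟 S), ?_, ?_⟩
  · exact (Ultrafilter.of_le (cofinite ⊓ 𝓟 S)) (mem_inf_of_right (mem_principal_self S))
  · exact (Ultrafilter.of_le _).trans inf_le_left

theorem compl_singleton_mem {F : Ultrafilter ℕ+} (h : (F : Filter ℕ+) ≤ cofinite) (a : ℕ+) :
    {x | x ≠ a} ∈ F := by
  apply h
  rw [mem_cofinite]
  have : {x : ℕ+ | x ≠ a}ᶜ = {a} := by ext x; simp
  rw [this]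
  exact Set.finite_singleton a

theorem gt_mem {F : Ultrafilter ℕ+} (h : (F : Filter ℕ+) ≤ cofinite) (a : ℕ+) :
    {x | a < x} ∈ F := by
  apply h
  rw [mem_cofinite]
  have : {x : ℕ+ | a < x}ᶜ = Set.Iic a := by ext x; simp
  rw [this]
  exact Set.finite_Iic a

theorem Lev_one_iff {p : ℕ+} : p ∈ Lev 1 ↔ Nat.Prime (p : ℕ) :=
  ArithmeticFunction.cardFactors_eq_one_iff_prime

theorem Lev_zero_iff {p : ℕ+} : p ∈ Lev 0 ↔ p = 1 := by
  unfold Lev
  simp only [Set.mem_ofPred_eq, ArithmeticFunction.cardFactors_eq_zero_iff_eq_zero_or_one]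
  constructor
  · rintro (h | h)
    · exact absurd h p.ne_zero
    · exact PNat.coe_eq_one_iff.1 h
  · rintro rfl; right; rfl

theorem cardFactors_mul' (a b : ℕ+) : ArithmeticFunction.cardFactors ((a * b : ℕ+) : ℕ) =
    ArithmeticFunction.cardFactors (a : ℕ) + ArithmeticFunction.cardFactors (b : ℕ) := by
  rw [PNat.mul_coe]
  exact ArithmeticFunction.cardFactors_mul a.ne_zero b.ne_zero

/-- Two products of two primes agree only up to order. -/
theorem prime_mul_eq {a m q p : ℕ+} (ha : Nat.Prime (a : ℕ)) (_hm : Nat.Prime (m : ℕ))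
    (hq : Nat.Prime (q : ℕ)) (hp : Nat.Prime (p : ℕ)) (h : a * m = q * p) :
    (a = q ∧ m = p) ∨ (a = p ∧ m = q) := by
  have h' : (a : ℕ) * m = q * p := by exact_mod_cast h
  have hd : (a : ℕ) ∣ q * p := ⟨m, h'.symm⟩
  rcases (Nat.Prime.dvd_mul ha).1 hd with h1 | h1
  · have h2 : (a : ℕ) = q := (Nat.prime_dvd_prime_iff_eq ha hq).1 h1
    have h3 : a = q := PNat.coe_injective h2
    left
    refine ⟨h3, ?_⟩
    subst h3
    exact mul_left_cancel h
  · have h2 : (a : ℕ) = p := (Nat.prime_dvd_prime_iff_eq ha hp).1 h1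
    have h3 : a = p := PNat.coe_injective h2
    right
    refine ⟨h3, ?_⟩
    subst h3
    rw [mul_comm q] at h
    exact mul_left_cancel h

/-! ### the construction -/

/-- `G = U-lim F · Q n`. -/
def lim (U : Ultrafilter ℕ) (F : Ultrafilter ℕ+) (Q : ℕ → Ultrafilter ℕ+) : Ultrafilter ℕ+ :=
  U.bind fun n => mprod F (Q n)

theorem mem_lim {U : Ultrafilter ℕ} {F : Ultrafilter ℕ+} {Q : ℕ → Ultrafilter ℕ+}
    {A : Set ℕ+} : A ∈ lim U F Q ↔
      {n | {q : ℕ+ | {m : ℕ+ | q * m ∈ A} ∈ Q n} ∈ F} ∈ U := Iff.rfl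

section

variable {U : Ultrafilter ℕ} {F : Ultrafilter ℕ+} {Q : ℕ → Ultrafilter ℕ+}

theorem fe_lim : FE F (lim U F Q) := by
  intro B hB
  rw [mem_lim] at hB
  obtain ⟨n, hn⟩ := U.nonempty_of_mem hB
  refine ⟨_, hn, ?_⟩
  intro T hT
  have h1 : (⋂ t ∈ T, {m : ℕ+ | t * m ∈ B}) ∈ Q n := by
    refine (Filter.biInter_finset_mem T).2 ?_
    intro t ht
    exact hT ht
  obtain ⟨k, hk⟩ := (Q n).nonempty_of_mem h1
  refine ⟨k, ?_⟩
  intro t ht
  have := Set.mem_iInter₂.1 hk t ht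
  rw [mul_comm]
  exact this

variable (hFp : Lev 1 ∈ F) (hF : (F : Filter ℕ+) ≤ cofinite)
  (hD : ∀ n, D n ∈ Q n) (hQ : ∀ n, (Q n : Filter ℕ+) ≤ cofinite)
  (hU : (U : Filter ℕ) ≤ cofinite)

include hFp hD

theorem lev_two_mem : Lev 2 ∈ lim U F Q := by
  rw [mem_lim]
  refine Filter.univ_mem' ?_
  intro n
  refine Filter.mem_of_superset hFp ?_
  intro q hq
  refine Filter.mem_of_superset (hD n) ?_
  intro m hm
  have h1 : ArithmeticFunction.cardFactors (q : ℕ) = 1 := hq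
  have h2 : ArithmeticFunction.cardFactors (m : ℕ) = 1 := Lev_one_iff.2 hm.1
  show ArithmeticFunction.cardFactors ((q * m : ℕ+) : ℕ) = 2
  rw [cardFactors_mul', h1, h2]

include hF hQ

theorem mul_prime_not_mem {p0 : ℕ+} (hp0 : Nat.Prime (p0 : ℕ)) :
    {x : ℕ+ | ∃ p ∈ Lev 1, x = p0 * p} ∉ lim U F Q := by
  intro h
  rw [mem_lim] at h
  obtain ⟨n, hn⟩ := U.nonempty_of_mem h
  have h1 := Filter.inter_mem (Filter.inter_mem hn hFp) (compl_singleton_mem hF p0)
  obtain ⟨q, ⟨hq, hq1⟩, hq2⟩ := F.nonempty_of_mem h1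
  have h2 := Filter.inter_mem (Filter.inter_mem hq (hD n)) (compl_singleton_mem (hQ n) p0)
  obtain ⟨m, ⟨⟨p, hp, hm⟩, hm1⟩, hm2⟩ := (Q n).nonempty_of_mem h2
  rcases prime_mul_eq (Lev_one_iff.1 hq1) hm1.1 hp0 (Lev_one_iff.1 hp) hm with h3 | h3
  · exact hq2 h3.1
  · exact hm2 h3.2

include hU

/-- The limit `G` is multiplicatively indecomposable. -/
theorem indecomposable {R S : Ultrafilter ℕ+} (h : lim U F Q = mprod R S) :
    R = pure 1 ∨ S = pure 1 := by
  have hG2 : Lev 2 ∈ lim U F Q := lev_two_mem hFp hD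
  have hRS := hG2
  rw [h, mem_mprod] at hRS
  -- levels of `R` and `S`
  obtain ⟨a, ha⟩ := R.nonempty_of_mem hRS
  obtain ⟨j, hj⟩ : ∃ j, Lev j ∈ S := by
    refine ⟨2 - ArithmeticFunction.cardFactors (a : ℕ), Filter.mem_of_superset ha ?_⟩
    intro b hb
    have hb' : ArithmeticFunction.cardFactors ((a * b : ℕ+) : ℕ) = 2 := hb
    rw [cardFactors_mul'] at hb'
    show ArithmeticFunction.cardFactors (b : ℕ) = _
    omega
  have hi : {a : ℕ+ | ArithmeticFunction.cardFactors (a : ℕ) + j = 2} ∈ R := by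
    refine Filter.mem_of_superset hRS ?_
    intro a' ha'
    obtain ⟨b, hb, hbj⟩ := S.nonempty_of_mem (Filter.inter_mem ha' hj)
    have hb' : ArithmeticFunction.cardFactors ((a' * b : ℕ+) : ℕ) = 2 := hb
    have hbj' : ArithmeticFunction.cardFactors (b : ℕ) = j := hbj
    rw [cardFactors_mul', hbj'] at hb'
    exact hb'
  have hj2 : j ≤ 2 := by
    obtain ⟨a', ha'⟩ := R.nonempty_of_mem hi
    have : ArithmeticFunction.cardFactors (a' : ℕ) + j = 2 := ha'
    omega
  have heq1 : ∀ T : Ultrafilter ℕ+, Lev 0 ∈ T → T = pure 1 := by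
    intro T hT
    rcases Ultrafilter.le_cofinite_or_eq_pure T with h0 | ⟨b, h0⟩
    · exfalso
      obtain ⟨x, hx, hx'⟩ := T.nonempty_of_mem (Filter.inter_mem hT (compl_singleton_mem h0 1))
      exact hx' (Lev_zero_iff.1 hx)
    · subst h0
      have h1 : b ∈ Lev 0 := hT
      rw [Lev_zero_iff.1 h1]
  interval_cases j
  · right; exact heq1 S hj
  · -- both are prime
    have hR1 : Lev 1 ∈ R := by
      refine Filter.mem_of_superset hi ?_
      intro a' ha'
      have : ArithmeticFunction.cardFactors (a' : ℕ) + 1 = 2 := ha'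
      show ArithmeticFunction.cardFactors (a' : ℕ) = 1
      omega
    exfalso
    have hRc : (R : Filter ℕ+) ≤ cofinite := by
      rcases Ultrafilter.le_cofinite_or_eq_pure R with h0 | ⟨p0, h0⟩
      · exact h0
      · exfalso
        subst h0
        have hp0 : p0 ∈ Lev 1 := hR1
        apply mul_prime_not_mem hFp hF hD hQ (U := U) (Lev_one_iff.1 hp0)
        rw [h, mem_mprod]
        show {m : ℕ+ | p0 * m ∈ {x : ℕ+ | ∃ p ∈ Lev 1, x = p0 * p}} ∈ S
        exact Filter.mem_of_superset hj (fun m hm => ⟨m, hm, rfl⟩)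
    have hSc : (S : Filter ℕ+) ≤ cofinite := by
      rcases Ultrafilter.le_cofinite_or_eq_pure S with h0 | ⟨p0, h0⟩
      · exact h0
      · exfalso
        subst h0
        have hp0 : p0 ∈ Lev 1 := hj
        apply mul_prime_not_mem hFp hF hD hQ (U := U) (Lev_one_iff.1 hp0)
        rw [h, mem_mprod]
        refine Filter.mem_of_superset hR1 ?_
        intro m hm
        show m * p0 ∈ {x : ℕ+ | ∃ p ∈ Lev 1, x = p0 * p}
        exact ⟨m, hm, mul_comm _ _⟩
    -- the set of `q * p` with `nu p < q < p`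
    have hB : {x : ℕ+ | ∃ q ∈ Lev 1, ∃ p ∈ Lev 1, q < p ∧ nu p < q ∧ x = q * p} ∈
        lim U F Q := by
      rw [mem_lim]
      refine Filter.univ_mem' ?_
      intro n
      have h1 := Filter.inter_mem hFp (gt_mem hF ⟨n + 1, Nat.succ_pos n⟩)
      refine Filter.mem_of_superset h1 ?_
      rintro q ⟨hq1, hq2⟩
      have h2 := Filter.inter_mem (hD n) (gt_mem (hQ n) q)
      refine Filter.mem_of_superset h2 ?_
      rintro p ⟨hp1, hp2⟩
      refine ⟨q, hq1, p, Lev_one_iff.2 hp1.1, hp2, ?_, rfl⟩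
      have h3 : n + 1 < (q : ℕ) := hq2
      have h4 : nu p = n := hp1.2
      omega
    rw [h, mem_mprod] at hB
    obtain ⟨b, hb, hb1⟩ := R.nonempty_of_mem (Filter.inter_mem hB hR1)
    have hS1 : {p : ℕ+ | Nat.Prime (p : ℕ) ∧ nu p < b} ∈ S := by
      refine Filter.mem_of_superset (Filter.inter_mem (Filter.inter_mem hb hj)
        (gt_mem hSc b)) ?_
      rintro m ⟨⟨⟨q, hq, p, hp, hqp, hnu, hx⟩, hm1⟩, hm2⟩
      have hm2' : b < m := hm2
      rcases prime_mul_eq (Lev_one_iff.1 hb1) (Lev_one_iff.1 hm1) (Lev_one_iff.1 hq)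
        (Lev_one_iff.1 hp) hx with h3 | h3
      · obtain ⟨h4, h5⟩ := h3
        subst h4; subst h5
        exact ⟨Lev_one_iff.1 hp, hnu⟩
      · obtain ⟨h4, h5⟩ := h3
        subst h4; subst h5
        exact absurd hqp (not_lt.2 hm2'.le)
    obtain ⟨n0, hn0⟩ : ∃ n0, D n0 ∈ S := by
      have h5 : (⋃ n ∈ Finset.range (b : ℕ), D n) ∈ S := by
        refine Filter.mem_of_superset hS1 ?_
        intro p hp
        simp only [Set.mem_iUnion, Finset.mem_range]
        exact ⟨nu p, hp.2, hp.1, rfl⟩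
      by_contra hcon
      push Not at hcon
      have h6 : (⋂ n ∈ Finset.range (b : ℕ), (D n)ᶜ) ∈ S := by
        refine (Filter.biInter_finset_mem _).2 ?_
        intro n _
        exact Ultrafilter.compl_mem_iff_notMem.2 (hcon n)
      obtain ⟨x, hx1, hx2⟩ := S.nonempty_of_mem (Filter.inter_mem h5 h6)
      simp only [Set.mem_iUnion] at hx1
      simp only [Set.mem_iInter] at hx2
      obtain ⟨n, hn, hx⟩ := hx1
      exact hx2 n hn hx
    have hC : {x : ℕ+ | ∃ q ∈ Lev 1, ∃ p ∈ Lev 1, q < p ∧ nu p = n0 ∧ x = q * p} ∈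
        lim U F Q := by
      rw [h, mem_mprod]
      refine Filter.mem_of_superset hR1 ?_
      intro q hq
      refine Filter.mem_of_superset (Filter.inter_mem hn0 (gt_mem hSc q)) ?_
      rintro p ⟨hp1, hp2⟩
      exact ⟨q, hq, p, Lev_one_iff.2 hp1.1, hp2, hp1.2, rfl⟩
    rw [mem_lim] at hC
    have hU1 : {n : ℕ | n ≠ n0} ∈ U := by
      apply hU
      rw [mem_cofinite]
      have : {x : ℕ | x ≠ n0}ᶜ = {n0} := by ext x; simp
      rw [this]
      exact Set.finite_singleton n0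
    obtain ⟨n, hn, hnn⟩ := U.nonempty_of_mem (Filter.inter_mem hC hU1)
    obtain ⟨q, hq, hq1⟩ := F.nonempty_of_mem (Filter.inter_mem hn hFp)
    obtain ⟨m, ⟨⟨q', hq', p', hp', hqp, hnu, hx⟩, hm1⟩, hm2⟩ :=
      (Q n).nonempty_of_mem (Filter.inter_mem (Filter.inter_mem hq (hD n)) (gt_mem (hQ n) q))
    have hm2' : q < m := hm2
    rcases prime_mul_eq (Lev_one_iff.1 hq1) hm1.1 (Lev_one_iff.1 hq')
        (Lev_one_iff.1 hp') hx with h3 | h3
    · obtain ⟨h4, h5⟩ := h3
      subst h4; subst h5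
      exact hnn (hm1.2.symm.trans hnu)
    · obtain ⟨h4, h5⟩ := h3
      subst h4; subst h5
      exact absurd hqp (not_lt.2 hm2'.le)
  · left
    apply heq1
    refine Filter.mem_of_superset hi ?_
    intro a' ha'
    have : ArithmeticFunction.cardFactors (a' : ℕ) + 2 = 2 := ha'
    show ArithmeticFunction.cardFactors (a' : ℕ) = 0
    omega

omit hF hD hQ hU in
theorem F_ne_one : F ≠ pure 1 := by
  intro h
  subst h
  have h1 : (1 : ℕ+) ∈ Lev 1 := hFp
  exact Nat.not_prime_one (Lev_one_iff.1 h1)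

omit hF hQ hU in
theorem G_ne_F : lim U F Q ≠ F := by
  intro h
  have h2 := lev_two_mem (U := U) hFp hD
  rw [h] at h2
  obtain ⟨x, hx, hx'⟩ := F.nonempty_of_mem (Filter.inter_mem hFp h2)
  have h3 : ArithmeticFunction.cardFactors (x : ℕ) = 1 := hx
  have h4 : ArithmeticFunction.cardFactors (x : ℕ) = 2 := hx'
  omega

omit hF hQ hU in
theorem G_ne_one : lim U F Q ≠ pure 1 := by
  intro h
  have h2 := lev_two_mem (U := U) hFp hD
  rw [h] at h2
  have h3 : ArithmeticFunction.cardFactors ((1 : ℕ+) : ℕ) = 2 := h2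
  simp at h3

omit hF hQ hU in
theorem not_fe : ¬ FE (lim U F Q) F := by
  intro h
  obtain ⟨A, hA, hAfe⟩ := h (Lev 1) hFp
  obtain ⟨a, ha, ha2⟩ := (lim U F Q).nonempty_of_mem
    (Filter.inter_mem hA (lev_two_mem (U := U) hFp hD))
  obtain ⟨k, hk⟩ := hAfe {a} (by simpa using ha)
  have h1 : ArithmeticFunction.cardFactors ((k * a : ℕ+) : ℕ) = 1 := hk a (by simp)
  have h2 : ArithmeticFunction.cardFactors (a : ℕ) = 2 := ha2
  rw [cardFactors_mul', h2] at h1
  omega

end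

theorem one_mprod (F : Ultrafilter ℕ+) : mprod (pure 1) F = F := by
  apply Ultrafilter.coe_injective
  ext A
  show {m : ℕ+ | 1 * m ∈ A} ∈ F ↔ A ∈ F
  simp only [one_mul]
  rfl

theorem mprod_one (F : Ultrafilter ℕ+) : mprod F (pure 1) = F := by
  apply Ultrafilter.coe_injective
  ext A
  show {m : ℕ+ | m * 1 ∈ A} ∈ F ↔ A ∈ F
  simp only [mul_one]
  rfl

theorem mprod_eq_one {F G : Ultrafilter ℕ+} (h : mprod F G = pure 1) :
    F = pure 1 ∧ G = pure 1 := by
  have h1 : ({1} : Set ℕ+) ∈ mprod F G := by rw [h]; exact rfl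
  rw [mem_mprod] at h1
  have h2 : {n : ℕ+ | {m : ℕ+ | n * m ∈ ({1} : Set ℕ+)} ∈ G} ⊆ {1} := by
    intro n hn
    obtain ⟨m, hm⟩ := G.nonempty_of_mem hn
    have : n * m = 1 := hm
    show n = 1
    have h' : (n : ℕ) * (m : ℕ) = 1 := by exact_mod_cast congrArg (fun x : ℕ+ => (x : ℕ)) this
    exact PNat.coe_eq_one_iff.1 (Nat.eq_one_of_mul_eq_one_right h')
  have h3 : ({1} : Set ℕ+) ∈ F := Filter.mem_of_superset h1 h2
  have hF : F = pure 1 := by
    rcases Ultrafilter.le_cofinite_or_eq_pure F with h0 | ⟨b, h0⟩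
    · exfalso
      obtain ⟨x, hx, hx'⟩ := F.nonempty_of_mem (Filter.inter_mem h3 (compl_singleton_mem h0 1))
      exact hx' hx
    · subst h0
      have h1 : b ∈ ({1} : Set ℕ+) := h3
      rw [Set.mem_singleton_iff.1 h1]
  refine ⟨hF, ?_⟩
  rw [hF, one_mprod] at h
  exact h

/-- The example: `F` is on the primes, `G` on the products of two primes, `F ≤_fe G`, not
`G ≤_fe F`, and the only way to write `G` as a product is the trivial one. -/
theorem example_exists : ∃ F G : Ultrafilter ℕ+, Lev 1 ∈ F ∧ Lev 2 ∈ G ∧ FE F G ∧ ¬ FE G F ∧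
    F ≠ pure 1 ∧ G ≠ pure 1 ∧ G ≠ F ∧
    ∀ R S : Ultrafilter ℕ+, G = mprod R S → R = pure 1 ∨ S = pure 1 := by
  have hinf : (Lev 1).Infinite :=
    (D_infinite 0).mono (fun p hp => Lev_one_iff.2 hp.1)
  obtain ⟨F, hFp, hF⟩ := exists_nonprincipal hinf
  choose Q hD hQ using fun n => exists_nonprincipal (D_infinite n)
  obtain ⟨U, -, hU⟩ := exists_nonprincipal (Set.infinite_univ (α := ℕ))
  exact ⟨F, lim U F Q, hFp, lev_two_mem hFp hD, fe_lim, not_fe hFp hD, F_ne_one hFp,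
    G_ne_one hFp hD, G_ne_F hFp hD, fun R S h => indecomposable hFp hF hD hQ hU h⟩

theorem not_mdiv_of_indecomposable {F G : Ultrafilter ℕ+} (hF : F ≠ pure 1) (_hG : G ≠ pure 1)
    (hne : G ≠ F)
    (h : ∀ R S : Ultrafilter ℕ+, G = mprod R S → R = pure 1 ∨ S = pure 1) : ¬ MDiv F G := by
  rintro ⟨H₁, H₂, hH⟩
  rcases h _ _ hH with h1 | h1
  · exact hF (mprod_eq_one h1).2
  · rw [h1, mprod_one] at hH
    rcases h _ _ hH with h2 | h2
    · rw [h2, one_mprod] at hH
      exact hne hH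
    · exact hF h2

end Q207.FE
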