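import Mathlib

namespace Q207.SSC

open Relation

/-- A rule `(A → x, α, β)` of a semi-conditional grammar with nonterminals `N` and terminals `T`;
`none` stands for the symbol `0` (no condition). -/
structure SCRule (N T : Type) where
  lhs : N
  rhs : List (N ⊕ T)
  perm : Option (List (N ⊕ T))
  forb : Option (List (N ⊕ T))

/-- A semi-conditional grammar with terminal alphabet `T`. The conditions which are present are
nonempty words. -/
structure SCGrammar (T : Type) where
  N : Type
  finN : Finite N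
  start : N
  rules : Set (SCRule N T)
  finRules : rules.Finite
  perm_ne : ∀ r ∈ rules, ∀ α, r.perm = some α → α ≠ []
  forb_ne : ∀ r ∈ rules, ∀ β, r.forb = some β → β ≠ []

/-- `r` rewrites `u` to `v`. -/
def SCRule.Rewrites {N T : Type} (r : SCRule N T) (u v : List (N ⊕ T)) : Prop :=
  (∃ u₁ u₂, u = u₁ ++ [Sum.inl r.lhs] ++ u₂ ∧ v = u₁ ++ r.rhs ++ u₂) ∧
    (∀ α, r.perm = some α → α <:+: u) ∧ (∀ β, r.forb = some β → ¬ β <:+: u)

/-- one derivation step -/
def SCGrammar.Step {T : Type} (G : SCGrammar T) (u v : List (G.N ⊕ T)) : Prop :=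
  ∃ r ∈ G.rules, r.Rewrites u v

/-- the generated language -/
def SCGrammar.language {T : Type} (G : SCGrammar T) : Set (List T) :=
  {w | ReflTransGen G.Step [Sum.inl G.start] (w.map Sum.inr)}

/-- degree `(i, j)` -/
def SCGrammar.Degree {T : Type} (G : SCGrammar T) (i j : ℕ) : Prop :=
  ∀ r ∈ G.rules, (∀ α, r.perm = some α → α.length ≤ i) ∧ (∀ β, r.forb = some β → β.length ≤ j)

/-- simple: every rule lacks a permitting or a forbidding condition -/
def SCGrammar.Simple {T : Type} (G : SCGrammar T) : Prop :=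
  ∀ r ∈ G.rules, r.perm = none ∨ r.forb = none

/-- propagating: no erasing rule -/
def SCGrammar.Propagating {T : Type} (G : SCGrammar T) : Prop := ∀ r ∈ G.rules, r.rhs ≠ []

/-- The family of the languages over `T` generated by the propagating semi-conditional grammars
of degree `(i, j)`. -/
def SCprop (T : Type) (i j : ℕ) : Set (Set (List T)) :=
  {L | ∃ G : SCGrammar T, G.Degree i j ∧ G.Propagating ∧ G.language = L}

/-- The family of the languages over `T` generated by the propagating simple semi-conditional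
grammars of degree `(i, j)`. -/
def SSCprop (T : Type) (i j : ℕ) : Set (Set (List T)) :=
  {L | ∃ G : SCGrammar T, G.Degree i j ∧ G.Simple ∧ G.Propagating ∧ G.language = L}

/-! ### normalized rules: conditions are single letters -/

/-- a rule whose conditions are letters -/
structure NRule (N T : Type) where
  lhs : N
  rhs : List (N ⊕ T)
  perm : Option (N ⊕ T)
  forb : Option (N ⊕ T)

/-- rewriting by a normalized rule -/
def NRule.Rw {N T : Type} (r : NRule N T) (u v : List (N ⊕ T)) : Prop :=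
  (∃ u₁ u₂, u = u₁ ++ [Sum.inl r.lhs] ++ u₂ ∧ v = u₁ ++ r.rhs ++ u₂) ∧
    (∀ a, r.perm = some a → a ∈ u) ∧ (∀ b, r.forb = some b → b ∉ u)

/-- the semi-conditional rule of a normalized rule -/
def NRule.toSC {N T : Type} (r : NRule N T) : SCRule N T :=
  ⟨r.lhs, r.rhs, r.perm.map (fun a => [a]), r.forb.map (fun a => [a])⟩

theorem singleton_infix {V : Type} {a : V} {u : List V} : [a] <:+: u ↔ a ∈ u := by
  constructor
  · intro h
    exact h.subset (List.mem_singleton_self a)
  · intro h
    obtain ⟨s, t, rfl⟩ := List.append_of_mem h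
    exact ⟨s, t, by simp⟩

theorem NRule.toSC_rewrites {N T : Type} (r : NRule N T) (u v : List (N ⊕ T)) :
    r.toSC.Rewrites u v ↔ r.Rw u v := by
  unfold SCRule.Rewrites NRule.Rw NRule.toSC
  simp only [Option.map_eq_some_iff, forall_exists_index, and_imp, forall_apply_eq_imp_iff₂,
    singleton_infix]

/-- derivation steps of a set of normalized rules -/
def NStep {N T : Type} (S : Set (NRule N T)) (u v : List (N ⊕ T)) : Prop := ∃ r ∈ S, r.Rw u v

/-- the grammar of a finite set of normalized rules -/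
def ofN {N T : Type} (finN : Finite N) (start : N) (S : Set (NRule N T)) (hS : S.Finite) :
    SCGrammar T where
  N := N
  finN := finN
  start := start
  rules := NRule.toSC '' S
  finRules := hS.image _
  perm_ne := by
    rintro _ ⟨r, _, rfl⟩ α h
    simp only [NRule.toSC, Option.map_eq_some_iff] at h
    obtain ⟨a, _, rfl⟩ := h
    simp
  forb_ne := by
    rintro _ ⟨r, _, rfl⟩ α h
    simp only [NRule.toSC, Option.map_eq_some_iff] at h
    obtain ⟨a, _, rfl⟩ := h
    simp

theorem ofN_step {N T : Type} (finN : Finite N) (start : N) (S : Set (NRule N T)) (hS : S.Finite)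
    (u v : List (N ⊕ T)) : (ofN finN start S hS).Step u v ↔ NStep S u v := by
  constructor
  · rintro ⟨_, ⟨r, hr, rfl⟩, h⟩
    exact ⟨r, hr, (r.toSC_rewrites u v).1 h⟩
  · rintro ⟨r, hr, h⟩
    exact ⟨r.toSC, ⟨r, hr, rfl⟩, (r.toSC_rewrites u v).2 h⟩

theorem ofN_degree {N T : Type} (finN : Finite N) (start : N) (S : Set (NRule N T))
    (hS : S.Finite) : (ofN finN start S hS).Degree 1 1 := by
  have key : ∀ (q : Option (N ⊕ T)) (α : List (N ⊕ T)), q.map (fun a => [a]) = some α →
      α.length ≤ 1 := by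
    intro q α h
    obtain ⟨a, _, rfl⟩ := Option.map_eq_some_iff.1 h
    simp
  rintro _ ⟨r, _, rfl⟩
  exact ⟨fun α h => key r.perm α h, fun α h => key r.forb α h⟩

/-- every grammar of degree `(1, 1)` is given by normalized rules -/
theorem exists_normal {T : Type} (G : SCGrammar T) (h : G.Degree 1 1) :
    ∃ S : Set (NRule G.N T), S.Finite ∧ G.rules = NRule.toSC '' S := by
  let f : SCRule G.N T → NRule G.N T := fun r =>
    ⟨r.lhs, r.rhs, r.perm.bind List.head?, r.forb.bind List.head?⟩
  refine ⟨f '' G.rules, G.finRules.image _, ?_⟩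
  rw [Set.image_image]
  have h1 : ∀ r ∈ G.rules, (f r).toSC = r := by
    intro r hr
    obtain ⟨h1, h2⟩ := h r hr
    have key : ∀ o : Option (List (G.N ⊕ T)), (∀ α, o = some α → α.length ≤ 1) →
        (∀ α, o = some α → α ≠ []) → (o.bind List.head?).map (fun a => [a]) = o := by
      intro o h3 h4
      cases o with
      | none => rfl
      | some α =>
        have h5 := h3 α rfl
        have h6 := h4 α rfl
        match α, h5, h6 with
        | [a], _, _ => rfl
    have e1 := key r.perm h1 (G.perm_ne r hr)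
    have e2 := key r.forb h2 (G.forb_ne r hr)
    cases r with
    | mk lhs rhs perm forb =>
      simp only [f, NRule.toSC] at e1 e2 ⊢
      rw [e1, e2]
  ext r
  constructor
  · intro hr
    exact ⟨r, hr, h1 r hr⟩
  · rintro ⟨r', hr', rfl⟩
    show (f r').toSC ∈ G.rules
    rw [h1 r' hr']
    exact hr'

/-! ### the simple grammar -/

section sim

variable {N T : Type}

/-- The nonterminals of the simple grammar: three copies of the old nonterminals (ordinary,
marked, promoted) and the controllers `(Z, σ)`, where `Z` is an old symbol and `σ` is idle or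
`(b, r, k)`; `b` tells whether the rule `r` is to be applied at the last symbol and `k` is the
phase. -/
abbrev N' (N T R : Type) : Type := (N × Fin 3) ⊕ ((N ⊕ T) × Option (Bool × R × Fin 6))

variable {R : Type}

/-- the `j`-th copy of the nonterminal `A` -/
def o (A : N) (j : Fin 3) : N' N T R ⊕ T := Sum.inl (Sum.inl (A, j))

/-- the controller -/
def c (Z : N ⊕ T) (σ : Option (Bool × R × Fin 6)) : N' N T R ⊕ T := Sum.inl (Sum.inr (Z, σ))

/-- the embedding of the old symbols -/
def emb : N ⊕ T → N' N T R ⊕ T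
  | Sum.inl A => o A 0
  | Sum.inr t => Sum.inr t

/-- the projection to the old symbols -/
def pr : N' N T R ⊕ T → N ⊕ T
  | Sum.inl (Sum.inl (A, _)) => Sum.inl A
  | Sum.inl (Sum.inr (Z, _)) => Z
  | Sum.inr t => Sum.inr t

@[simp] theorem pr_o (A : N) (j : Fin 3) : pr (o A j : N' N T R ⊕ T) = Sum.inl A := rfl
@[simp] theorem pr_c (Z : N ⊕ T) (σ : Option (Bool × R × Fin 6)) :
    pr (c Z σ : N' N T R ⊕ T) = Z := rfl
@[simp] theorem pr_inr (t : T) : pr (Sum.inr t : N' N T R ⊕ T) = Sum.inr t := rfl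
@[simp] theorem pr_emb (x : N ⊕ T) : pr (emb x : N' N T R ⊕ T) = x := by
  cases x <;> rfl

/-- the rules of the simple grammar built from the set `S` of rules -/
inductive NR (S : Set (NRule N T)) : NRule (N' N T S) T → Prop
  | mark (A : N) (Z : N ⊕ T) : NR S ⟨Sum.inl (A, 0), [o A 1], some (c Z none), none⟩
  | prom (A : N) : NR S ⟨Sum.inl (A, 1), [o A 2], none, some (o A 2)⟩
  | begin (Z : N ⊕ T) (r : S) :
      NR S ⟨Sum.inr (Z, none), [c Z (some (false, r, 0))], some (o r.1.lhs 2), none⟩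
  | uniq (Z : N ⊕ T) (r : S) :
      NR S ⟨Sum.inr (Z, some (false, r, 0)), [c Z (some (false, r, 1))], none,
        some (o r.1.lhs 1)⟩
  | beginL (r : S) :
      NR S ⟨Sum.inr (Sum.inl r.1.lhs, none), [c (Sum.inl r.1.lhs) (some (true, r, 1))], none, none⟩
  | perm0 (f : Bool) (Z : N ⊕ T) (r : S) : r.1.perm = none →
      NR S ⟨Sum.inr (Z, some (f, r, 1)), [c Z (some (f, r, 2))], none, none⟩
  | perm1 (f : Bool) (Z : N ⊕ T) (r : S) (y : N' N T S ⊕ T) : r.1.perm = some (pr y) →
      NR S ⟨Sum.inr (Z, some (f, r, 1)), [c Z (some (f, r, 2))], some y, none⟩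
  | forb0 (f : Bool) (Z : N ⊕ T) (r : S) : r.1.forb = none →
      NR S ⟨Sum.inr (Z, some (f, r, 2)), [c Z (some (f, r, 5))], none, none⟩
  | forbT (f : Bool) (Z : N ⊕ T) (r : S) (t : T) : r.1.forb = some (Sum.inr t) → Z ≠ Sum.inr t →
      NR S ⟨Sum.inr (Z, some (f, r, 2)), [c Z (some (f, r, 5))], none, some (Sum.inr t)⟩
  | forbN0 (f : Bool) (Z : N ⊕ T) (r : S) (B : N) : r.1.forb = some (Sum.inl B) → Z ≠ Sum.inl B →
      NR S ⟨Sum.inr (Z, some (f, r, 2)), [c Z (some (f, r, 3))], none, some (o B 0)⟩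
  | forbN1 (f : Bool) (Z : N ⊕ T) (r : S) (B : N) : r.1.forb = some (Sum.inl B) →
      NR S ⟨Sum.inr (Z, some (f, r, 3)), [c Z (some (f, r, 4))], none, some (o B 1)⟩
  | forbN2 (f : Bool) (Z : N ⊕ T) (r : S) (B : N) : r.1.forb = some (Sum.inl B) →
      NR S ⟨Sum.inr (Z, some (f, r, 4)), [c Z (some (f, r, 5))], none, some (o B 2)⟩
  | exec (Z : N ⊕ T) (r : S) :
      NR S ⟨Sum.inl (r.1.lhs, 2), r.1.rhs.map emb, some (c Z (some (false, r, 5))), none⟩
  | fin (Z : N ⊕ T) (r : S) :
      NR S ⟨Sum.inr (Z, some (false, r, 5)), [c Z none], none, some (o r.1.lhs 2)⟩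
  | execL (r : S) (x : List (N ⊕ T)) (Y : N ⊕ T) : r.1.rhs = x ++ [Y] →
      NR S ⟨Sum.inr (Sum.inl r.1.lhs, some (true, r, 5)), x.map emb ++ [c Y none], none, none⟩
  | stop (t : T) : NR S ⟨Sum.inr (Sum.inr t, none), [Sum.inr t], none, none⟩

/-! ### finiteness -/

theorem NR_finite [Finite N] [Finite T] {S : Set (NRule N T)} (hS : S.Finite) :
    {ρ | NR S ρ}.Finite := by
  have : Finite S := hS.to_subtype
  let F : Set (List (N' N T S ⊕ T)) := Set.range (fun y : N' N T S ⊕ T => [y]) ∪
    Set.range (fun r : S => r.1.rhs.map emb) ∪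
    Set.range (fun q : S × (N ⊕ T) => q.1.1.rhs.dropLast.map emb ++ [c q.2 none])
  have hF : F.Finite := ((Set.finite_range _).union (Set.finite_range _)).union
    (Set.finite_range _)
  let g : NRule (N' N T S) T → (N' N T S) × List (N' N T S ⊕ T) × Option (N' N T S ⊕ T) ×
    Option (N' N T S ⊕ T) := fun ρ => (ρ.lhs, ρ.rhs, ρ.perm, ρ.forb)
  have hg : Function.Injective g := by
    rintro ⟨a, b, c, d⟩ ⟨a', b', c', d'⟩ h
    simp only [g, Prod.mk.injEq] at h
    obtain ⟨h1, h2, h3, h4⟩ := h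
    subst h1; subst h2; subst h3; subst h4
    rfl
  have hfin : ((Set.univ : Set (N' N T S)) ×ˢ (F ×ˢ ((Set.univ : Set (Option (N' N T S ⊕ T))) ×ˢ
      (Set.univ : Set (Option (N' N T S ⊕ T)))))).Finite :=
    Set.finite_univ.prod (hF.prod (Set.finite_univ.prod Set.finite_univ))
  refine Set.Finite.of_finite_image (hfin.subset ?_) hg.injOn
  rintro _ ⟨ρ, hρ, rfl⟩
  refine ⟨Set.mem_univ _, ?_, Set.mem_univ _, Set.mem_univ _⟩
  show ρ.rhs ∈ F
  cases hρ with
  | exec Z r => exact Or.inl (Or.inr ⟨r, rfl⟩)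
  | execL r x Y h =>
    right
    refine ⟨(r, Y), ?_⟩
    show r.1.rhs.dropLast.map emb ++ [c Y none] = x.map emb ++ [c Y none]
    rw [h, List.dropLast_concat]
  | mark A Z => exact Or.inl (Or.inl ⟨_, rfl⟩)
  | prom A => exact Or.inl (Or.inl ⟨_, rfl⟩)
  | begin Z r => exact Or.inl (Or.inl ⟨_, rfl⟩)
  | uniq Z r => exact Or.inl (Or.inl ⟨_, rfl⟩)
  | beginL r => exact Or.inl (Or.inl ⟨_, rfl⟩)
  | perm0 f Z r h => exact Or.inl (Or.inl ⟨_, rfl⟩)
  | perm1 f Z r y h => exact Or.inl (Or.inl ⟨_, rfl⟩)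
  | forb0 f Z r h => exact Or.inl (Or.inl ⟨_, rfl⟩)
  | forbT f Z r t h h' => exact Or.inl (Or.inl ⟨_, rfl⟩)
  | forbN0 f Z r B h h' => exact Or.inl (Or.inl ⟨_, rfl⟩)
  | forbN1 f Z r B h => exact Or.inl (Or.inl ⟨_, rfl⟩)
  | forbN2 f Z r B h => exact Or.inl (Or.inl ⟨_, rfl⟩)
  | fin Z r => exact Or.inl (Or.inl ⟨_, rfl⟩)
  | stop t => exact Or.inl (Or.inl ⟨_, rfl⟩)

theorem NR_simple {S : Set (NRule N T)} {ρ : NRule (N' N T S) T} (h : NR S ρ) :
    ρ.perm = none ∨ ρ.forb = none := by
  cases h <;> first | exact Or.inl rfl | exact Or.inr rfl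

theorem NR_prop {S : Set (NRule N T)} (hS : ∀ r ∈ S, r.rhs ≠ []) {ρ : NRule (N' N T S) T}
    (h : NR S ρ) : ρ.rhs ≠ [] := by
  cases h with
  | exec Z r => simpa using hS r.1 r.2
  | execL r x Y h => simp
  | _ => simp

/-! ### the simulation -/

theorem stp {N T : Type} {W : Set (NRule N T)} {ρ : NRule N T} (hρ : ρ ∈ W)
    {u v : List (N ⊕ T)} (s₁ s₂ : List (N ⊕ T)) (hu : u = s₁ ++ [Sum.inl ρ.lhs] ++ s₂)
    (hv : v = s₁ ++ ρ.rhs ++ s₂) (hp : ∀ a, ρ.perm = some a → a ∈ u)
    (hf : ∀ b, ρ.forb = some b → b ∉ u) : ReflTransGen (NStep W) u v :=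
  ReflTransGen.single ⟨ρ, hρ, ⟨⟨s₁, s₂, hu, hv⟩, hp, hf⟩⟩

variable {S : Set (NRule N T)}

/-- the checking phases -/
theorem chk (m : List (N' N T S ⊕ T)) (Z : N ⊕ T) (f : Bool) (r : S)
    (hα : ∀ a, r.1.perm = some a → a ∈ m.map pr ++ [Z])
    (hβ : ∀ b, r.1.forb = some b → b ∉ m.map pr ++ [Z]) :
    ReflTransGen (NStep {ρ | NR S ρ}) (m ++ [c Z (some (f, r, 1))])
      (m ++ [c Z (some (f, r, 5))]) := by
  have h1 : ReflTransGen (NStep {ρ | NR S ρ}) (m ++ [c Z (some (f, r, 1))])
      (m ++ [c Z (some (f, r, 2))]) := by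
    cases hp : r.1.perm with
    | none =>
      exact stp (NR.perm0 f Z r hp) m [] (by simp; rfl) (by simp) (by simp) (by simp)
    | some a =>
      have h2 := hα a hp
      have h3 : a ∈ (m ++ [c Z (some (f, r, 1))]).map pr := by simpa using h2
      obtain ⟨y, hy, hy'⟩ := List.mem_map.1 h3
      refine stp (NR.perm1 f Z r y (by rw [hp, hy'])) m [] (by simp; rfl) (by simp) ?_ (by simp)
      intro a' ha'
      simp only [Option.some.injEq] at ha'
      rw [← ha']
      exact hy
  refine h1.trans ?_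
  cases hq : r.1.forb with
  | none =>
    exact stp (NR.forb0 f Z r hq) m [] (by simp; rfl) (by simp) (by simp) (by simp)
  | some b =>
    have h2 := hβ b hq
    have hm : ∀ y ∈ m, pr y ≠ b := by
      intro y hy he
      apply h2
      rw [List.mem_append]
      left
      exact List.mem_map.2 ⟨y, hy, he⟩
    have hZ : Z ≠ b := by
      rintro rfl
      apply h2
      simp
    cases b with
    | inr t =>
      refine stp (NR.forbT f Z r t hq hZ) m [] (by simp; rfl) (by simp) (by simp) ?_
      intro b hb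
      simp only [Option.some.injEq] at hb
      subst hb
      intro h
      rw [List.mem_append] at h
      rcases h with h | h
      · exact hm _ h rfl
      · simp [c] at h
    | inl B =>
      have hnot : ∀ (j : Fin 3) (k : Fin 6), (o B j : N' N T S ⊕ T) ∉ m ++ [c Z (some (f, r, k))] := by
        intro j k h
        rw [List.mem_append] at h
        rcases h with h | h
        · exact hm _ h rfl
        · simp [c, o] at h
      have e1 : ReflTransGen (NStep {ρ | NR S ρ}) (m ++ [c Z (some (f, r, 2))])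
          (m ++ [c Z (some (f, r, 3))]) := by
        refine stp (NR.forbN0 f Z r B hq hZ) m [] (by simp; rfl) (by simp) (by simp) ?_
        intro b hb
        simp only [Option.some.injEq] at hb
        subst hb
        exact hnot _ _
      have e2 : ReflTransGen (NStep {ρ | NR S ρ}) (m ++ [c Z (some (f, r, 3))])
          (m ++ [c Z (some (f, r, 4))]) := by
        refine stp (NR.forbN1 f Z r B hq) m [] (by simp; rfl) (by simp) (by simp) ?_
        intro b hb
        simp only [Option.some.injEq] at hb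
        subst hb
        exact hnot _ _
      have e3 : ReflTransGen (NStep {ρ | NR S ρ}) (m ++ [c Z (some (f, r, 4))])
          (m ++ [c Z (some (f, r, 5))]) := by
        refine stp (NR.forbN2 f Z r B hq) m [] (by simp; rfl) (by simp) (by simp) ?_
        intro b hb
        simp only [Option.some.injEq] at hb
        subst hb
        exact hnot _ _
      exact (e1.trans e2).trans e3

theorem emb_ne_o (x : N ⊕ T) (A : N) {j : Fin 3} (hj : j ≠ 0) :
    (emb x : N' N T R ⊕ T) ≠ o A j := by
  cases x with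
  | inl B =>
    intro h
    simp only [emb, o, Sum.inl.injEq, Prod.mk.injEq] at h
    exact hj h.2.symm
  | inr t => simp [emb, o]

theorem emb_ne_c (x : N ⊕ T) (Z : N ⊕ T) (σ : Option (Bool × R × Fin 6)) :
    (emb x : N' N T R ⊕ T) ≠ c Z σ := by
  cases x with
  | inl B => simp [emb, o, c]
  | inr t => simp [emb, c]

/-- one step of the old grammar is simulated -/
theorem fwd (hS : ∀ r ∈ S, r.rhs ≠ []) {x : List (N ⊕ T)} {Z : N ⊕ T} {v : List (N ⊕ T)}
    (h : NStep S (x ++ [Z]) v) : ∃ x' Z', v = x' ++ [Z'] ∧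
      ReflTransGen (NStep {ρ | NR S ρ}) (x.map emb ++ [c Z none]) (x'.map emb ++ [c Z' none]) := by
  obtain ⟨r, hr, ⟨u₁, u₂, hu, hv⟩, hα, hβ⟩ := h
  rcases List.eq_nil_or_concat u₂ with h2 | ⟨u₂', Z', h2⟩
  · subst h2
    rw [List.append_nil] at hu hv
    obtain ⟨h3, h4⟩ := List.append_inj' hu rfl
    subst h3
    simp only [List.cons.injEq, and_true] at h4
    subst h4
    rcases List.eq_nil_or_concat r.rhs with h5 | ⟨y, Y, h5⟩
    · exact absurd h5 (hS r hr)
    · rw [List.concat_eq_append] at h5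
      refine ⟨x ++ y, Y, by rw [hv, h5, List.append_assoc], ?_⟩
      have e1 : ReflTransGen (NStep {ρ | NR S ρ}) (x.map emb ++ [c (Sum.inl r.lhs) none])
          (x.map emb ++ [c (Sum.inl r.lhs) (some (true, (⟨r, hr⟩ : S), 1))]) :=
        stp (NR.beginL ⟨r, hr⟩) (x.map emb) [] (by simp; rfl) (by simp) (by simp) (by simp)
      have hmap : (x.map (emb : N ⊕ T → N' N T S ⊕ T)).map pr = x := by
        rw [List.map_map]
        conv_rhs => rw [← List.map_id x]
        apply List.map_congr_left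
        intro a _
        simp
      have e2 := chk (S := S) (x.map emb) (Sum.inl r.lhs) true ⟨r, hr⟩
        (by rw [hmap]; exact hα) (by rw [hmap]; exact hβ)
      have e3 : ReflTransGen (NStep {ρ | NR S ρ})
          (x.map emb ++ [c (Sum.inl r.lhs) (some (true, (⟨r, hr⟩ : S), 5))])
          ((x ++ y).map emb ++ [c Y none]) :=
        stp (NR.execL ⟨r, hr⟩ y Y h5) (x.map emb) [] (by simp; rfl) (by simp) (by simp) (by simp)
      exact (e1.trans e2).trans e3
  · rw [List.concat_eq_append] at h2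
    subst h2
    rw [← List.append_assoc] at hu hv
    obtain ⟨h3, h4⟩ := List.append_inj' hu rfl
    simp only [List.cons.injEq, and_true] at h4
    subst h4
    refine ⟨u₁ ++ r.rhs ++ u₂', Z, hv, ?_⟩
    have hmap : ∀ x : List (N ⊕ T), (x.map (emb : N ⊕ T → N' N T S ⊕ T)).map pr = x := by
      intro x
      rw [List.map_map]
      conv_rhs => rw [← List.map_id x]
      apply List.map_congr_left
      intro a _
      simp
    have hno : ∀ (x : List (N ⊕ T)) (A : N) (j : Fin 3), j ≠ 0 →
        (o A j : N' N T S ⊕ T) ∉ x.map emb := by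
      intro x A j hj h
      obtain ⟨y, _, hy⟩ := List.mem_map.1 h
      exact emb_ne_o y A hj hy
    let A := r.lhs
    let R₀ : S := ⟨r, hr⟩
    let e₁ : List (N' N T S ⊕ T) := u₁.map emb
    let e₂ : List (N' N T S ⊕ T) := u₂'.map emb
    have hx : x.map emb = e₁ ++ [o A 0] ++ e₂ := by
      rw [h3]; simp [e₁, e₂, emb, A]
    rw [hx]
    have s1 : ReflTransGen (NStep {ρ | NR S ρ}) (e₁ ++ [o A 0] ++ e₂ ++ [c Z none])
        (e₁ ++ [o A 1] ++ e₂ ++ [c Z none]) :=
      stp (NR.mark A Z) e₁ (e₂ ++ [c Z none]) (by simp; rfl) (by simp) (by simp) (by simp)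
    have s2 : ReflTransGen (NStep {ρ | NR S ρ}) (e₁ ++ [o A 1] ++ e₂ ++ [c Z none])
        (e₁ ++ [o A 2] ++ e₂ ++ [c Z none]) := by
      refine stp (NR.prom A) e₁ (e₂ ++ [c Z none]) (by simp; rfl) (by simp) (by simp) ?_
      intro b hb
      simp only [Option.some.injEq] at hb
      subst hb
      simp only [List.mem_append, List.mem_singleton, not_or]
      refine ⟨⟨⟨hno _ _ _ (by decide), by simp [o]⟩, hno _ _ _ (by decide)⟩, by simp [o, c]⟩
    have s3 : ReflTransGen (NStep {ρ | NR S ρ}) (e₁ ++ [o A 2] ++ e₂ ++ [c Z none])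
        (e₁ ++ [o A 2] ++ e₂ ++ [c Z (some (false, R₀, 0))]) := by
      refine stp (NR.begin Z R₀) (e₁ ++ [o A 2] ++ e₂) [] (by simp; rfl) (by simp) ?_ (by simp)
      intro a ha
      simp only [Option.some.injEq] at ha
      subst ha
      simp [A, R₀]
    have s4 : ReflTransGen (NStep {ρ | NR S ρ})
        (e₁ ++ [o A 2] ++ e₂ ++ [c Z (some (false, R₀, 0))])
        (e₁ ++ [o A 2] ++ e₂ ++ [c Z (some (false, R₀, 1))]) := by
      refine stp (NR.uniq Z R₀) (e₁ ++ [o A 2] ++ e₂) [] (by simp; rfl) (by simp) (by simp) ?_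
      intro b hb
      simp only [Option.some.injEq] at hb
      subst hb
      simp only [List.mem_append, List.mem_singleton, not_or]
      refine ⟨⟨⟨hno _ _ _ (by decide), by simp [o]⟩, hno _ _ _ (by decide)⟩, by simp [o, c]⟩
    have hpm : (e₁ ++ [o A 2] ++ e₂).map pr = x := by
      rw [h3]
      simp only [List.map_append, List.map_cons, List.map_nil, pr_o]
      rw [hmap, hmap]
    have s5 := chk (S := S) (e₁ ++ [o A 2] ++ e₂) Z false R₀
      (by rw [hpm]; exact hα) (by rw [hpm]; exact hβ)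
    have s6 : ReflTransGen (NStep {ρ | NR S ρ})
        (e₁ ++ [o A 2] ++ e₂ ++ [c Z (some (false, R₀, 5))])
        (e₁ ++ r.rhs.map emb ++ e₂ ++ [c Z (some (false, R₀, 5))]) := by
      refine stp (NR.exec Z R₀) e₁ (e₂ ++ [c Z (some (false, R₀, 5))]) (by simp; rfl) (by simp; rfl)
        ?_ (by simp)
      intro a ha
      simp only [Option.some.injEq] at ha
      subst ha
      simp
    have s7 : ReflTransGen (NStep {ρ | NR S ρ})
        (e₁ ++ r.rhs.map emb ++ e₂ ++ [c Z (some (false, R₀, 5))])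
        (e₁ ++ r.rhs.map emb ++ e₂ ++ [c Z none]) := by
      refine stp (NR.fin Z R₀) (e₁ ++ r.rhs.map emb ++ e₂) [] (by simp; rfl) (by simp) (by simp) ?_
      intro b hb
      simp only [Option.some.injEq] at hb
      subst hb
      simp only [List.mem_append, List.mem_singleton, not_or]
      refine ⟨⟨⟨hno _ _ _ (by decide), hno _ _ _ (by decide)⟩, hno _ _ _ (by decide)⟩,
        by simp [o, c]⟩
    have hfinal : (u₁ ++ r.rhs ++ u₂').map emb = e₁ ++ r.rhs.map emb ++ e₂ := by
      simp [e₁, e₂]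
    rw [hfinal]
    exact (((((s1.trans s2).trans s3).trans s4).trans s5).trans s6).trans s7

end sim

end Q207.SSC
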