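import Pool.Agent.Q207.SSC

namespace Q207.SSC

open Relation

variable {N T : Type} {S : Set (NRule N T)}

/-- no controller in `s` -/
def NC {R : Type} (s : List (N' N T R ⊕ T)) : Prop := ∀ Z σ, c Z σ ∉ s

/-- the invariant for a controller in phase `k` of the rule `r` -/
structure InvS (m : List (N' N T S ⊕ T)) (Z : N ⊕ T) (f : Bool) (r : S) (k : Fin 6) : Prop where
  h1 : f = true → Z = Sum.inl r.1.lhs
  h2 : f = false → k.1 ≤ 4 → o r.1.lhs 2 ∈ m
  h3 : f = false → 1 ≤ k.1 → o r.1.lhs 1 ∉ m
  h3' : f = true → 1 ≤ k.1
  h4 : 2 ≤ k.1 → (o r.1.lhs 2 ∈ m ∨ f = true) → ∀ a, r.1.perm = some a → a ∈ m.map pr ++ [Z]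
  h5 : 3 ≤ k.1 → k.1 ≤ 4 → ∃ B, r.1.forb = some (Sum.inl B) ∧ Z ≠ Sum.inl B ∧ o B 0 ∉ m ∧
    (k.1 = 4 → o B 1 ∉ m)
  h7 : k.1 = 5 → (o r.1.lhs 2 ∈ m ∨ f = true) → ∀ b, r.1.forb = some b → b ∉ m.map pr ++ [Z]

/-- the invariant for a controller -/
def InvC (m : List (N' N T S ⊕ T)) (Z : N ⊕ T) : Option (Bool × S × Fin 6) → Prop
  | none => True
  | some (f, r, k) => InvS m Z f r k

open Classical in
/-- the number of occurrences of `y` in `m` -/
noncomputable def cn {V : Type} (y : V) (m : List V) : ℕ := m.countP (fun z => decide (z = y))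

theorem cn_append {V : Type} (y : V) (m m' : List V) : cn y (m ++ m') = cn y m + cn y m' :=
  List.countP_append

theorem cn_self {V : Type} (y : V) : cn y [y] = 1 := by simp [cn]

theorem cn_ne {V : Type} {y z : V} (h : z ≠ y) : cn y [z] = 0 := by simp [cn, h]

theorem cn_zero {V : Type} {y : V} {m : List V} : cn y m = 0 ↔ y ∉ m := by
  unfold cn
  rw [List.countP_eq_zero]
  simp only [decide_eq_true_eq]
  constructor
  · intro h hm
    exact h y hm rfl
  · intro h z hz he
    exact h (he ▸ hz)

/-- the invariant -/
def Inv (start : N) (s : List (N' N T S ⊕ T)) : Prop :=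
  ReflTransGen (NStep S) [Sum.inl start] (s.map pr) ∧
    (NC s ∨ ∃ m Z σ, s = m ++ [c Z σ] ∧ NC m ∧ (∀ A, cn (o A 2) m ≤ 1) ∧ InvC m Z σ)

theorem decomp {V : Type} {m s₁ s₂ : List V} {x y : V} (h : m ++ [x] = s₁ ++ [y] ++ s₂) :
    (s₂ = [] ∧ m = s₁ ∧ x = y) ∨ ∃ s₂', s₂ = s₂' ++ [x] ∧ m = s₁ ++ [y] ++ s₂' := by
  rcases List.eq_nil_or_concat s₂ with h2 | ⟨s₂', z, h2⟩
  · left
    subst h2
    rw [List.append_nil] at h
    obtain ⟨h3, h4⟩ := List.append_inj' h rfl
    simp only [List.cons.injEq, and_true] at h4
    exact ⟨rfl, h3, h4⟩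
  · right
    rw [List.concat_eq_append] at h2
    subst h2
    rw [← List.append_assoc] at h
    obtain ⟨h3, h4⟩ := List.append_inj' h rfl
    simp only [List.cons.injEq, and_true] at h4
    subst h4
    exact ⟨s₂', rfl, h3⟩

theorem mem_c_of {m : List (N' N T S ⊕ T)} {Z Z' : N ⊕ T} {σ σ' : Option (Bool × S × Fin 6)}
    (hm : NC m) (h : c Z' σ' ∈ m ++ [c Z σ]) : Z' = Z ∧ σ' = σ := by
  rw [List.mem_append] at h
  rcases h with h | h
  · exact absurd h (hm _ _)
  · simpa [c] using h

/-- a controller rule acts on the last letter -/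
theorem ctl_last {m s₁ s₂ : List (N' N T S ⊕ T)} {Z Z' : N ⊕ T} {σ σ' : Option (Bool × S × Fin 6)}
    (hm : NC m) (h : m ++ [c Z σ] = s₁ ++ [c Z' σ'] ++ s₂) :
    s₂ = [] ∧ m = s₁ ∧ Z = Z' ∧ σ = σ' := by
  rcases decomp h with ⟨h1, h2, h3⟩ | ⟨s₂', h1, h2⟩
  · have h4 : Z = Z' ∧ σ = σ' := by simpa [c] using h3
    exact ⟨h1, h2, h4.1, h4.2⟩
  · exfalso
    apply hm Z' σ'
    rw [h2]
    simp

/-- an ordinary rule acts before the last letter -/
theorem ord_mid {m s₁ s₂ : List (N' N T S ⊕ T)} {Z : N ⊕ T} {A : N} {j : Fin 3}
    {σ : Option (Bool × S × Fin 6)}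
    (h : m ++ [c Z σ] = s₁ ++ [o A j] ++ s₂) :
    ∃ s₂', s₂ = s₂' ++ [c Z σ] ∧ m = s₁ ++ [o A j] ++ s₂' := by
  rcases decomp h with ⟨h1, h2, h3⟩ | h1
  · simp [c, o] at h3
  · exact h1

theorem pr_eq_inl {y : N' N T S ⊕ T} {B : N} (hy : ∀ Z σ, y ≠ c Z σ) (h : pr y = Sum.inl B) :
    y = o B 0 ∨ y = o B 1 ∨ y = o B 2 := by
  match y, hy, h with
  | Sum.inl (Sum.inl (A, j)), _, h =>
    have h' : A = B := by simpa [pr] using h
    subst h'
    fin_cases j
    · left; rfl
    · right; left; rfl
    · right; right; rfl
  | Sum.inl (Sum.inr (Z, σ)), hy, _ => exact absurd rfl (hy Z σ)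
  | Sum.inr t, _, h => simp [pr] at h

theorem pr_eq_inr {y : N' N T S ⊕ T} {t : T} (hy : ∀ Z σ, y ≠ c Z σ) (h : pr y = Sum.inr t) :
    y = Sum.inr t := by
  match y, hy, h with
  | Sum.inl (Sum.inl (A, j)), _, h => simp [pr] at h
  | Sum.inl (Sum.inr (Z, σ)), hy, _ => exact absurd rfl (hy Z σ)
  | Sum.inr t', _, h =>
    have : t' = t := by simpa [pr] using h
    rw [this]

theorem map_pr_emb (x : List (N ⊕ T)) : (x.map (emb : N ⊕ T → N' N T S ⊕ T)).map pr = x := by
  rw [List.map_map]
  conv_rhs => rw [← List.map_id x]
  apply List.map_congr_left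
  intro a _
  simp

theorem NC_emb (x : List (N ⊕ T)) : NC (x.map (emb : N ⊕ T → N' N T S ⊕ T)) := by
  intro Z σ h
  obtain ⟨y, _, hy⟩ := List.mem_map.1 h
  exact emb_ne_c y Z σ hy

theorem o_notMem_emb (x : List (N ⊕ T)) (A : N) {j : Fin 3} (hj : j ≠ 0) :
    o A j ∉ x.map (emb : N ⊕ T → N' N T S ⊕ T) := by
  intro h
  obtain ⟨y, _, hy⟩ := List.mem_map.1 h
  exact emb_ne_o y A hj hy

theorem NC.append {s t : List (N' N T S ⊕ T)} (h : NC s) (h' : NC t) : NC (s ++ t) := by
  intro Z σ hm
  rcases List.mem_append.1 hm with h1 | h1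
  · exact h _ _ h1
  · exact h' _ _ h1

theorem NC.left {s t : List (N' N T S ⊕ T)} (h : NC (s ++ t)) : NC s :=
  fun Z σ hm => h Z σ (List.mem_append_left _ hm)

theorem NC.right {s t : List (N' N T S ⊕ T)} (h : NC (s ++ t)) : NC t :=
  fun Z σ hm => h Z σ (List.mem_append_right _ hm)

theorem NC_o (A : N) (j : Fin 3) : NC ([o A j] : List (N' N T S ⊕ T)) := by
  intro Z σ h
  simp [o, c] at h

open Classical in
theorem inv_step {start : N} {s s' : List (N' N T S ⊕ T)} (hI : Inv start s)
    (h : NStep {ρ | NR S ρ} s s') : Inv start s' := by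
  obtain ⟨ρ, hρ, ⟨s₁, s₂, hs, hs'⟩, hp, hf⟩ := h
  obtain ⟨hreach, hI⟩ := hI
  rcases hI with hNC | ⟨m, Z, σ, rfl, hm, hcount, hInv⟩
  · -- no controller: only promotions
    have hbad : ∀ Z σ, s ≠ s₁ ++ [c Z σ] ++ s₂ := by
      intro Z σ h
      apply hNC Z σ
      rw [h]
      simp
    cases hρ with
    | mark A Z =>
      exact absurd (hp _ rfl) (hNC _ _)
    | prom A =>
      have hs1 : s = s₁ ++ [o A 1] ++ s₂ := hs
      have hs2 : s' = s₁ ++ [o A 2] ++ s₂ := hs'
      refine ⟨?_, Or.inl ?_⟩
      · have : s'.map pr = s.map pr := by rw [hs1, hs2]; simp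
        rw [this]
        exact hreach
      · rw [hs2]
        rw [hs1] at hNC
        exact (hNC.left.left.append (NC_o A 2)).append hNC.right
    | exec Z r => exact absurd (hp _ rfl) (hNC _ _)
    | begin Z r => exact absurd hs (hbad _ _)
    | uniq Z r => exact absurd hs (hbad _ _)
    | beginL r => exact absurd hs (hbad _ _)
    | perm0 f Z r h => exact absurd hs (hbad _ _)
    | perm1 f Z r y h => exact absurd hs (hbad _ _)
    | forb0 f Z r h => exact absurd hs (hbad _ _)
    | forbT f Z r t h h' => exact absurd hs (hbad _ _)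
    | forbN0 f Z r B h h' => exact absurd hs (hbad _ _)
    | forbN1 f Z r B h => exact absurd hs (hbad _ _)
    | forbN2 f Z r B h => exact absurd hs (hbad _ _)
    | fin Z r => exact absurd hs (hbad _ _)
    | execL r x Y h => exact absurd hs (hbad _ _)
    | stop t => exact absurd hs (hbad _ _)
  · have hmap : (m ++ [c Z σ]).map pr = m.map pr ++ [Z] := by simp
    rw [hmap] at hreach
    -- a helper for controller moves which keep `m` and `Z`
    have hctl : ∀ (Z' : N ⊕ T) (σ' σ'' : Option (Bool × S × Fin 6)),
        m ++ [c Z σ] = s₁ ++ [c Z' σ'] ++ s₂ → s' = s₁ ++ [c Z' σ''] ++ s₂ →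
        (Z = Z' → σ = σ' → InvC m Z' σ'') → Inv start s' := by
      intro Z' σ' σ'' h1 h2 h3
      obtain ⟨e1, e2, e3, e4⟩ := ctl_last hm h1
      subst e1; subst e2; subst e3; subst e4
      rw [List.append_nil] at h2
      subst h2
      refine ⟨?_, Or.inr ⟨m, Z, σ'', rfl, hm, hcount, h3 rfl rfl⟩⟩
      simpa using hreach
    cases hρ with
    | mark A Z₀ =>
      obtain ⟨e1, e2⟩ := mem_c_of hm (hp _ rfl)
      subst e1; subst e2
      obtain ⟨s₂', e3, e4⟩ := ord_mid (hs : m ++ [c Z₀ none] = s₁ ++ [o A 0] ++ s₂)
      subst e3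
      subst e4
      have hs2 : s' = (s₁ ++ [o A 1] ++ s₂') ++ [c Z₀ none] := by
        rw [hs']; simp
      subst hs2
      refine ⟨?_, Or.inr ⟨_, _, _, rfl, ?_, ?_, trivial⟩⟩
      · simpa using hreach
      · exact (hm.left.left.append (NC_o A 1)).append hm.right
      · intro B
        have h1 := hcount B
        have h2 : (o A 0 : N' N T S ⊕ T) ≠ o B 2 := by simp [o]
        have h3 : (o A 1 : N' N T S ⊕ T) ≠ o B 2 := by simp [o]
        simp only [cn_append, cn_ne h2, cn_ne h3] at h1 ⊢
        exact h1
    | prom A =>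
      obtain ⟨s₂', e3, e4⟩ := ord_mid (hs : m ++ [c Z σ] = s₁ ++ [o A 1] ++ s₂)
      subst e3
      have hs2 : s' = (s₁ ++ [o A 2] ++ s₂') ++ [c Z σ] := by
        rw [hs']; simp
      have hnot : (o A 2 : N' N T S ⊕ T) ∉ m ++ [c Z σ] := hf _ rfl
      have hnotm : (o A 2 : N' N T S ⊕ T) ∉ m := fun h => hnot (List.mem_append_left _ h)
      -- membership in the new word
      have hmem : ∀ y, y ∈ s₁ ++ [o A 2] ++ s₂' → y ∈ m ∨ y = o A 2 := by
        intro y hy
        rw [e4]
        simp only [List.mem_append, List.mem_singleton] at hy ⊢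
        tauto
      have hmem' : ∀ y ∈ m, y ≠ o A 1 → y ∈ s₁ ++ [o A 2] ++ s₂' := by
        intro y hy hne
        rw [e4] at hy
        simp only [List.mem_append, List.mem_singleton] at hy ⊢
        tauto
      have hprm : (s₁ ++ [o A 2] ++ s₂').map pr = m.map pr := by
        rw [e4]; simp
      have hA1 : o A 1 ∈ m := by rw [e4]; simp
      subst hs2
      refine ⟨?_, Or.inr ⟨_, _, _, rfl, ?_, ?_, ?_⟩⟩
      · rw [List.map_append, hprm]
        simpa using hreach
      · rw [e4] at hm
        exact (hm.left.left.append (NC_o A 2)).append hm.right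
      · intro B
        have h1 := hcount B
        rw [e4] at h1
        by_cases hB : B = A
        · subst hB
          have h4 : cn (o B 2 : N' N T S ⊕ T) m = 0 := cn_zero.2 hnotm
          rw [e4] at h4
          simp only [cn_append, cn_self] at h4 ⊢
          omega
        · have h2 : (o A 1 : N' N T S ⊕ T) ≠ o B 2 := by simp [o]
          have h3 : (o A 2 : N' N T S ⊕ T) ≠ o B 2 := by
            simp only [o, ne_eq, Sum.inl.injEq, Prod.mk.injEq, and_true]
            exact fun h => hB h.symm
          simp only [cn_append, cn_ne h2, cn_ne h3] at h1 ⊢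
          exact h1
      · match σ, hInv with
        | none, _ => trivial
        | some (f, r, k), hInv =>
          have hI : InvS m Z f r k := hInv
          have hpend : 1 ≤ k.1 → (o r.1.lhs 2 ∈ s₁ ++ [o A 2] ++ s₂' ∨ f = true) →
              (o r.1.lhs 2 ∈ m ∨ f = true) := by
            intro hk hpend
            rcases hpend with h | h
            · rcases hmem _ h with h' | h'
              · exact Or.inl h'
              · have hAr : r.1.lhs = A := by simpa [o] using h'
                cases hfb : f with
                | true => right; rfl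
                | false =>
                  exfalso
                  apply hI.h3 hfb hk
                  rw [hAr]
                  exact hA1
            · exact Or.inr h
          exact
            { h1 := hI.h1
              h2 := fun hfb hk => hmem' _ (hI.h2 hfb hk) (by simp [o])
              h3 := fun hfb hk h => by
                rcases hmem _ h with h' | h'
                · exact hI.h3 hfb hk h'
                · simp [o] at h'
              h3' := hI.h3'
              h4 := fun hk hpd a ha => by
                rw [hprm]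
                exact hI.h4 hk (hpend (by omega) hpd) a ha
              h5 := fun hk hk' => by
                obtain ⟨B, h1, h2, h3, h4⟩ := hI.h5 hk hk'
                refine ⟨B, h1, h2, ?_, ?_⟩
                · intro h
                  rcases hmem _ h with h' | h'
                  · exact h3 h'
                  · simp [o] at h'
                · intro hk4 h
                  rcases hmem _ h with h' | h'
                  · exact h4 hk4 h'
                  · simp [o] at h'
              h7 := fun hk hpd b hb => by
                rw [hprm]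
                exact hI.h7 hk (hpend (by omega) hpd) b hb }
    | exec Z₀ r =>
      obtain ⟨e1, e2⟩ := mem_c_of hm (hp _ rfl)
      subst e1; subst e2
      obtain ⟨s₂', e3, e4⟩ := ord_mid
        (hs : m ++ [c Z₀ (some (false, r, 5))] = s₁ ++ [o r.1.lhs 2] ++ s₂)
      subst e3
      have hs2 : s' = (s₁ ++ r.1.rhs.map emb ++ s₂') ++ [c Z₀ (some (false, r, 5))] := by
        rw [hs']; simp
      have hI : InvS m Z₀ false r 5 := hInv
      have hpend : o r.1.lhs 2 ∈ m := by rw [e4]; simp
      have hα := hI.h4 (by decide) (Or.inl hpend)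
      have hβ := hI.h7 rfl (Or.inl hpend)
      have hstep : NStep S (m.map pr ++ [Z₀])
          ((s₁ ++ r.1.rhs.map emb ++ s₂').map pr ++ [Z₀]) := by
        refine ⟨r.1, r.2, ⟨s₁.map pr, s₂'.map pr ++ [Z₀], ?_, ?_⟩, hα, hβ⟩
        · rw [e4]; simp
        · simp only [List.map_append, map_pr_emb, List.append_assoc]
      have hA2 : (o r.1.lhs 2 : N' N T S ⊕ T) ∉ s₁ ++ r.1.rhs.map emb ++ s₂' := by
        have h1 := hcount r.1.lhs
        rw [e4] at h1
        simp only [cn_append, cn_self] at h1
        have h2 : cn (o r.1.lhs 2 : N' N T S ⊕ T) s₁ = 0 := by omega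
        have h3 : cn (o r.1.lhs 2 : N' N T S ⊕ T) s₂' = 0 := by omega
        simp only [List.mem_append, not_or]
        exact ⟨⟨cn_zero.1 h2, o_notMem_emb _ _ (by decide)⟩, cn_zero.1 h3⟩
      subst hs2
      refine ⟨?_, Or.inr ⟨_, _, _, rfl, ?_, ?_, ?_⟩⟩
      · rw [List.map_append]
        exact hreach.tail hstep
      · rw [e4] at hm
        exact (hm.left.left.append (NC_emb _)).append hm.right
      · intro B
        have h1 := hcount B
        rw [e4] at h1
        have h2 : cn (o B 2 : N' N T S ⊕ T) (r.1.rhs.map emb) = 0 :=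
          cn_zero.2 (o_notMem_emb _ _ (by decide))
        simp only [cn_append] at h1 ⊢
        omega
      · exact
          { h1 := fun h => Bool.noConfusion h
            h2 := fun _ h => absurd h (by decide)
            h3 := fun _ _ h => by
              simp only [List.mem_append] at h
              rcases h with (h | h) | h
              · apply hI.h3 rfl (by decide)
                rw [e4]; simp [h]
              · exact o_notMem_emb _ _ (by decide) h
              · apply hI.h3 rfl (by decide)
                rw [e4]; simp [h]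
            h3' := fun h => Bool.noConfusion h
            h4 := fun _ h => by
              rcases h with h | h
              · exact absurd h hA2
              · exact Bool.noConfusion h
            h5 := fun _ h => absurd h (by decide)
            h7 := fun _ h => by
              rcases h with h | h
              · exact absurd h hA2
              · exact Bool.noConfusion h }
    | begin Z₀ r =>
      have hmem : (o r.1.lhs 2 : N' N T S ⊕ T) ∈ m := by
        have h1 := hp _ rfl
        rw [List.mem_append] at h1
        rcases h1 with h1 | h1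
        · exact h1
        · simp [o, c] at h1
      refine hctl Z₀ none (some (false, r, 0)) hs (by rw [hs']) ?_
      intro _ _
      exact
        { h1 := fun h => Bool.noConfusion h
          h2 := fun _ _ => hmem
          h3 := fun _ h => absurd h (by decide)
          h3' := fun h => Bool.noConfusion h
          h4 := fun h => absurd h (by decide)
          h5 := fun h => absurd h (by decide)
          h7 := fun h => absurd h (by decide) }
    | uniq Z₀ r =>
      have hnot : (o r.1.lhs 1 : N' N T S ⊕ T) ∉ m := fun h =>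
        hf _ rfl (List.mem_append_left _ h)
      refine hctl Z₀ (some (false, r, 0)) (some (false, r, 1)) hs (by rw [hs']) ?_
      intro hZ hσ
      subst hZ; subst hσ
      have hI : InvS m Z false r 0 := hInv
      exact
        { h1 := fun h => Bool.noConfusion h
          h2 := fun _ _ => hI.h2 rfl (by decide)
          h3 := fun _ _ => hnot
          h3' := fun h => Bool.noConfusion h
          h4 := fun h => absurd h (by decide)
          h5 := fun h => absurd h (by decide)
          h7 := fun h => absurd h (by decide) }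
    | beginL r =>
      refine hctl (Sum.inl r.1.lhs) none (some (true, r, 1)) hs (by rw [hs']) ?_
      intro _ _
      exact
        { h1 := fun _ => rfl
          h2 := fun h => Bool.noConfusion h
          h3 := fun h => Bool.noConfusion h
          h3' := fun _ => le_rfl
          h4 := fun h => absurd h (by decide)
          h5 := fun h => absurd h (by decide)
          h7 := fun h => absurd h (by decide) }
    | perm0 f Z₀ r hr =>
      refine hctl Z₀ (some (f, r, 1)) (some (f, r, 2)) hs (by rw [hs']) ?_
      intro hZ hσ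
      subst hZ; subst hσ
      have hI : InvS m Z f r 1 := hInv
      exact
        { h1 := hI.h1
          h2 := fun h _ => hI.h2 h (by decide)
          h3 := fun h _ => hI.h3 h (by decide)
          h3' := fun _ => by decide
          h4 := fun _ _ a ha => by rw [hr] at ha; simp at ha
          h5 := fun h => absurd h (by decide)
          h7 := fun h => absurd h (by decide) }
    | perm1 f Z₀ r y hr =>
      have hy : y ∈ m ++ [c Z σ] := hp _ rfl
      refine hctl Z₀ (some (f, r, 1)) (some (f, r, 2)) hs (by rw [hs']) ?_
      intro hZ hσ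
      subst hZ; subst hσ
      have hI : InvS m Z f r 1 := hInv
      exact
        { h1 := hI.h1
          h2 := fun h _ => hI.h2 h (by decide)
          h3 := fun h _ => hI.h3 h (by decide)
          h3' := fun _ => by decide
          h4 := fun _ _ a ha => by
            rw [hr, Option.some.injEq] at ha
            rw [← ha, ← hmap]
            exact List.mem_map_of_mem hy
          h5 := fun h => absurd h (by decide)
          h7 := fun h => absurd h (by decide) }
    | forb0 f Z₀ r hr =>
      refine hctl Z₀ (some (f, r, 2)) (some (f, r, 5)) hs (by rw [hs']) ?_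
      intro hZ hσ
      subst hZ; subst hσ
      have hI : InvS m Z f r 2 := hInv
      exact
        { h1 := hI.h1
          h2 := fun h _ => hI.h2 h (by decide)
          h3 := fun h _ => hI.h3 h (by decide)
          h3' := fun _ => by decide
          h4 := fun _ => hI.h4 (by decide)
          h5 := fun _ h => absurd h (by decide)
          h7 := fun _ _ b hb => by rw [hr] at hb; simp at hb }
    | forbT f Z₀ r t hr hZt =>
      have hnot : (Sum.inr t : N' N T S ⊕ T) ∉ m := fun h => hf _ rfl (List.mem_append_left _ h)
      refine hctl Z₀ (some (f, r, 2)) (some (f, r, 5)) hs (by rw [hs']) ?_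
      intro hZ hσ
      subst hZ; subst hσ
      have hI : InvS m Z f r 2 := hInv
      exact
        { h1 := hI.h1
          h2 := fun h _ => hI.h2 h (by decide)
          h3 := fun h _ => hI.h3 h (by decide)
          h3' := fun _ => by decide
          h4 := fun _ => hI.h4 (by decide)
          h5 := fun _ h => absurd h (by decide)
          h7 := fun _ _ b hb hmem => by
            rw [hr, Option.some.injEq] at hb
            subst hb
            rw [List.mem_append, List.mem_singleton] at hmem
            rcases hmem with hmem | hmem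
            · obtain ⟨y, hy, hy'⟩ := List.mem_map.1 hmem
              have h1 := pr_eq_inr (fun Z σ h => hm Z σ (by rw [← h]; exact hy)) hy'
              rw [h1] at hy
              exact hnot hy
            · exact hZt hmem.symm }
    | forbN0 f Z₀ r B hr hZB =>
      have hnot : (o B 0 : N' N T S ⊕ T) ∉ m := fun h => hf _ rfl (List.mem_append_left _ h)
      refine hctl Z₀ (some (f, r, 2)) (some (f, r, 3)) hs (by rw [hs']) ?_
      intro hZ hσ
      subst hZ; subst hσ
      have hI : InvS m Z f r 2 := hInv
      exact
        { h1 := hI.h1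
          h2 := fun h _ => hI.h2 h (by decide)
          h3 := fun h _ => hI.h3 h (by decide)
          h3' := fun _ => by decide
          h4 := fun _ => hI.h4 (by decide)
          h5 := fun _ _ => ⟨B, hr, hZB, hnot, fun h => absurd h (by decide)⟩
          h7 := fun h => absurd h (by decide) }
    | forbN1 f Z₀ r B hr =>
      have hnot : (o B 1 : N' N T S ⊕ T) ∉ m := fun h => hf _ rfl (List.mem_append_left _ h)
      refine hctl Z₀ (some (f, r, 3)) (some (f, r, 4)) hs (by rw [hs']) ?_
      intro hZ hσ
      subst hZ; subst hσ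
      have hI : InvS m Z f r 3 := hInv
      obtain ⟨B', g1, g2, g3, -⟩ := hI.h5 (by decide) (by decide)
      have hBB : B' = B := by
        rw [hr] at g1
        simpa using g1.symm
      subst hBB
      exact
        { h1 := hI.h1
          h2 := fun h _ => hI.h2 h (by decide)
          h3 := fun h _ => hI.h3 h (by decide)
          h3' := fun _ => by decide
          h4 := fun _ => hI.h4 (by decide)
          h5 := fun _ _ => ⟨B', g1, g2, g3, fun _ => hnot⟩
          h7 := fun h => absurd h (by decide) }
    | forbN2 f Z₀ r B hr =>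
      have hnot : (o B 2 : N' N T S ⊕ T) ∉ m := fun h => hf _ rfl (List.mem_append_left _ h)
      refine hctl Z₀ (some (f, r, 4)) (some (f, r, 5)) hs (by rw [hs']) ?_
      intro hZ hσ
      subst hZ; subst hσ
      have hI : InvS m Z f r 4 := hInv
      obtain ⟨B', g1, g2, g3, g4⟩ := hI.h5 (by decide) (by decide)
      have hBB : B' = B := by
        rw [hr] at g1
        simpa using g1.symm
      subst hBB
      exact
        { h1 := hI.h1
          h2 := fun h _ => hI.h2 h (by decide)
          h3 := fun h _ => hI.h3 h (by decide)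
          h3' := fun _ => by decide
          h4 := fun _ => hI.h4 (by decide)
          h5 := fun _ h => absurd h (by decide)
          h7 := fun _ _ b hb hmem => by
            rw [hr, Option.some.injEq] at hb
            subst hb
            rw [List.mem_append, List.mem_singleton] at hmem
            rcases hmem with hmem | hmem
            · obtain ⟨y, hy, hy'⟩ := List.mem_map.1 hmem
              rcases pr_eq_inl (fun Z σ h => hm Z σ (by rw [← h]; exact hy)) hy' with h1 | h1 | h1
              · rw [h1] at hy; exact g3 hy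
              · rw [h1] at hy; exact g4 rfl hy
              · rw [h1] at hy; exact hnot hy
            · exact g2 hmem.symm }
    | fin Z₀ r =>
      exact hctl Z₀ (some (false, r, 5)) none hs (by rw [hs']) (fun _ _ => trivial)
    | execL r x Y hr =>
      obtain ⟨e1, e2, e3, e4⟩ := ctl_last hm
        (hs : m ++ [c Z σ] = s₁ ++ [c (Sum.inl r.1.lhs) (some (true, r, 5))] ++ s₂)
      subst e1; subst e2; subst e3; subst e4
      have hs2 : s' = (m ++ x.map emb) ++ [c Y none] := by
        rw [hs']; simp
      have hI : InvS m (Sum.inl r.1.lhs) true r 5 := hInv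
      have hα := hI.h4 (by decide) (Or.inr rfl)
      have hβ := hI.h7 rfl (Or.inr rfl)
      have hstep : NStep S (m.map pr ++ [Sum.inl r.1.lhs]) ((m ++ x.map emb).map pr ++ [Y]) := by
        refine ⟨r.1, r.2, ⟨m.map pr, [], ?_, ?_⟩, hα, hβ⟩
        · simp
        · rw [hr]
          simp only [List.map_append, map_pr_emb, List.append_assoc, List.append_nil]
      subst hs2
      refine ⟨?_, Or.inr ⟨_, _, _, rfl, ?_, ?_, trivial⟩⟩
      · rw [List.map_append]
        exact hreach.tail hstep
      · exact hm.append (NC_emb _)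
      · intro B
        have h1 := hcount B
        have h2 : cn (o B 2 : N' N T S ⊕ T) (x.map emb) = 0 :=
          cn_zero.2 (o_notMem_emb _ _ (by decide))
        simp only [cn_append] at h1 ⊢
        omega
    | stop t =>
      obtain ⟨e1, e2, e3, e4⟩ := ctl_last hm
        (hs : m ++ [c Z σ] = s₁ ++ [c (Sum.inr t) none] ++ s₂)
      subst e1; subst e2; subst e3; subst e4
      have hs2 : s' = m ++ [Sum.inr t] := by
        rw [hs']; simp
      subst hs2
      refine ⟨?_, Or.inl ?_⟩
      · simpa using hreach
      · refine hm.append ?_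
        intro Z σ h
        simp [c] at h

theorem inv_reach {start : N} {s : List (N' N T S ⊕ T)}
    (h : ReflTransGen (NStep {ρ | NR S ρ}) [c (Sum.inl start) none] s) : Inv start s := by
  induction h with
  | refl =>
    refine ⟨ReflTransGen.refl, Or.inr ⟨[], _, _, rfl, ?_, ?_, trivial⟩⟩
    · intro Z σ h
      simp at h
    · intro A
      simp [cn]
  | tail _ h ih => exact inv_step ih h

theorem fwd_reach {start : N} (hS : ∀ r ∈ S, r.rhs ≠ []) {u : List (N ⊕ T)}
    (h : ReflTransGen (NStep S) [Sum.inl start] u) : ∃ x Z, u = x ++ [Z] ∧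
      ReflTransGen (NStep {ρ | NR S ρ}) [c (Sum.inl start) none] (x.map emb ++ [c Z none]) := by
  induction h with
  | refl => exact ⟨[], _, rfl, ReflTransGen.refl⟩
  | tail _ h ih =>
    obtain ⟨x, Z, rfl, h1⟩ := ih
    obtain ⟨x', Z', h2, h3⟩ := fwd hS h
    exact ⟨x', Z', h2, h1.trans h3⟩

theorem map_pr_inr (w : List T) : (w.map (Sum.inr : T → N' N T S ⊕ T)).map pr =
    w.map Sum.inr := by
  rw [List.map_map]
  rfl

theorem map_emb_inr (w : List T) : (w.map (Sum.inr : T → N ⊕ T)).map
    (emb : N ⊕ T → N' N T S ⊕ T) = w.map Sum.inr := by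
  rw [List.map_map]
  rfl

/-- the two derivation relations produce the same terminal words -/
theorem lang_iff {start : N} (hS : ∀ r ∈ S, r.rhs ≠ []) (w : List T) :
    ReflTransGen (NStep S) [Sum.inl start] (w.map Sum.inr) ↔
      ReflTransGen (NStep {ρ | NR S ρ}) [c (Sum.inl start) none] (w.map Sum.inr) := by
  constructor
  · intro h
    obtain ⟨x, Z, h1, h2⟩ := fwd_reach hS h
    rcases List.eq_nil_or_concat w with h3 | ⟨w', t, h3⟩
    · subst h3
      simp at h1
    · rw [List.concat_eq_append] at h3
      subst h3
      rw [List.map_append] at h1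
      obtain ⟨h4, h5⟩ := List.append_inj' h1 rfl
      simp only [List.map_cons, List.map_nil, List.cons.injEq, and_true] at h5
      rw [← h4, ← h5, map_emb_inr] at h2
      refine h2.trans ?_
      refine stp (NR.stop t) (w'.map Sum.inr) [] (by simp; rfl) (by simp) (by simp) (by simp)
  · intro h
    have h1 := (inv_reach h).1
    rwa [map_pr_inr] at h1

/-- The two families coincide. -/
theorem SSCprop_eq (T : Type) [Finite T] : SSCprop T 1 1 = SCprop T 1 1 := by
  ext L
  constructor
  · rintro ⟨G, h1, _, h3, h4⟩
    exact ⟨G, h1, h3, h4⟩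
  · rintro ⟨G, h1, h3, rfl⟩
    obtain ⟨S, hSfin, hS⟩ := exists_normal G h1
    have hfinN : Finite G.N := G.finN
    have : Finite S := hSfin.to_subtype
    have hne : ∀ r ∈ S, r.rhs ≠ [] := by
      intro r hr
      exact h3 r.toSC (by rw [hS]; exact ⟨r, hr, rfl⟩)
    have hstep : ∀ u v, G.Step u v ↔ NStep S u v := by
      intro u v
      constructor
      · rintro ⟨r, hr, h⟩
        rw [hS] at hr
        obtain ⟨r', hr', rfl⟩ := hr
        exact ⟨r', hr', (r'.toSC_rewrites u v).1 h⟩
      · rintro ⟨r, hr, h⟩
        exact ⟨r.toSC, by rw [hS]; exact ⟨r, hr, rfl⟩, (r.toSC_rewrites u v).2 h⟩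
    have hstepEq : G.Step = NStep S := by
      funext u v
      exact propext (hstep u v)
    let G' : SCGrammar T := ofN (N := N' G.N T S) inferInstance (Sum.inr (Sum.inl G.start, none))
      {ρ | NR S ρ} (NR_finite hSfin)
    refine ⟨G', ofN_degree _ _ _ _, ?_, ?_, ?_⟩
    · rintro _ ⟨ρ, hρ, rfl⟩
      rcases NR_simple hρ with h | h
      · left; show ρ.perm.map _ = none; rw [h]; rfl
      · right; show ρ.forb.map _ = none; rw [h]; rfl
    · rintro _ ⟨ρ, hρ, rfl⟩
      exact NR_prop hne hρ
    · have hstepEq' : G'.Step = NStep {ρ | NR S ρ} := by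
        funext u v
        exact propext (ofN_step _ _ _ _ u v)
      ext w
      show ReflTransGen G'.Step [Sum.inl (Sum.inr (Sum.inl G.start, none))] (w.map Sum.inr) ↔
        ReflTransGen G.Step [Sum.inl G.start] (w.map Sum.inr)
      rw [hstepEq, hstepEq']
      exact (lang_iff hne w).symm

end Q207.SSC
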